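import Mathlib
import Pool.Agent.H305R2.AE2

set_option autoImplicit false

namespace Pool.Agent.H447R2.ML

open Finset Filter Topology MeasureTheory

/-- A sequence of test functions with the window asymptotics of the almost everywhere law for
exponents `a > κ`. -/
structure Good (f : ℕ → ℝ → ℝ) (κ : ℝ) : Prop where
  kappa : 0 ≤ κ
  meas : ∀ p, Measurable (f p)
  nonneg : ∀ p t, 0 ≤ f p t
  le_one : ∀ p t, f p t ≤ 1
  short : ∀ c : ℝ, κ < c → ∃ K : ℝ, 0 < K ∧ ∀ᶠ p : ℕ in atTop, ∀ y : ℝ, c * p ≤ y →
    ∀ h : ℝ, 1 / p ≤ h → h ≤ 1 → ∫ t in Set.Ioc y (y + h), f p t ≤ K * h * (Real.log p / p)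
  asymp : ∀ a : ℝ, κ < a → ∀ y : ℕ → ℝ, Tendsto (fun p : ℕ => y p / p) atTop (𝓝 a) →
    Tendsto (fun p : ℕ => (∫ t in Set.Ioc (y p) (y p + 1), f p t) * (p / Real.log p)) atTop
      (𝓝 (Real.exp Real.eulerMascheroniConstant / a))

/-- local mean of `f p` -/
noncomputable def LL (f : ℕ → ℝ → ℝ) (p : ℕ) (y : ℝ) : ℝ := ∫ t in Set.Ioc y (y + 1), f p t

/-- centred version of `f p` -/
noncomputable def gg (f : ℕ → ℝ → ℝ) (p : ℕ) (y : ℝ) : ℝ := f p y - LL f p y

/-- primitive of `f p` -/
noncomputable def FF (f : ℕ → ℝ → ℝ) (p : ℕ) (x : ℝ) : ℝ := ∫ t in (0 : ℝ)..x, f p t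


/-- product of two centred functions in the rectangle coordinates -/
noncomputable def pk (f : ℕ → ℝ → ℝ) (p q : ℕ) (a b : ℝ) : ℝ := gg f p (a * p + b) * gg f q (a * q + b)



variable {f : ℕ → ℝ → ℝ} {κ : ℝ} (hf : Good f κ)
include hf

lemma integrableOn_ff (p : ℕ) (a b : ℝ) : IntegrableOn (f p) (Set.Ioc a b) := by
  refine Measure.integrableOn_of_bounded (M := 1) (by simp) (hf.meas p).aestronglyMeasurable ?_
  exact Eventually.of_forall fun t => by
    rw [Real.norm_eq_abs, abs_of_nonneg (hf.nonneg p t)]; exact hf.le_one p t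

lemma intervalIntegrable_ff (p : ℕ) (a b : ℝ) : IntervalIntegrable (f p) volume a b :=
  ⟨integrableOn_ff hf p a b, integrableOn_ff hf p b a⟩

lemma FF_sub (p : ℕ) {u v : ℝ} (h : u ≤ v) : FF f p v - FF f p u = ∫ t in Set.Ioc u v, f p t := by
  unfold FF
  rw [intervalIntegral.integral_interval_sub_left (intervalIntegrable_ff hf p 0 v)
    (intervalIntegrable_ff hf p 0 u), intervalIntegral.integral_of_le h]

lemma FF_mono (p : ℕ) : Monotone (FF f p) := by
  intro u v h
  have h1 := FF_sub hf p h
  have h2 : 0 ≤ ∫ t in Set.Ioc u v, f p t := setIntegral_nonneg measurableSet_Ioc fun t _ => hf.nonneg p t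
  linarith

lemma FF_sub_le (p : ℕ) {u v : ℝ} (h : u ≤ v) : FF f p v - FF f p u ≤ v - u := by
  rw [FF_sub hf p h]
  calc ∫ t in Set.Ioc u v, f p t ≤ ∫ t in Set.Ioc u v, (1 : ℝ) := by
        refine setIntegral_mono_on (integrableOn_ff hf p u v) (integrableOn_const (by simp)) measurableSet_Ioc
          fun t _ => hf.le_one p t
    _ = v - u := by
        rw [setIntegral_const, smul_eq_mul, mul_one, Real.volume_real_Ioc_of_le h]

lemma FF_cont (p : ℕ) : Continuous (FF f p) :=
  intervalIntegral.continuous_primitive (fun a b => intervalIntegrable_ff hf p a b) 0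

lemma LL_eq (p : ℕ) (y : ℝ) : LL f p y = FF f p (y + 1) - FF f p y := (FF_sub hf p (by linarith)).symm

lemma LL_cont (p : ℕ) : Continuous (LL f p) := by
  have : LL f p = fun y => FF f p (y + 1) - FF f p y := funext (LL_eq hf p)
  rw [this]
  exact ((FF_cont hf p).comp (by fun_prop)).sub (FF_cont hf p)

lemma LL_nonneg (p : ℕ) (y : ℝ) : 0 ≤ LL f p y :=
  setIntegral_nonneg measurableSet_Ioc fun t _ => hf.nonneg p t

lemma LL_le_one (p : ℕ) (y : ℝ) : LL f p y ≤ 1 := by
  rw [LL_eq hf]
  have := FF_sub_le hf p (show y ≤ y + 1 by linarith)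
  linarith

lemma measurable_gg (p : ℕ) : Measurable (gg f p) := (hf.meas p).sub (LL_cont hf p).measurable

lemma abs_gg_le_one (p : ℕ) (y : ℝ) : |gg f p y| ≤ 1 := by
  unfold gg
  rw [abs_le]
  constructor
  · linarith [hf.nonneg p y, LL_le_one hf p y]
  · linarith [hf.le_one p y, LL_nonneg hf p y]

lemma abs_gg_le (p : ℕ) (y : ℝ) : |gg f p y| ≤ f p y + LL f p y := by
  unfold gg
  rw [abs_le]
  constructor
  · linarith [hf.nonneg p y, LL_nonneg hf p y]
  · linarith [LL_nonneg hf p y]

lemma integrableOn_gg (p : ℕ) (a b : ℝ) : IntegrableOn (gg f p) (Set.Ioc a b) := by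
  refine Measure.integrableOn_of_bounded (M := 1) (by simp) (measurable_gg hf p).aestronglyMeasurable ?_
  exact Eventually.of_forall fun t => by rw [Real.norm_eq_abs]; exact abs_gg_le_one hf p t

lemma integrableOn_LL (p : ℕ) (a b : ℝ) : IntegrableOn (LL f p) (Set.Ioc a b) :=
  ((LL_cont hf p).integrableOn_Icc).mono_set Set.Ioc_subset_Icc_self

lemma integral_LL (p : ℕ) {u v : ℝ} (h : u ≤ v) : ∫ t in Set.Ioc u v, LL f p t =
    (∫ t in v..(v + 1), FF f p t) - ∫ t in u..(u + 1), FF f p t := by
  have hF : ∀ a b : ℝ, IntervalIntegrable (FF f p) volume a b := fun a b => (FF_cont hf p).intervalIntegrable a b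
  have hF1 : ∀ a b : ℝ, IntervalIntegrable (fun t => FF f p (t + 1)) volume a b := fun a b =>
    ((FF_cont hf p).comp (by fun_prop : Continuous fun t : ℝ => t + 1)).intervalIntegrable a b
  rw [← intervalIntegral.integral_of_le h]
  have e : ∀ t, LL f p t = FF f p (t + 1) - FF f p t := LL_eq hf p
  simp only [e]
  rw [intervalIntegral.integral_sub (hF1 u v) (hF u v),
    intervalIntegral.integral_comp_add_right (fun t => FF f p t) 1]
  have h1 := intervalIntegral.integral_add_adjacent_intervals (hF (u + 1) v) (hF v (v + 1))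
  have h2 := intervalIntegral.integral_add_adjacent_intervals (hF u (u + 1)) (hF (u + 1) v)
  linarith

/-- cancellation: the integral of `gg f` over an interval is controlled by its ends -/
lemma abs_integral_gg (p : ℕ) {u v : ℝ} (h : u ≤ v) :
    |∫ t in Set.Ioc u v, gg f p t| ≤ LL f p u + LL f p v := by
  have h1 : ∫ t in Set.Ioc u v, gg f p t = (∫ t in Set.Ioc u v, f p t) - ∫ t in Set.Ioc u v, LL f p t :=
    integral_sub (integrableOn_ff hf p u v) (integrableOn_LL hf p u v)
  have hF : ∀ a b : ℝ, IntervalIntegrable (FF f p) volume a b := fun a b => (FF_cont hf p).intervalIntegrable a b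
  have hlow : ∀ x : ℝ, FF f p x ≤ ∫ t in x..(x + 1), FF f p t := by
    intro x
    have := intervalIntegral.integral_mono_on (by linarith : x ≤ x + 1)
      (intervalIntegrable_const (c := FF f p x)) (hF x (x + 1)) (fun t ht => FF_mono hf p ht.1)
    simpa using this
  have hup : ∀ x : ℝ, ∫ t in x..(x + 1), FF f p t ≤ FF f p (x + 1) := by
    intro x
    have := intervalIntegral.integral_mono_on (by linarith : x ≤ x + 1)
      (hF x (x + 1)) (intervalIntegrable_const (c := FF f p (x + 1))) (fun t ht => FF_mono hf p ht.2)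
    simpa using this
  rw [h1, integral_LL hf p h, ← FF_sub hf p h]
  have a1 := hlow u
  have a2 := hup u
  have a3 := hlow v
  have a4 := hup v
  have b1 := LL_eq hf p u
  have b2 := LL_eq hf p v
  have b3 := LL_nonneg hf p u
  have b4 := LL_nonneg hf p v
  rw [abs_le]
  constructor <;> linarith

/-- mass of `f` on an interval in terms of the local mean -/
lemma integral_ff_le (p : ℕ) {u v : ℝ} (h : u ≤ v) :
    ∫ t in Set.Ioc u v, f p t ≤ ∫ t in Set.Ioc (u - 1) v, LL f p t := by
  have hF : ∀ a b : ℝ, IntervalIntegrable (FF f p) volume a b := fun a b => (FF_cont hf p).intervalIntegrable a b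
  rw [integral_LL hf p (by linarith : u - 1 ≤ v), ← FF_sub hf p h]
  have hlow : FF f p v ≤ ∫ t in v..(v + 1), FF f p t := by
    have := intervalIntegral.integral_mono_on (by linarith : v ≤ v + 1)
      (intervalIntegrable_const (c := FF f p v)) (hF v (v + 1)) (fun t ht => FF_mono hf p ht.1)
    simpa using this
  have hup : ∫ t in (u - 1)..(u - 1 + 1), FF f p t ≤ FF f p u := by
    have := intervalIntegral.integral_mono_on (by linarith : u - 1 ≤ u - 1 + 1)
      (hF (u - 1) (u - 1 + 1)) (intervalIntegrable_const (c := FF f p u))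
      (fun t ht => FF_mono hf p (by linarith [ht.2]))
    simpa using this
  linarith

/-- The package of uniform bounds hf. -/
theorem bounds {c : ℝ} (hc : κ < c) : ∃ K : ℝ, 0 < K ∧ ∀ᶠ p : ℕ in atTop,
    (∀ y, c * p ≤ y → LL f p y ≤ K * (Real.log p / p)) ∧
    (∀ u v, c * p + 1 ≤ u → u ≤ v → ∫ t in Set.Ioc u v, f p t ≤ K * ((v - u) + 1 / p) * (Real.log p / p)) ∧
    (∀ u v, c * p + 1 ≤ u → u ≤ v → |∫ t in Set.Ioc u v, gg f p t| ≤ K * (Real.log p / p)) ∧
    (∀ u v, c * p + 1 ≤ u → u ≤ v →
      ∫ t in Set.Ioc u v, |gg f p t| ≤ K * ((v - u) + 1 / p) * (Real.log p / p)) := by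
  obtain ⟨K, hK, hev⟩ := hf.short c hc
  refine ⟨4 * K, by positivity, ?_⟩
  filter_upwards [hev, eventually_ge_atTop 3] with p hp hp3
  have hp3' : (3 : ℝ) ≤ p := by exact_mod_cast hp3
  have hp0 : (0 : ℝ) < p := by linarith
  have hlog : 0 < Real.log p := Real.log_pos (by linarith)
  set w := Real.log p / p with hw
  have hw0 : 0 < w := by positivity
  have h1p : 1 / (p : ℝ) ≤ 1 := by rw [div_le_one hp0]; linarith
  have h1p0 : 0 < 1 / (p : ℝ) := by positivity
  have hLL : ∀ y, c * p ≤ y → LL f p y ≤ K * w := by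
    intro y hy
    have := hp y hy 1 h1p le_rfl
    rw [mul_one] at this
    exact this
  have hff : ∀ u v, c * p + 1 ≤ u → u ≤ v → ∫ t in Set.Ioc u v, f p t ≤ 2 * K * ((v - u) + 1 / p) * w := by
    intro u v hu huv
    rcases le_total (v - u) 1 with h | h
    · have h2 := hp u (by linarith) (max (v - u) (1 / p)) (le_max_right _ _) (max_le h h1p)
      have h3 : ∫ t in Set.Ioc u v, f p t ≤ ∫ t in Set.Ioc u (u + max (v - u) (1 / p)), f p t := by
        refine setIntegral_mono_set (integrableOn_ff hf p _ _) ?_ ?_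
        · exact Eventually.of_forall fun t => hf.nonneg p t
        · refine (Set.Ioc_subset_Ioc_right ?_).eventuallyLE
          have := le_max_left (v - u) (1 / (p : ℝ))
          linarith
      have h4 : max (v - u) (1 / (p : ℝ)) ≤ (v - u) + 1 / p := max_le (by linarith) (by linarith)
      calc ∫ t in Set.Ioc u v, f p t ≤ K * max (v - u) (1 / p) * w := h3.trans h2
        _ ≤ K * ((v - u) + 1 / p) * w := by
            refine mul_le_mul_of_nonneg_right (mul_le_mul_of_nonneg_left h4 hK.le) hw0.le
        _ ≤ 2 * K * ((v - u) + 1 / p) * w := by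
            have : 0 ≤ K * ((v - u) + 1 / p) * w := by
              have : 0 ≤ v - u := by linarith
              positivity
            linarith
    · have h2 := integral_ff_le hf p huv
      have h3 : ∫ t in Set.Ioc (u - 1) v, LL f p t ≤ ∫ t in Set.Ioc (u - 1) v, K * w := by
        refine setIntegral_mono_on (integrableOn_LL hf p _ _) (integrableOn_const (by simp)) measurableSet_Ioc
          fun t ht => hLL t (by linarith [ht.1])
      rw [setIntegral_const, smul_eq_mul, Real.volume_real_Ioc_of_le (by linarith)] at h3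
      calc ∫ t in Set.Ioc u v, f p t ≤ (v - (u - 1)) * (K * w) := h2.trans h3
        _ ≤ (2 * ((v - u) + 1 / p)) * (K * w) := by
            refine mul_le_mul_of_nonneg_right ?_ (by positivity)
            linarith
        _ = _ := by ring
  refine ⟨?_, ?_, ?_, ?_⟩
  · intro y hy
    have := hLL y hy
    have : 0 < K * w := by positivity
    linarith [hLL y hy]
  · intro u v hu huv
    refine (hff u v hu huv).trans ?_
    have : 0 ≤ K * ((v - u) + 1 / p) * w := by
      have : 0 ≤ v - u := by linarith
      positivity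
    linarith
  · intro u v hu huv
    refine (abs_integral_gg hf p huv).trans ?_
    have h1 := hLL u (by linarith)
    have h2 := hLL v (by linarith)
    have : 0 < K * w := by positivity
    linarith
  · intro u v hu huv
    have hint : IntegrableOn (fun t => |gg f p t|) (Set.Ioc u v) := (integrableOn_gg hf p u v).abs
    calc ∫ t in Set.Ioc u v, |gg f p t| ≤ ∫ t in Set.Ioc u v, (f p t + LL f p t) := by
          refine setIntegral_mono_on hint ((integrableOn_ff hf p u v).add (integrableOn_LL hf p u v))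
            measurableSet_Ioc fun t _ => abs_gg_le hf p t
      _ = (∫ t in Set.Ioc u v, f p t) + ∫ t in Set.Ioc u v, LL f p t :=
          integral_add (integrableOn_ff hf p u v) (integrableOn_LL hf p u v)
      _ ≤ 2 * K * ((v - u) + 1 / p) * w + (v - u) * (K * w) := by
          refine add_le_add (hff u v hu huv) ?_
          have h3 : ∫ t in Set.Ioc u v, LL f p t ≤ ∫ t in Set.Ioc u v, K * w := by
            refine setIntegral_mono_on (integrableOn_LL hf p _ _) (integrableOn_const (by simp)) measurableSet_Ioc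
              fun t ht => hLL t (by linarith [ht.1])
          rw [setIntegral_const, smul_eq_mul, Real.volume_real_Ioc_of_le huv] at h3
          exact h3
      _ ≤ 4 * K * ((v - u) + 1 / p) * w := by
          have h0 : 0 ≤ v - u := by linarith
          have h4 : 0 ≤ K * w * (v - u) := by positivity
          have h5 : 0 ≤ K * w * (1 / p) := by positivity
          nlinarith

lemma measurable_pk (p q : ℕ) : Measurable (Function.uncurry (pk f p q)) := by
  unfold pk Function.uncurry
  refine Measurable.mul ?_ ?_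
  · exact (measurable_gg hf p).comp (by fun_prop)
  · exact (measurable_gg hf q).comp (by fun_prop)

lemma abs_pk_le_one (p q : ℕ) (a b : ℝ) : |pk f p q a b| ≤ 1 := by
  unfold pk
  rw [abs_mul]
  exact mul_le_one₀ (abs_gg_le_one hf _ _) (abs_nonneg _) (abs_gg_le_one hf _ _)

lemma shear_inner (p q : ℕ) (hp : 0 < p) (a0 a1 b0 b1 : ℝ) {a : ℝ} (ha : a ∈ Set.Ioc a0 a1) :
    ∫ b in Set.Ico b0 b1, pk f p q a b =
      ∫ y in Set.Ico (a0 * p + b0) (a1 * p + b1),
        (Set.Ioc ((y - b1) / p) ((y - b0) / p)).indicator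
          (fun a => gg f p y * gg f q (y + ((q : ℝ) - p) * a)) a := by
  have hp' : (0 : ℝ) < p := by exact_mod_cast hp
  rw [← integral_indicator measurableSet_Ico]
  rw [← integral_sub_right_eq_self (fun b => (Set.Ico b0 b1).indicator (pk f p q a) b) (a * p)]
  rw [setIntegral_eq_integral_of_forall_compl_eq_zero]
  · refine integral_congr_ae (Eventually.of_forall fun y => ?_)
    simp only
    by_cases h : y - a * p ∈ Set.Ico b0 b1
    · have h2 : a ∈ Set.Ioc ((y - b1) / p) ((y - b0) / p) := by
        constructor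
        · rw [div_lt_iff₀ hp']; linarith [h.2]
        · rw [le_div_iff₀ hp']; linarith [h.1]
      rw [Set.indicator_of_mem h, Set.indicator_of_mem h2]
      unfold pk
      congr 2 <;> ring
    · have h2 : a ∉ Set.Ioc ((y - b1) / p) ((y - b0) / p) := by
        rintro ⟨h3, h4⟩
        rw [div_lt_iff₀ hp'] at h3
        rw [le_div_iff₀ hp'] at h4
        exact h ⟨by linarith, by linarith⟩
      rw [Set.indicator_of_notMem h, Set.indicator_of_notMem h2]
  · intro y hy
    rw [Set.indicator_of_notMem]
    rintro ⟨h3, h4⟩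
    rw [div_lt_iff₀ hp'] at h3
    rw [le_div_iff₀ hp'] at h4
    apply hy
    constructor
    · have : a0 * p ≤ a * p := by
        have := ha.1.le
        gcongr
      linarith
    · have : a * p ≤ a1 * p := by
        have := ha.2
        gcongr
      linarith

lemma rect_swap (p q : ℕ) (hp : 0 < p) (a0 a1 b0 b1 : ℝ) :
    ∫ a in Set.Ioc a0 a1, ∫ b in Set.Ico b0 b1, pk f p q a b =
    ∫ y in Set.Ico (a0 * p + b0) (a1 * p + b1), gg f p y *
      ∫ a in Set.Ioc (max a0 ((y - b1) / p)) (min a1 ((y - b0) / p)), gg f q (y + ((q : ℝ) - p) * a) := by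
  have hp' : (0 : ℝ) < p := by exact_mod_cast hp
  rw [setIntegral_congr_fun measurableSet_Ioc (fun a ha => shear_inner hf p q hp a0 a1 b0 b1 ha)]
  rw [integral_integral_swap]
  · refine setIntegral_congr_fun measurableSet_Ico fun y _ => ?_
    rw [setIntegral_indicator measurableSet_Ioc, Set.Ioc_inter_Ioc, integral_const_mul]
  · have : IsFiniteMeasure (volume.restrict (Set.Ioc a0 a1)) := ⟨by simp⟩
    have : IsFiniteMeasure (volume.restrict (Set.Ico (a0 * (p : ℝ) + b0) (a1 * p + b1))) := ⟨by simp⟩
    refine Integrable.of_bound (Measurable.aestronglyMeasurable ?_) 1 (Eventually.of_forall ?_)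
    · have e : (Function.uncurry fun (a y : ℝ) => (Set.Ioc ((y - b1) / p) ((y - b0) / p)).indicator
          (fun a => gg f p y * gg f q (y + ((q : ℝ) - p) * a)) a) =
          Set.indicator {z : ℝ × ℝ | (z.2 - b1) / p < z.1 ∧ z.1 ≤ (z.2 - b0) / p}
            (fun z => gg f p z.2 * gg f q (z.2 + ((q : ℝ) - p) * z.1)) := by
        funext z
        rcases z with ⟨a, y⟩
        by_cases h : (y - b1) / p < a ∧ a ≤ (y - b0) / p
        · rw [Set.indicator_of_mem (show (a, y) ∈ {z : ℝ × ℝ | (z.2 - b1) / p < z.1 ∧ z.1 ≤ (z.2 - b0) / p} from h)]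
          simp only [Function.uncurry]
          rw [Set.indicator_of_mem (show a ∈ Set.Ioc ((y - b1) / p) ((y - b0) / p) from h)]
        · rw [Set.indicator_of_notMem (show (a, y) ∉ {z : ℝ × ℝ | (z.2 - b1) / p < z.1 ∧ z.1 ≤ (z.2 - b0) / p} from h)]
          simp only [Function.uncurry]
          rw [Set.indicator_of_notMem (show a ∉ Set.Ioc ((y - b1) / p) ((y - b0) / p) from h)]
      rw [e]
      refine Measurable.indicator ?_ ?_
      · refine Measurable.mul ?_ ?_
        · exact (measurable_gg hf p).comp (by fun_prop)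
        · exact (measurable_gg hf q).comp (by fun_prop)
      · have m1 : MeasurableSet {z : ℝ × ℝ | (z.2 - b1) / p < z.1} :=
          measurableSet_lt (by fun_prop) (by fun_prop)
        have m2 : MeasurableSet {z : ℝ × ℝ | z.1 ≤ (z.2 - b0) / p} :=
          measurableSet_le (by fun_prop) (by fun_prop)
        exact m1.inter m2
    · rintro ⟨a, y⟩
      simp only [Function.uncurry]
      refine (norm_indicator_le_norm_self _ _).trans ?_
      rw [Real.norm_eq_abs, abs_mul]
      exact mul_le_one₀ (abs_gg_le_one hf _ _) (abs_nonneg _) (abs_gg_le_one hf _ _)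

end Pool.Agent.H447R2.ML
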