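import Mathlib
import Pool.Agent.H447R2.ML.Gen3

set_option autoImplicit false

namespace Pool.Agent.H447R2.ML

open Finset Filter Topology MeasureTheory

/-- centred sum -/
noncomputable def SS (f : ℕ → ℝ → ℝ) (P0 n : ℕ) (z : ℝ × ℝ) : ℝ :=
  ∑ p ∈ (Finset.Icc P0 n).filter Nat.Prime, gg f p (z.1 * p + z.2)


/-- counting function in logarithmic coordinates -/
noncomputable def CC (f : ℕ → ℝ → ℝ) (a b : ℝ) (n : ℕ) : ℝ := ∑ p ∈ (Finset.Icc 1 n).filter Nat.Prime, f p (a * p + b)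


variable {f : ℕ → ℝ → ℝ} {κ : ℝ} (hf : Good f κ)
include hf

lemma measurable_SS (P0 n : ℕ) : Measurable (SS f P0 n) := by
  unfold SS
  refine Finset.measurable_fun_sum _ fun p _ => ?_
  exact (measurable_gg hf p).comp (by fun_prop)

lemma abs_SS_le (P0 n : ℕ) (z : ℝ × ℝ) : |SS f P0 n z| ≤ n + 1 := by
  unfold SS
  refine (Finset.abs_sum_le_sum_abs _ _).trans ?_
  calc ∑ p ∈ (Finset.Icc P0 n).filter Nat.Prime, |gg f p (z.1 * p + z.2)|
      ≤ ∑ p ∈ (Finset.Icc P0 n).filter Nat.Prime, (1 : ℝ) :=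
        Finset.sum_le_sum fun p _ => abs_gg_le_one hf _ _
    _ ≤ ∑ p ∈ Finset.range (n + 1), (1 : ℝ) := by
        refine Finset.sum_le_sum_of_subset_of_nonneg ?_ fun _ _ _ => zero_le_one
        intro p hp
        have := Finset.mem_Icc.mp (Finset.mem_filter.mp hp).1
        exact Finset.mem_range.mpr (by omega)
    _ = n + 1 := by simp

theorem ae_SS (a0 a1 b0 b1 : ℝ) (ha0 : κ < a0) (ha : a0 ≤ a1) (hb : b0 ≤ b1) :
    ∃ P0 : ℕ, 3 ≤ P0 ∧ ∀ᵐ z ∂(volume.restrict (Set.Ioc a0 a1 ×ˢ Set.Ico b0 b1)),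
      Tendsto (fun k : ℕ => SS f P0 (Pool.Agent.H305R2.smp (k ^ 2)) z / ((k : ℝ) ^ 2)) atTop (𝓝 0) := by
  obtain ⟨C, P0, hC, hP0, hmom⟩ := second_moment hf a0 a1 b0 b1 ha0 ha hb
  refine ⟨P0, hP0, ?_⟩
  set R := Set.Ioc a0 a1 ×ˢ Set.Ico b0 b1 with hR
  have hvol : volume R < ⊤ := by
    rw [hR, Measure.volume_eq_prod, Measure.prod_prod]
    simp [Real.volume_Ioc, Real.volume_Ico, ENNReal.mul_lt_top]
  have hfin : IsFiniteMeasure (volume.restrict R) := ⟨by simpa using hvol⟩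
  have key : ∀ᵐ z ∂(volume.restrict R),
      Tendsto (fun k : ℕ => (fun (k : ℕ) (z : ℝ × ℝ) => SS f P0 (Pool.Agent.H305R2.smp ((k + 1) ^ 2)) z / (((k + 1 : ℕ) : ℝ) ^ 2)) k z)
        atTop (𝓝 0) := by
    refine Pool.Agent.H305R2.ae_tendsto_zero _ (fun k => (measurable_SS hf _ _).div_const _) (fun k => ?_) ?_
    · refine Integrable.of_bound (((measurable_SS hf _ _).div_const _).pow_const 2).aestronglyMeasurable
        ((((Pool.Agent.H305R2.smp ((k + 1) ^ 2) : ℕ) : ℝ) + 1) ^ 2) (Eventually.of_forall fun z => ?_)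
      rw [Real.norm_eq_abs, abs_pow, abs_div]
      refine pow_le_pow_left₀ (by positivity) ?_ 2
      have h1 := abs_SS_le hf P0 (Pool.Agent.H305R2.smp ((k + 1) ^ 2)) z
      have h2 : (1 : ℝ) ≤ |(((k + 1 : ℕ) : ℝ) ^ 2)| := by
        rw [abs_of_nonneg (by positivity)]
        push_cast
        nlinarith [Nat.cast_nonneg (α := ℝ) k]
      exact (div_le_self (abs_nonneg _) h2).trans h1
    · have hb1 : ∀ k : ℕ, ∫ z, (SS f P0 (Pool.Agent.H305R2.smp ((k + 1) ^ 2)) z / (((k + 1 : ℕ) : ℝ) ^ 2)) ^ 2 ∂(volume.restrict R) ≤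
          2 * C * (1 / (((k + 1 : ℕ) : ℝ) ^ 2)) := by
        intro k
        have e1 : ∀ z, (SS f P0 (Pool.Agent.H305R2.smp ((k + 1) ^ 2)) z / (((k + 1 : ℕ) : ℝ) ^ 2)) ^ 2 =
            (SS f P0 (Pool.Agent.H305R2.smp ((k + 1) ^ 2)) z) ^ 2 * (1 / (((k + 1 : ℕ) : ℝ) ^ 4)) := by
          intro z
          have : (((k + 1 : ℕ) : ℝ)) ≠ 0 := by positivity
          field_simp
        simp only [e1]
        rw [integral_mul_const]
        have h1 := hmom (Pool.Agent.H305R2.smp ((k + 1) ^ 2)) (Pool.Agent.H305R2.one_le_smp _)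
        have h2 := Pool.Agent.H305R2.log_smp_le ((k + 1) ^ 2)
        have h3 : ∫ z in R, (SS f P0 (Pool.Agent.H305R2.smp ((k + 1) ^ 2)) z) ^ 2 ≤ C * (Real.log (Pool.Agent.H305R2.smp ((k + 1) ^ 2)) + 1) := h1
        have hk0 : (1 : ℝ) ≤ ((k + 1 : ℕ) : ℝ) := by push_cast; linarith [Nat.cast_nonneg (α := ℝ) k]
        have hk2 : (1 : ℝ) ≤ ((k + 1 : ℕ) : ℝ) ^ 2 := by nlinarith
        have h2' : Real.log (Pool.Agent.H305R2.smp ((k + 1) ^ 2)) ≤ ((k + 1 : ℕ) : ℝ) ^ 2 := by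
          refine h2.trans ?_
          push_cast
          exact le_rfl
        calc (∫ z in R, (SS f P0 (Pool.Agent.H305R2.smp ((k + 1) ^ 2)) z) ^ 2) * (1 / (((k + 1 : ℕ) : ℝ) ^ 4))
            ≤ (C * (2 * (((k + 1 : ℕ) : ℝ) ^ 2))) * (1 / (((k + 1 : ℕ) : ℝ) ^ 4)) := by
              refine mul_le_mul_of_nonneg_right (h3.trans ?_) (by positivity)
              refine mul_le_mul_of_nonneg_left ?_ hC.le
              linarith
          _ = 2 * C * (1 / (((k + 1 : ℕ) : ℝ) ^ 2)) := by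
              field_simp
      refine Summable.of_nonneg_of_le (fun k => integral_nonneg fun z => sq_nonneg _) hb1 ?_
      refine Summable.mul_left _ ?_
      have h2 : Summable (fun n : ℕ => 1 / (n : ℝ) ^ 2) := Real.summable_one_div_nat_pow.mpr one_lt_two
      exact (summable_nat_add_iff (f := fun n : ℕ => 1 / (n : ℝ) ^ 2) 1).mpr h2
  filter_upwards [key] with z hz
  exact (tendsto_add_atTop_iff_nat (f := fun k : ℕ => SS f P0 (Pool.Agent.H305R2.smp (k ^ 2)) z / ((k : ℝ) ^ 2)) 1).mp hz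

lemma CC_mono (a b : ℝ) : Monotone (CC f a b) := by
  intro m n h
  unfold CC
  refine Finset.sum_le_sum_of_subset_of_nonneg ?_ fun p _ _ => hf.nonneg p _
  exact Finset.filter_subset_filter _ (Finset.Icc_subset_Icc_right h)

/-- the deterministic main term -/
lemma main_term {a : ℝ} (ha : κ < a) (b : ℝ) :
    Tendsto (fun n : ℕ => (∑ p ∈ (Finset.Icc 1 n).filter Nat.Prime, LL f p (a * p + b)) / Real.log n) atTop
      (𝓝 (Real.exp Real.eulerMascheroniConstant / a)) := by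
  refine Pool.Agent.H305R2.cesaro (fun p => LL f p (a * p + b)) _ ?_
  refine hf.asymp a ha (fun p => a * p + b) ?_
  have h1 : Tendsto (fun p : ℕ => a + b * (1 / (p : ℝ))) atTop (𝓝 (a + b * 0)) :=
    tendsto_const_nhds.add ((tendsto_one_div_atTop_nhds_zero_nat (𝕜 := ℝ)).const_mul b)
  rw [mul_zero, add_zero] at h1
  refine h1.congr' ?_
  filter_upwards [eventually_ge_atTop 1] with p hp
  have hp0 : (0 : ℝ) < p := by exact_mod_cast hp
  field_simp

/-- difference between the counting function and its main term -/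
lemma CC_sub (P0 : ℕ) (z : ℝ × ℝ) (n : ℕ) :
    |CC f z.1 z.2 n - (∑ p ∈ (Finset.Icc 1 n).filter Nat.Prime, LL f p (z.1 * p + z.2)) - SS f P0 n z| ≤ P0 + 1 := by
  have h1 : CC f z.1 z.2 n - (∑ p ∈ (Finset.Icc 1 n).filter Nat.Prime, LL f p (z.1 * p + z.2)) =
      ∑ p ∈ (Finset.Icc 1 n).filter Nat.Prime, gg f p (z.1 * p + z.2) := by
    unfold CC gg
    rw [Finset.sum_sub_distrib]
  have h2 : ∑ p ∈ (Finset.Icc 1 n).filter Nat.Prime, gg f p (z.1 * p + z.2) =
      SS f P0 n z + ∑ p ∈ ((Finset.Icc 1 n).filter Nat.Prime).filter (fun p => p < P0), gg f p (z.1 * p + z.2) := by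
    rw [← Finset.sum_filter_add_sum_filter_not ((Finset.Icc 1 n).filter Nat.Prime) (fun p => p < P0), add_comm]
    congr 1
    unfold SS
    refine Finset.sum_congr ?_ fun _ _ => rfl
    ext p
    simp only [Finset.mem_filter, Finset.mem_Icc, not_lt]
    constructor
    · rintro ⟨⟨⟨h1, h2⟩, h3⟩, h4⟩
      exact ⟨⟨h4, h2⟩, h3⟩
    · rintro ⟨⟨h1, h2⟩, h3⟩
      exact ⟨⟨⟨h3.one_lt.le, h2⟩, h3⟩, h1⟩
  rw [h1, h2, add_sub_cancel_left]
  refine (Finset.abs_sum_le_sum_abs _ _).trans ?_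
  calc ∑ p ∈ ((Finset.Icc 1 n).filter Nat.Prime).filter (fun p => p < P0), |gg f p (z.1 * p + z.2)|
      ≤ ∑ p ∈ ((Finset.Icc 1 n).filter Nat.Prime).filter (fun p => p < P0), (1 : ℝ) :=
        Finset.sum_le_sum fun p _ => abs_gg_le_one hf _ _
    _ ≤ ∑ p ∈ Finset.range (P0 + 1), (1 : ℝ) := by
        refine Finset.sum_le_sum_of_subset_of_nonneg ?_ fun _ _ _ => zero_le_one
        intro p hp
        have := (Finset.mem_filter.mp hp).2
        exact Finset.mem_range.mpr (by omega)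
    _ = P0 + 1 := by simp

/-- convergence along the squares -/
lemma along_squares {z : ℝ × ℝ} (hz : κ < z.1) {P0 : ℕ}
    (hS : Tendsto (fun k : ℕ => SS f P0 (Pool.Agent.H305R2.smp (k ^ 2)) z / ((k : ℝ) ^ 2)) atTop (𝓝 0)) :
    Tendsto (fun k : ℕ => CC f z.1 z.2 (Pool.Agent.H305R2.smp (k ^ 2)) / ((k ^ 2 : ℕ) : ℝ)) atTop
      (𝓝 (Real.exp Real.eulerMascheroniConstant / z.1)) := by
  set L := Real.exp Real.eulerMascheroniConstant / z.1 with hL
  have hsq : Tendsto (fun k : ℕ => k ^ 2) atTop atTop := tendsto_pow_atTop two_ne_zero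
  have h1 := ((main_term hf hz z.2).comp Pool.Agent.H305R2.tendsto_smp).comp hsq
  have h2 := Pool.Agent.H305R2.log_smp_div.comp hsq
  have h3 := h1.mul h2
  rw [mul_one] at h3
  have h4 : Tendsto (fun k : ℕ => ((P0 : ℝ) + 1) / ((k ^ 2 : ℕ) : ℝ)) atTop (𝓝 0) :=
    (tendsto_natCast_atTop_atTop.comp hsq).const_div_atTop _
  have h5 : Tendsto (fun k : ℕ => (CC f z.1 z.2 (Pool.Agent.H305R2.smp (k ^ 2)) -
      (∑ p ∈ (Finset.Icc 1 (Pool.Agent.H305R2.smp (k ^ 2))).filter Nat.Prime, LL f p (z.1 * p + z.2)) - SS f P0 (Pool.Agent.H305R2.smp (k ^ 2)) z) /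
        ((k ^ 2 : ℕ) : ℝ)) atTop (𝓝 0) := by
    refine squeeze_zero_norm (fun k => ?_) h4
    rw [Real.norm_eq_abs, abs_div, abs_of_nonneg (show (0 : ℝ) ≤ ((k ^ 2 : ℕ) : ℝ) from Nat.cast_nonneg _)]
    exact div_le_div_of_nonneg_right (CC_sub hf P0 z _) (Nat.cast_nonneg _)
  have h6 := (h5.add h3).add hS
  rw [zero_add, add_zero] at h6
  refine h6.congr' ?_
  filter_upwards [eventually_ge_atTop 2] with k hk
  have hk0 : (2 : ℝ) ≤ k := by exact_mod_cast hk
  have hlog : 0 < Real.log (Pool.Agent.H305R2.smp (k ^ 2)) := by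
    have := Pool.Agent.H305R2.log_smp_ge (k ^ 2)
    push_cast at this
    nlinarith
  simp only [Function.comp]
  push_cast
  field_simp
  ring

/-- from the sampling points to all integers -/
lemma all_n {a b L : ℝ} (h : Tendsto (fun k : ℕ => CC f a b (Pool.Agent.H305R2.smp (k ^ 2)) / ((k ^ 2 : ℕ) : ℝ)) atTop (𝓝 L)) :
    Tendsto (fun n : ℕ => CC f a b n / Real.log n) atTop (𝓝 L) := by
  have h1 : Tendsto (fun m : ℕ => CC f a b (Pool.Agent.H305R2.smp m) / (m : ℝ)) atTop (𝓝 L) := by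
    refine tendsto_div_of_monotone_of_exists_subseq_tendsto_div (fun m => CC f a b (Pool.Agent.H305R2.smp m)) L
      (fun m n hmn => CC_mono hf a b (Pool.Agent.H305R2.smp_mono hmn)) fun c hc => ?_
    refine ⟨fun k => k ^ 2, ?_, tendsto_pow_atTop two_ne_zero, h⟩
    have h2 : Tendsto (fun k : ℕ => (1 + 1 / (k : ℝ)) ^ 2) atTop (𝓝 ((1 + 0) ^ 2)) :=
      ((tendsto_one_div_atTop_nhds_zero_nat (𝕜 := ℝ)).const_add 1).pow 2
    have h3 : ∀ᶠ k : ℕ in atTop, (1 + 1 / (k : ℝ)) ^ 2 < c := h2.eventually (gt_mem_nhds (by simpa using hc))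
    filter_upwards [h3, eventually_ge_atTop 1] with k hk hk1
    have hk0 : (0 : ℝ) < k := by exact_mod_cast hk1
    have e : (((k + 1) ^ 2 : ℕ) : ℝ) = (1 + 1 / (k : ℝ)) ^ 2 * ((k ^ 2 : ℕ) : ℝ) := by
      push_cast
      field_simp
    rw [e]
    gcongr
  -- integer part of the logarithm
  set m : ℕ → ℕ := fun n => ⌊Real.log n⌋₊ with hm
  have hmt : Tendsto m atTop atTop := tendsto_nat_floor_atTop.comp Pool.Agent.H305R2.log_nat_tendsto
  have hlow : Tendsto (fun n : ℕ => CC f a b (Pool.Agent.H305R2.smp (m n)) / ((m n : ℝ) + 1)) atTop (𝓝 L) := by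
    have h2 : Tendsto (fun k : ℕ => CC f a b (Pool.Agent.H305R2.smp k) / (k : ℝ) * ((k : ℝ) / (k + 1))) atTop (𝓝 (L * 1)) :=
      h1.mul (tendsto_natCast_div_add_atTop (1 : ℝ))
    rw [mul_one] at h2
    refine (h2.comp hmt).congr' ?_
    filter_upwards [hmt.eventually (eventually_ge_atTop 1)] with n hn
    have : (0 : ℝ) < m n := by exact_mod_cast hn
    simp only [Function.comp]
    field_simp
  have hup : Tendsto (fun n : ℕ => CC f a b (Pool.Agent.H305R2.smp (m n + 1)) / (m n : ℝ)) atTop (𝓝 L) := by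
    have h2 : Tendsto (fun k : ℕ => CC f a b (Pool.Agent.H305R2.smp (k + 1)) / ((k + 1 : ℕ) : ℝ) * (1 + 1 / (k : ℝ))) atTop
        (𝓝 (L * (1 + 0))) :=
      ((tendsto_add_atTop_iff_nat (f := fun m : ℕ => CC f a b (Pool.Agent.H305R2.smp m) / (m : ℝ)) 1).mpr h1).mul
        ((tendsto_one_div_atTop_nhds_zero_nat (𝕜 := ℝ)).const_add 1)
    rw [add_zero, mul_one] at h2
    refine (h2.comp hmt).congr' ?_
    filter_upwards [hmt.eventually (eventually_ge_atTop 1)] with n hn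
    have : (0 : ℝ) < m n := by exact_mod_cast hn
    simp only [Function.comp]
    push_cast
    field_simp
  refine tendsto_of_tendsto_of_tendsto_of_le_of_le' hlow hup ?_ ?_
  · filter_upwards [eventually_ge_atTop 3] with n hn
    have hn0 : (3 : ℝ) ≤ n := by exact_mod_cast hn
    have hlog : 0 < Real.log n := Real.log_pos (by linarith)
    have h2 : Real.log n < m n + 1 := Nat.lt_floor_add_one _
    have h3 : Pool.Agent.H305R2.smp (m n) ≤ n := by
      have h4 : Real.exp (m n : ℝ) ≤ n := by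
        rw [← Real.le_log_iff_exp_le (by linarith)]
        exact Nat.floor_le hlog.le
      unfold Pool.Agent.H305R2.smp
      exact Nat.floor_le_of_le h4
    have h5 : 0 ≤ CC f a b n := Finset.sum_nonneg fun p _ => hf.nonneg p _
    exact div_le_div₀ h5 (CC_mono hf a b h3) hlog h2.le
  · filter_upwards [eventually_ge_atTop 3, hmt.eventually (eventually_ge_atTop 1)] with n hn hmn
    have hn0 : (3 : ℝ) ≤ n := by exact_mod_cast hn
    have hlog : 0 < Real.log n := Real.log_pos (by linarith)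
    have hm0 : (0 : ℝ) < m n := by exact_mod_cast hmn
    have h2 : (m n : ℝ) ≤ Real.log n := Nat.floor_le hlog.le
    have h3 : n ≤ Pool.Agent.H305R2.smp (m n + 1) := by
      have h4 : (n : ℝ) ≤ Real.exp ((m n + 1 : ℕ) : ℝ) := by
        rw [← Real.log_le_iff_le_exp (by linarith)]
        push_cast
        exact (Nat.lt_floor_add_one _).le
      unfold Pool.Agent.H305R2.smp
      exact Nat.le_floor h4
    have h5 : 0 ≤ CC f a b (Pool.Agent.H305R2.smp (m n + 1)) := Finset.sum_nonneg fun p _ => hf.nonneg p _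
    exact div_le_div₀ h5 (CC_mono hf a b h3) hm0 h2

/-- The almost everywhere law in logarithmic coordinates. -/
theorem ae_law_log : ∀ᵐ z : ℝ × ℝ, κ < z.1 →
    Tendsto (fun n : ℕ => CC f z.1 z.2 n / Real.log n) atTop
      (𝓝 (Real.exp Real.eulerMascheroniConstant / z.1)) := by
  have hκ0 := hf.kappa
  have h1 : ∀ j : ℕ, ∀ᵐ z : ℝ × ℝ, z ∈ Set.Ioc (κ + 1 / ((j : ℝ) + 1)) (κ + ((j : ℝ) + 1)) ×ˢ
      Set.Ico (-((j : ℝ) + 1)) ((j : ℝ) + 1) →
      Tendsto (fun n : ℕ => CC f z.1 z.2 n / Real.log n) atTop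
        (𝓝 (Real.exp Real.eulerMascheroniConstant / z.1)) := by
    intro j
    have hj0 : (0 : ℝ) ≤ j := Nat.cast_nonneg j
    have hj1 : 1 / ((j : ℝ) + 1) ≤ 1 := by rw [div_le_one (by positivity)]; linarith
    have hj2 : 0 < 1 / ((j : ℝ) + 1) := by positivity
    obtain ⟨P0, hP0, hae⟩ := ae_SS hf (κ + 1 / ((j : ℝ) + 1)) (κ + ((j : ℝ) + 1)) (-((j : ℝ) + 1)) ((j : ℝ) + 1)
      (by linarith) (by linarith) (by linarith)
    rw [ae_restrict_iff' (measurableSet_Ioc.prod measurableSet_Ico)] at hae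
    filter_upwards [hae] with z hz hzR
    have hz0 : κ < z.1 := lt_trans (by linarith) hzR.1.1
    exact all_n hf (along_squares hf hz0 (hz hzR))
  filter_upwards [ae_all_iff.mpr h1] with z hz hz0
  have hz1 : 0 < z.1 - κ := by linarith
  obtain ⟨j, hj⟩ := exists_nat_gt (max (1 / (z.1 - κ)) (max z.1 |z.2|))
  have hj1 : 1 / (z.1 - κ) < j := lt_of_le_of_lt (le_max_left _ _) hj
  have hj2 : z.1 < j := lt_of_le_of_lt ((le_max_left _ _).trans (le_max_right _ _)) hj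
  have hj3 : |z.2| < j := lt_of_le_of_lt ((le_max_right _ _).trans (le_max_right _ _)) hj
  have hj0 : (0 : ℝ) < j := (hκ0.trans_lt hz0).trans hj2
  refine hz j ⟨⟨?_, by linarith⟩, ⟨?_, ?_⟩⟩
  · have h2 : 1 / ((j : ℝ) + 1) < z.1 - κ := by
      rw [div_lt_iff₀ (by linarith)]
      rw [div_lt_iff₀ hz1] at hj1
      nlinarith
    linarith
  · linarith [neg_abs_le z.2]
  · linarith [le_abs_self z.2]

end Pool.Agent.H447R2.ML
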