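import Mathlib
import Pool.Agent.H447R2.ML.Gen4

set_option autoImplicit false

/-!
# Exponentially small perturbations

The almost everywhere law holds for the `p`-rough parts of `⌊β α ^ p + g p⌋` for every sequence `g`
with `|g p| ≤ C e ^ (κ p)`, at almost every point with `log α > κ`.
-/

namespace Pool.Agent.H447R2.ML

open Filter Topology MeasureTheory
open Pool.Agent.H305R2 (roughPart NN ff measurable_ff ff_nonneg ff_le_one integrableOn_ff
  window_asymp window_short)

/-- test function of the perturbed sequence -/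
noncomputable def fl (g : ℕ → ℝ) (p : ℕ) (t : ℝ) : ℝ :=
  if (roughPart p ⌊Real.exp t + g p⌋₊).Prime then 1 else 0

lemma fl_nonneg (g : ℕ → ℝ) (p : ℕ) (t : ℝ) : 0 ≤ fl g p t := by
  unfold fl; split_ifs <;> norm_num

lemma fl_le_one (g : ℕ → ℝ) (p : ℕ) (t : ℝ) : fl g p t ≤ 1 := by
  unfold fl; split_ifs <;> norm_num

lemma measurable_fl (g : ℕ → ℝ) (p : ℕ) : Measurable (fl g p) := by
  have h1 : Measurable fun t : ℝ => ⌊Real.exp t + g p⌋₊ :=
    Nat.measurable_floor.comp (Real.measurable_exp.add_const _)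
  have h2 : Measurable fun m : ℕ => if (roughPart p m).Prime then (1 : ℝ) else 0 :=
    measurable_from_top
  exact h2.comp h1

lemma integrableOn_fl (g : ℕ → ℝ) (p : ℕ) (a b : ℝ) : IntegrableOn (fl g p) (Set.Ioc a b) := by
  refine Measure.integrableOn_of_bounded (M := 1) (by simp) (measurable_fl g p).aestronglyMeasurable ?_
  exact Eventually.of_forall fun t => by
    rw [Real.norm_eq_abs, abs_of_nonneg (fl_nonneg g p t)]; exact fl_le_one g p t

lemma fl_ae (g : ℕ → ℝ) (p : ℕ) : ∀ᵐ t : ℝ, 0 < Real.exp t + g p →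
    fl g p t = ff p (Real.log (Real.exp t + g p)) := by
  have h0 : volume {t : ℝ | ∃ m : ℕ, Real.exp t + g p = m} = 0 := by
    refine Set.Countable.measure_zero ?_ volume
    refine (Set.countable_range fun m : ℕ => Real.log ((m : ℝ) - g p)).mono ?_
    rintro t ⟨m, hm⟩
    refine ⟨m, ?_⟩
    simp only
    rw [← hm, add_sub_cancel_right, Real.log_exp]
  have h1 : ∀ᵐ t : ℝ, ¬ ∃ m : ℕ, Real.exp t + g p = m := by
    rw [ae_iff]
    simpa using h0
  filter_upwards [h1] with t ht hpos
  unfold fl ff NN
  rw [Real.exp_log hpos]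
  have h2 : ⌈Real.exp t + g p⌉₊ = ⌊Real.exp t + g p⌋₊ + 1 := by
    rw [Nat.ceil_eq_iff (Nat.succ_ne_zero _)]
    constructor
    · rw [Nat.succ_sub_one]
      refine lt_of_le_of_ne (Nat.floor_le hpos.le) fun h => ht ⟨_, h.symm⟩
    · push_cast
      exact (Nat.lt_floor_add_one _).le
  rw [h2, Nat.add_sub_cancel]

lemma cov {g y y' : ℝ} (hg : |g| < Real.exp y) (h : y ≤ y') (F : ℝ → ℝ) :
    ∫ u in Set.Ioc (Real.log (Real.exp y + g)) (Real.log (Real.exp y' + g)), F u =
      ∫ t in Set.Ioc y y', (Real.exp t / (Real.exp t + g)) * F (Real.log (Real.exp t + g)) := by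
  have hpos : ∀ t, y ≤ t → 0 < Real.exp t + g := by
    intro t ht
    have h1 := Real.exp_le_exp.2 ht
    have h2 := neg_abs_le g
    linarith
  have himg : (fun t => Real.log (Real.exp t + g)) '' Set.Ioc y y' =
      Set.Ioc (Real.log (Real.exp y + g)) (Real.log (Real.exp y' + g)) := by
    ext u
    constructor
    · rintro ⟨t, ⟨h1, h2⟩, rfl⟩
      exact ⟨Real.log_lt_log (hpos y le_rfl) (by have := Real.exp_lt_exp.2 h1; linarith),
        Real.log_le_log (hpos t h1.le) (by have := Real.exp_le_exp.2 h2; linarith)⟩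
    · rintro ⟨h1, h2⟩
      have k1 : Real.exp y + g < Real.exp u := (Real.log_lt_iff_lt_exp (hpos y le_rfl)).1 h1
      have k2 : Real.exp u ≤ Real.exp y' + g := (Real.le_log_iff_exp_le (hpos y' h)).1 h2
      have k3 : 0 < Real.exp u - g := by
        have := Real.exp_pos y
        linarith
      refine ⟨Real.log (Real.exp u - g), ⟨?_, ?_⟩, ?_⟩
      · rw [Real.lt_log_iff_exp_lt k3]; linarith
      · rw [Real.log_le_iff_le_exp k3]; linarith
      · simp only
        rw [Real.exp_log k3, sub_add_cancel, Real.log_exp]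
  rw [← himg, integral_image_eq_integral_abs_deriv_smul measurableSet_Ioc
    (f' := fun t => Real.exp t / (Real.exp t + g))]
  · refine setIntegral_congr_fun measurableSet_Ioc fun t ht => ?_
    simp only [smul_eq_mul]
    rw [abs_of_pos (div_pos (Real.exp_pos _) (hpos t ht.1.le))]
  · intro t ht
    exact (((Real.hasDerivAt_exp t).add_const g).log (hpos t ht.1.le).ne').hasDerivWithinAt
  · intro t ht s hs hts
    simp only at hts
    have h1 := Real.log_injOn_pos (hpos t ht.1.le) (hpos s hs.1.le) hts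
    exact Real.exp_injective (add_right_cancel h1)

lemma weight {g y t ε : ℝ} (hε1 : ε ≤ 1 / 4) (hg : |g| ≤ ε * Real.exp y) (ht : y ≤ t) :
    |Real.exp t / (Real.exp t + g) - 1| ≤ 2 * ε := by
  have hy := Real.exp_pos y
  have h0 : 0 ≤ ε := by
    by_contra h
    push Not at h
    have := mul_neg_of_neg_of_pos h hy
    linarith [abs_nonneg g]
  have ht' := Real.exp_le_exp.2 ht
  have h1 : |g| ≤ ε * Real.exp t := hg.trans (mul_le_mul_of_nonneg_left ht' h0)
  have h2 := neg_abs_le g
  have h3 : Real.exp t / 2 ≤ Real.exp t + g := by nlinarith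
  have h4 : 0 < Real.exp t + g := by linarith [Real.exp_pos t]
  have e : Real.exp t / (Real.exp t + g) - 1 = -g / (Real.exp t + g) := by
    field_simp; ring
  rw [e, abs_div, abs_neg, abs_of_pos h4, div_le_iff₀ h4]
  nlinarith

lemma shift {g y t ε : ℝ} (hε1 : ε ≤ 1 / 4) (hg : |g| ≤ ε * Real.exp y) (ht : y ≤ t) :
    |Real.log (Real.exp t + g) - t| ≤ 2 * ε := by
  have hy := Real.exp_pos y
  have h0 : 0 ≤ ε := by
    by_contra h
    push Not at h
    have := mul_neg_of_neg_of_pos h hy
    linarith [abs_nonneg g]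
  have ht' := Real.exp_le_exp.2 ht
  have h1 : |g| ≤ ε * Real.exp t := hg.trans (mul_le_mul_of_nonneg_left ht' h0)
  have h2 := abs_le.1 h1
  have ht0 := Real.exp_pos t
  have h4 : 0 < Real.exp t + g := by nlinarith
  rw [abs_le]
  constructor
  · have h5 : t - 2 * ε ≤ Real.log (Real.exp t + g) := by
      rw [Real.le_log_iff_exp_le h4]
      have h6 : Real.exp (t - 2 * ε) * (1 + 2 * ε) ≤ Real.exp t := by
        have h7 := Real.add_one_le_exp (2 * ε)
        calc Real.exp (t - 2 * ε) * (1 + 2 * ε) ≤ Real.exp (t - 2 * ε) * Real.exp (2 * ε) := by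
              gcongr
              linarith
          _ = Real.exp t := by rw [← Real.exp_add]; ring_nf
      have h8 : Real.exp (t - 2 * ε) ≤ Real.exp t * (1 - ε) := by
        have h9 : 0 < 1 + 2 * ε := by linarith
        have h10 : Real.exp t ≤ Real.exp t * (1 - ε) * (1 + 2 * ε) := by
          have : 1 ≤ (1 - ε) * (1 + 2 * ε) := by nlinarith
          nlinarith
        exact le_of_mul_le_mul_right (h6.trans h10) h9
      nlinarith
    linarith
  · have h5 : Real.log (Real.exp t + g) ≤ t + 2 * ε := by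
      rw [Real.log_le_iff_le_exp h4, Real.exp_add]
      have h7 := Real.add_one_le_exp (2 * ε)
      nlinarith
    linarith

/-- comparison of the perturbed and unperturbed integrals -/
lemma compare {g : ℕ → ℝ} {p : ℕ} {y y' ε : ℝ} (hε1 : ε ≤ 1 / 4)
    (hg : |g p| ≤ ε * Real.exp y) (h : y ≤ y') :
    |(∫ u in Set.Ioc (Real.log (Real.exp y + g p)) (Real.log (Real.exp y' + g p)), ff p u) -
      ∫ t in Set.Ioc y y', fl g p t| ≤ 2 * ε * ∫ t in Set.Ioc y y', fl g p t := by
  have hy := Real.exp_pos y
  have hg1 : |g p| < Real.exp y := by nlinarith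
  have hpos : ∀ t, y ≤ t → 0 < Real.exp t + g p := by
    intro t ht
    have h1 := Real.exp_le_exp.2 ht
    have h2 := neg_abs_le (g p)
    linarith
  rw [cov hg1 h]
  have e1 : ∫ t in Set.Ioc y y', (Real.exp t / (Real.exp t + g p)) *
      ff p (Real.log (Real.exp t + g p)) =
      ∫ t in Set.Ioc y y', (Real.exp t / (Real.exp t + g p)) * fl g p t := by
    refine setIntegral_congr_ae measurableSet_Ioc ?_
    filter_upwards [fl_ae g p] with t ht htI
    rw [ht (hpos t htI.1.le)]
  rw [e1]
  have hint := integrableOn_fl g p y y'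
  have hw : IntegrableOn (fun t => (Real.exp t / (Real.exp t + g p)) * fl g p t) (Set.Ioc y y') := by
    refine Measure.integrableOn_of_bounded (M := 2) (by simp) ?_ ?_
    · refine (Measurable.mul ?_ (measurable_fl g p)).aestronglyMeasurable
      exact Real.measurable_exp.div (Real.measurable_exp.add_const _)
    · refine ae_restrict_of_forall_mem measurableSet_Ioc fun t ht => ?_
      have h1 := weight hε1 hg ht.1.le
      have h2 := abs_le.1 h1
      have h3 := fl_nonneg g p t
      have h4 := fl_le_one g p t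
      have h5 : 0 < Real.exp t / (Real.exp t + g p) := div_pos (Real.exp_pos _) (hpos t ht.1.le)
      rw [Real.norm_eq_abs, abs_of_nonneg (mul_nonneg h5.le h3)]
      nlinarith
  rw [← integral_sub hw hint, ← integral_const_mul, ← Real.norm_eq_abs]
  refine norm_integral_le_of_norm_le (μ := volume.restrict (Set.Ioc y y'))
    (f := fun t => (Real.exp t / (Real.exp t + g p)) * fl g p t - fl g p t)
    (hint.const_mul (2 * ε)) ?_
  refine ae_restrict_of_forall_mem measurableSet_Ioc fun t ht => ?_
  have h1 := weight hε1 hg ht.1.le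
  have h3 := fl_nonneg g p t
  have e2 : (Real.exp t / (Real.exp t + g p)) * fl g p t - fl g p t =
      (Real.exp t / (Real.exp t + g p) - 1) * fl g p t := by ring
  rw [e2, Real.norm_eq_abs, abs_mul, abs_of_nonneg h3]
  exact mul_le_mul_of_nonneg_right h1 h3

end Pool.Agent.H447R2.ML
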