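import Mathlib
import Pool.Agent.H447R2.ML.Pert

set_option autoImplicit false

namespace Pool.Agent.H447R2.ML

open Filter Topology MeasureTheory
open Pool.Agent.H305R2 (roughPart NN ff measurable_ff ff_nonneg ff_le_one integrableOn_ff
  window_asymp window_short)

lemma hdecay (k : ℕ) (b e : ℝ) (hb : 0 < b) (he : 0 < e) :
    ∀ᶠ p : ℕ in atTop, (p : ℝ) ^ k * Real.exp (-(b * p)) < e := by
  have hcast := tendsto_natCast_atTop_atTop (R := ℝ)
  have h1 := (Real.tendsto_pow_mul_exp_neg_atTop_nhds_zero k).comp (hcast.const_mul_atTop hb)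
  have h2 := h1.const_mul ((b ^ k)⁻¹)
  rw [mul_zero] at h2
  filter_upwards [h2.eventually_lt_const he] with p hp
  refine lt_of_le_of_lt (le_of_eq ?_) hp
  simp only [Function.comp]
  rw [mul_pow]
  field_simp

lemma FF_lip (p : ℕ) (u v : ℝ) :
    |Pool.Agent.H305R2.FF p u - Pool.Agent.H305R2.FF p v| ≤ |u - v| := by
  rcases le_total v u with h | h
  · have h1 := Pool.Agent.H305R2.FF_mono p h
    have h2 := Pool.Agent.H305R2.FF_sub_le p h
    rw [abs_of_nonneg (by linarith), abs_of_nonneg (by linarith)]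
    exact h2
  · have h1 := Pool.Agent.H305R2.FF_mono p h
    have h2 := Pool.Agent.H305R2.FF_sub_le p h
    rw [abs_of_nonpos (by linarith), abs_of_nonpos (by linarith)]
    linarith

lemma eps_bound {g : ℕ → ℝ} {κ C c : ℝ} (hC : 0 < C)
    (hg : ∀ p : ℕ, |g p| ≤ C * Real.exp (κ * p)) {p : ℕ} {y : ℝ} (hy : c * p ≤ y) :
    |g p| ≤ C * Real.exp (-((c - κ) * p)) * Real.exp y := by
  calc |g p| ≤ C * Real.exp (κ * p) := hg p
    _ = C * Real.exp (-((c - κ) * p)) * Real.exp (c * p) := by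
        rw [mul_assoc, ← Real.exp_add]
        congr 2
        ring
    _ ≤ C * Real.exp (-((c - κ) * p)) * Real.exp y := by
        gcongr

lemma short_fl {g : ℕ → ℝ} {κ C : ℝ} (hκ : 0 ≤ κ) (hC : 0 < C)
    (hg : ∀ p : ℕ, |g p| ≤ C * Real.exp (κ * p)) (c : ℝ) (hc : κ < c) :
    ∃ K : ℝ, 0 < K ∧ ∀ᶠ p : ℕ in atTop, ∀ y : ℝ, c * p ≤ y →
    ∀ h : ℝ, 1 / p ≤ h → h ≤ 1 → ∫ t in Set.Ioc y (y + h), fl g p t ≤ K * h * (Real.log p / p) := by
  have hc0 : 0 < c := by linarith
  have hδ : 0 < c - κ := by linarith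
  obtain ⟨K, hK, hev⟩ := window_short (c := c / 2) (c' := 1) (by positivity) one_pos
  refine ⟨6 * K, by positivity, ?_⟩
  obtain ⟨P, hP⟩ := exists_nat_gt (2 / c)
  filter_upwards [hev, hdecay 0 (c - κ) (1 / (4 * C)) hδ (by positivity),
    hdecay 1 (c - κ) (1 / (2 * C)) hδ (by positivity), eventually_ge_atTop (max 1 P)]
    with p hp hd0 hd1 hp1 y hy h hh hh1
  have hp1' : (1 : ℝ) ≤ p := by exact_mod_cast (le_max_left 1 P).trans hp1
  have hp0 : (0 : ℝ) < p := by linarith
  have hpP : 2 / c < p := lt_of_lt_of_le hP (by exact_mod_cast (le_max_right 1 P).trans hp1)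
  rw [div_lt_iff₀ hc0] at hpP
  have hh0 : 0 < h := lt_of_lt_of_le (by positivity) hh
  set ε := C * Real.exp (-((c - κ) * p)) with hεd
  have hε0 : 0 < ε := by positivity
  have hε1 : ε ≤ 1 / 4 := by
    rw [pow_zero, one_mul, lt_div_iff₀ (by positivity)] at hd0
    rw [hεd]
    linarith
  have hε2 : 2 * ε ≤ 1 / p := by
    rw [pow_one, lt_div_iff₀ (by positivity)] at hd1
    rw [le_div_iff₀ hp0, hεd]
    linarith
  have hgy : |g p| ≤ ε * Real.exp y := eps_bound hC hg hy
  have hyy : y ≤ y + h := by linarith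
  have hcmp := compare hε1 hgy hyy
  have hs1 := abs_le.1 (shift hε1 hgy le_rfl)
  have hs2 := abs_le.1 (shift hε1 hgy hyy)
  have h2ε : 2 * ε ≤ h := hε2.trans hh
  have hw1 := hp (y - h) (by nlinarith) h hh hh1
  have hw2 := hp y (by nlinarith) h hh hh1
  have hw3 := hp (y + h) (by nlinarith) h hh hh1
  rw [show y - h + h = y by ring] at hw1
  rw [show y + h + h = y + 2 * h by ring] at hw3
  have hsub : ∫ u in Set.Ioc (Real.log (Real.exp y + g p)) (Real.log (Real.exp (y + h) + g p)), ff p u ≤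
      ∫ u in Set.Ioc (y - h) (y + 2 * h), ff p u := by
    refine setIntegral_mono_set (Pool.Agent.H305R2.integrableOn_ff p _ _) (Eventually.of_forall fun t => ff_nonneg p t) ?_
    exact (Set.Ioc_subset_Ioc (by linarith) (by linarith)).eventuallyLE
  have hsplit : ∫ u in Set.Ioc (y - h) (y + 2 * h), ff p u =
      (∫ u in Set.Ioc (y - h) y, ff p u) + (∫ u in Set.Ioc y (y + h), ff p u) +
        ∫ u in Set.Ioc (y + h) (y + 2 * h), ff p u := by
    rw [← Pool.Agent.H305R2.FF_sub p (show y - h ≤ y + 2 * h by linarith),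
      ← Pool.Agent.H305R2.FF_sub p (show y - h ≤ y by linarith),
      ← Pool.Agent.H305R2.FF_sub p hyy, ← Pool.Agent.H305R2.FF_sub p (show y + h ≤ y + 2 * h by linarith)]
    ring
  have hA0 : 0 ≤ ∫ t in Set.Ioc y (y + h), fl g p t :=
    setIntegral_nonneg measurableSet_Ioc fun t _ => fl_nonneg g p t
  have h3 := (abs_le.1 hcmp).1
  have h4 : (1 / 2) * ∫ t in Set.Ioc y (y + h), fl g p t ≤
      ∫ u in Set.Ioc (Real.log (Real.exp y + g p)) (Real.log (Real.exp (y + h) + g p)), ff p u := by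
    nlinarith
  have h5 : 6 * K * h * (Real.log p / p) = 2 * (3 * (K * h * (Real.log p / p))) := by ring
  rw [h5]
  linarith

lemma asymp_fl {g : ℕ → ℝ} {κ C : ℝ} (hκ : 0 ≤ κ) (hC : 0 < C)
    (hg : ∀ p : ℕ, |g p| ≤ C * Real.exp (κ * p)) (a : ℝ) (ha : κ < a) (y : ℕ → ℝ)
    (hy : Tendsto (fun p : ℕ => y p / p) atTop (𝓝 a)) :
    Tendsto (fun p : ℕ => (∫ t in Set.Ioc (y p) (y p + 1), fl g p t) * (p / Real.log p)) atTop
      (𝓝 (Real.exp Real.eulerMascheroniConstant / a)) := by
  have ha0 : 0 < a := by linarith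
  set c := (κ + a) / 2 with hc
  have hκc : κ < c := by rw [hc]; linarith
  have hca : c < a := by rw [hc]; linarith
  have hδ : 0 < c - κ := by linarith
  have hcy : ∀ᶠ p : ℕ in atTop, c * p ≤ y p := by
    filter_upwards [hy.eventually_const_lt hca, eventually_ge_atTop 1] with p hp hp1
    have hp0 : (0 : ℝ) < p := by exact_mod_cast hp1
    rw [lt_div_iff₀ hp0] at hp
    exact hp.le
  set y' : ℕ → ℝ := fun p => Real.log (Real.exp (y p) + g p) with hy'd
  have hbasic : ∀ᶠ p : ℕ in atTop, 1 ≤ p ∧ 0 < C * Real.exp (-((c - κ) * p)) ∧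
      C * Real.exp (-((c - κ) * p)) ≤ 1 / 4 ∧ |y' p - y p| ≤ 2 * (C * Real.exp (-((c - κ) * p))) ∧
      |(∫ t in Set.Ioc (y p) (y p + 1), fl g p t) - ∫ t in Set.Ioc (y' p) (y' p + 1), ff p t| ≤
        6 * (C * Real.exp (-((c - κ) * p))) := by
    filter_upwards [hcy, hdecay 0 (c - κ) (1 / (4 * C)) hδ (by positivity),
      eventually_ge_atTop 1] with p hp hd0 hp1
    set ε := C * Real.exp (-((c - κ) * p)) with hεd
    have hε0 : 0 < ε := by positivity
    have hε1 : ε ≤ 1 / 4 := by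
      rw [pow_zero, one_mul, lt_div_iff₀ (by positivity)] at hd0
      rw [hεd]
      linarith
    have hgy : |g p| ≤ ε * Real.exp (y p) := eps_bound hC hg hp
    have hyy : y p ≤ y p + 1 := by linarith
    have hcmp := compare hε1 hgy hyy
    have hs1 := shift hε1 hgy le_rfl
    have hs2 := shift hε1 hgy hyy
    refine ⟨hp1, hε0, hε1, hs1, ?_⟩
    have hA1 : ∫ t in Set.Ioc (y p) (y p + 1), fl g p t ≤ 1 := by
      calc ∫ t in Set.Ioc (y p) (y p + 1), fl g p t ≤ ∫ t in Set.Ioc (y p) (y p + 1), (1 : ℝ) :=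
            setIntegral_mono_on (integrableOn_fl g p _ _) (integrableOn_const (by simp))
              measurableSet_Ioc fun t _ => fl_le_one g p t
        _ = 1 := by
            rw [setIntegral_const, smul_eq_mul, mul_one, Real.volume_real_Ioc_of_le hyy]
            ring
    have hmono : Real.log (Real.exp (y p) + g p) ≤ Real.log (Real.exp (y p + 1) + g p) := by
      have h1 := (abs_le.1 hgy).1
      have h2 := Real.exp_pos (y p)
      have h3 : Real.exp (y p) ≤ Real.exp (y p + 1) := Real.exp_le_exp.2 hyy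
      exact Real.log_le_log (by nlinarith) (by linarith)
    have hB : (∫ u in Set.Ioc (Real.log (Real.exp (y p) + g p)) (Real.log (Real.exp (y p + 1) + g p)), ff p u) -
        ∫ t in Set.Ioc (y' p) (y' p + 1), ff p t =
        Pool.Agent.H305R2.FF p (Real.log (Real.exp (y p + 1) + g p)) -
          Pool.Agent.H305R2.FF p (y' p + 1) := by
      rw [← Pool.Agent.H305R2.FF_sub p hmono, ← Pool.Agent.H305R2.FF_sub p (show y' p ≤ y' p + 1 by linarith)]
      ring
    have hB2 := FF_lip p (Real.log (Real.exp (y p + 1) + g p)) (y' p + 1)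
    rw [← hB] at hB2
    have hB3 : |Real.log (Real.exp (y p + 1) + g p) - (y' p + 1)| ≤ 4 * ε := by
      have e : Real.log (Real.exp (y p + 1) + g p) - (y' p + 1) =
          (Real.log (Real.exp (y p + 1) + g p) - (y p + 1)) - (y' p - y p) := by ring
      rw [e]
      refine (abs_sub _ _).trans ?_
      have : |y' p - y p| ≤ 2 * ε := hs1
      linarith
    have h5 := hB2.trans hB3
    have hA0 : 0 ≤ ∫ t in Set.Ioc (y p) (y p + 1), fl g p t :=
      setIntegral_nonneg measurableSet_Ioc fun t _ => fl_nonneg g p t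
    have h6 : 2 * ε * ∫ t in Set.Ioc (y p) (y p + 1), fl g p t ≤ 2 * ε := by nlinarith
    have h7 := abs_le.1 (hcmp.trans h6)
    have h8 := abs_le.1 h5
    rw [abs_le]
    constructor <;> linarith
  have hy' : Tendsto (fun p : ℕ => y' p / p) atTop (𝓝 a) := by
    have h1 : Tendsto (fun p : ℕ => (y' p - y p) / p) atTop (𝓝 0) := by
      refine squeeze_zero_norm' ?_ (tendsto_one_div_atTop_nhds_zero_nat (𝕜 := ℝ))
      filter_upwards [hbasic] with p hp
      obtain ⟨hp1, -, h2, h3, -⟩ := hp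
      have hp0 : (0 : ℝ) < p := by exact_mod_cast hp1
      rw [Real.norm_eq_abs, abs_div, abs_of_pos hp0]
      gcongr
      linarith
    have h2 := h1.add hy
    rw [zero_add] at h2
    refine h2.congr fun p => ?_
    ring
  have hmain := window_asymp ha0 hy'
  have hdiff : Tendsto (fun p : ℕ => ((∫ t in Set.Ioc (y p) (y p + 1), fl g p t) -
      ∫ t in Set.Ioc (y' p) (y' p + 1), ff p t) * (p / Real.log p)) atTop (𝓝 0) := by
    have h0 : Tendsto (fun p : ℕ => 6 * C * ((p : ℝ) ^ 1 * Real.exp (-((c - κ) * p)))) atTop (𝓝 0) := by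
      have hcast := tendsto_natCast_atTop_atTop (R := ℝ)
      have h1 := (Real.tendsto_pow_mul_exp_neg_atTop_nhds_zero 1).comp (hcast.const_mul_atTop hδ)
      have h2 := h1.const_mul (6 * C * (c - κ)⁻¹)
      rw [mul_zero] at h2
      refine h2.congr fun p => ?_
      simp only [Function.comp]
      field_simp
    refine squeeze_zero_norm' ?_ h0
    filter_upwards [hbasic, eventually_ge_atTop 3] with p hp hp3
    obtain ⟨-, h1, -, -, h4⟩ := hp
    have hp3' : (3 : ℝ) ≤ p := by exact_mod_cast hp3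
    have hp0 : (0 : ℝ) < p := by linarith
    have hlog : 1 ≤ Real.log p := by
      rw [Real.le_log_iff_exp_le hp0]
      have := Real.exp_one_lt_d9
      linarith
    rw [Real.norm_eq_abs, abs_mul, abs_of_nonneg (show (0 : ℝ) ≤ p / Real.log p by positivity)]
    calc _ ≤ 6 * (C * Real.exp (-((c - κ) * p))) * (p / 1) := by
          gcongr
      _ = _ := by ring
  have h := hdiff.add hmain
  rw [zero_add] at h
  refine h.congr fun p => ?_
  ring

theorem good_fl {g : ℕ → ℝ} {κ C : ℝ} (hκ : 0 ≤ κ) (hC : 0 < C)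
    (hg : ∀ p : ℕ, |g p| ≤ C * Real.exp (κ * p)) : Good (fl g) κ where
  kappa := hκ
  meas := measurable_fl g
  nonneg := fl_nonneg g
  le_one := fl_le_one g
  short := short_fl hκ hC hg
  asymp := asymp_fl hκ hC hg

end Pool.Agent.H447R2.ML
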