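import Mathlib
import Pool.Agent.H447R2.ML.Pert2

set_option autoImplicit false

namespace Pool.Agent.H447R2.ML

open Filter Topology MeasureTheory
open Pool.Agent.H305R2 (roughPart)

/-- number of primes `p ≤ n` for which the `p`-rough part of `⌊β α ^ p + g p⌋` is prime -/
noncomputable def cnt (g : ℕ → ℝ) (α β : ℝ) (n : ℕ) : ℕ :=
  ((Finset.range (n + 1)).filter
    (fun p => p.Prime ∧ (roughPart p ⌊β * α ^ p + g p⌋₊).Prime)).card

lemma cnt_eq_CC (g : ℕ → ℝ) {α β : ℝ} (hα : 0 < α) (hβ : 0 < β) (n : ℕ) :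
    (cnt g α β n : ℝ) = CC (fl g) (Real.log α) (Real.log β) n := by
  unfold cnt CC
  have e : ∀ p : ℕ, fl g p (Real.log α * p + Real.log β) =
      if (roughPart p ⌊β * α ^ p + g p⌋₊).Prime then 1 else 0 := by
    intro p
    unfold fl
    have : Real.exp (Real.log α * p + Real.log β) = β * α ^ p := by
      rw [Real.exp_add, Real.exp_log hβ, mul_comm (Real.log α), Real.exp_nat_mul, Real.exp_log hα,
        mul_comm]
    rw [this]
  simp only [e]
  rw [← Finset.sum_filter, Finset.sum_const, nsmul_eq_mul, mul_one, Finset.filter_filter]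
  congr 2
  ext p
  simp only [Finset.mem_filter, Finset.mem_range, Finset.mem_Icc]
  constructor
  · rintro ⟨h1, h2, h3⟩
    exact ⟨⟨h2.one_lt.le, by omega⟩, h2, h3⟩
  · rintro ⟨h1, h2, h3⟩
    exact ⟨by omega, h2, h3⟩

/-- the coordinate change from logarithmic coordinates -/
lemma ae_exp {P : ℝ × ℝ → Prop} (h : ∀ᵐ z : ℝ × ℝ, P (Real.exp z.1, Real.exp z.2)) :
    ∀ᵐ z : ℝ × ℝ, 0 < z.1 → 0 < z.2 → P z := by
  rw [ae_iff] at h ⊢
  set B : Set (ℝ × ℝ) := {z : ℝ × ℝ | ¬ P (Real.exp z.1, Real.exp z.2)} with hB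
  let Φ : ℝ × ℝ → ℝ × ℝ := fun z => (Real.exp z.1, Real.exp z.2)
  have hΦ : Differentiable ℝ Φ := by
    refine Differentiable.prodMk ?_ ?_
    · exact Real.differentiable_exp.comp differentiable_fst
    · exact Real.differentiable_exp.comp differentiable_snd
  have h1 : volume (Φ '' B) = 0 :=
    addHaar_image_eq_zero_of_differentiableOn_of_addHaar_eq_zero volume hΦ.differentiableOn h
  refine measure_mono_null ?_ h1
  intro z hz
  simp only [Set.mem_ofPred_eq, Classical.not_imp] at hz
  obtain ⟨hz1, hz2, hz3⟩ := hz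
  refine ⟨(Real.log z.1, Real.log z.2), ?_, ?_⟩
  · simp only [hB, Set.mem_ofPred_eq]
    rw [Real.exp_log hz1, Real.exp_log hz2]
    exact hz3
  · simp only [Φ]
    rw [Real.exp_log hz1, Real.exp_log hz2]

/-- **The almost everywhere law with perturbation.** -/
theorem law {g : ℕ → ℝ} {κ C : ℝ} (hκ : 1 ≤ κ) (hg : ∀ p : ℕ, |g p| ≤ C * κ ^ p) :
    ∀ᵐ z : ℝ × ℝ, κ < z.1 → 0 < z.2 →
      Tendsto (fun n : ℕ => (cnt g z.1 z.2 n : ℝ) / Real.log (n : ℝ)) atTop
        (𝓝 (Real.exp Real.eulerMascheroniConstant / Real.log z.1)) := by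
  have hκ0 : 0 < κ := by linarith
  have hg' : ∀ p : ℕ, |g p| ≤ (|C| + 1) * Real.exp (Real.log κ * p) := by
    intro p
    have e : Real.exp (Real.log κ * p) = κ ^ p := by
      rw [mul_comm, Real.exp_nat_mul, Real.exp_log hκ0]
    rw [e]
    refine (hg p).trans ?_
    have := le_abs_self C
    gcongr
    linarith
  have hgood := good_fl (Real.log_nonneg hκ) (by positivity : (0 : ℝ) < |C| + 1) hg'
  have h := ae_law_log hgood
  have h2 := ae_exp (P := fun z => κ < z.1 → Tendsto (fun n : ℕ => (cnt g z.1 z.2 n : ℝ) /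
    Real.log (n : ℝ)) atTop (𝓝 (Real.exp Real.eulerMascheroniConstant / Real.log z.1))) (by
      filter_upwards [h] with z hz hz1
      rw [Real.log_exp]
      have h3 : Real.log κ < z.1 := by
        rw [Real.log_lt_iff_lt_exp hκ0]; exact hz1
      refine (hz h3).congr fun n => ?_
      rw [cnt_eq_CC g (Real.exp_pos _) (Real.exp_pos _), Real.log_exp, Real.log_exp])
  filter_upwards [h2] with z hz hz1 hz2
  exact hz (hκ0.trans hz1) hz2 hz1

/-- the rough part of a number all of whose prime factors exceed `p` is the number itself -/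
lemma roughPart_eq_self {p m : ℕ} (hm : m ≠ 0) (h : ∀ q : ℕ, q.Prime → q ∣ m → p < q) :
    roughPart p m = m := by
  unfold roughPart
  have h2 : m.primeFactorsList.filter (fun r => p < r) = m.primeFactorsList := by
    rw [List.filter_eq_self]
    intro r hr
    exact decide_eq_true (h r (Nat.prime_of_mem_primeFactorsList hr)
      (Nat.dvd_of_mem_primeFactorsList hr))
  rw [h2]
  exact Nat.prod_primeFactorsList hm

end Pool.Agent.H447R2.ML
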