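import Mathlib
import Pool.Agent.H447R2.ML.Law

set_option autoImplicit false

/-!
# Two simultaneous rough parts: the Borel-Cantelli side
-/

namespace Pool.Agent.H447R2.ML

open Filter Topology MeasureTheory
open Pool.Agent.H305R2 (roughPart)

/-- one-dimensional section -/
def TT (g : ℕ → ℝ) (x : ℝ) (n : ℕ) : Set ℝ := {b | fl g n (x * n + b) = 1}

lemma measurableSet_TT (g : ℕ → ℝ) (x : ℝ) (n : ℕ) : MeasurableSet (TT g x n) :=
  ((measurable_fl g n).comp (measurable_const_add (x * n))) (measurableSet_singleton 1)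

lemma volume_TT (g : ℕ → ℝ) (x : ℝ) (n L : ℕ) :
    volume (TT g x n ∩ Set.Ioc (-(L : ℝ)) L) ≤
      ENNReal.ofReal (∫ t in Set.Ioc (x * n - L) (x * n + L), fl g n t) := by
  have hL : -(L : ℝ) ≤ L := by
    have : (0 : ℝ) ≤ L := Nat.cast_nonneg L
    linarith
  have h1 : ∫ t in Set.Ioc (x * n - L) (x * n + L), fl g n t =
      ∫ b in Set.Ioc (-(L : ℝ)) L, fl g n (x * n + b) := by
    rw [← intervalIntegral.integral_of_le (by linarith), ← intervalIntegral.integral_of_le hL,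
      intervalIntegral.integral_comp_add_left (fun t => fl g n t) (x * n)]
    rfl
  have hint : IntegrableOn (fun b => fl g n (x * n + b)) (Set.Ioc (-(L : ℝ)) L) := by
    refine Measure.integrableOn_of_bounded (M := 1) (by simp)
      ((measurable_fl g n).comp (measurable_const_add (x * n))).aestronglyMeasurable ?_
    exact Eventually.of_forall fun t => by
      rw [Real.norm_eq_abs, abs_of_nonneg (fl_nonneg g n _)]; exact fl_le_one g n _
  rw [h1, ofReal_integral_eq_lintegral_ofReal hint (Eventually.of_forall fun b => fl_nonneg g n _)]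
  rw [← Measure.restrict_apply (measurableSet_TT g x n), ← lintegral_indicator_one (measurableSet_TT g x n)]
  refine lintegral_mono fun b => ?_
  by_cases hb : b ∈ TT g x n
  · rw [Set.indicator_of_mem hb]
    have : fl g n (x * n + b) = 1 := hb
    rw [this]
    simp
  · rw [Set.indicator_of_notMem hb]
    exact zero_le

lemma summable_sq (K : ℝ) : Summable fun n : ℕ => (K * (Real.log n / n)) ^ 2 := by
  have h1 : Summable fun n : ℕ => ((n : ℝ) ^ ((3 : ℝ) / 2))⁻¹ :=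
    Real.summable_nat_rpow_inv.2 (by norm_num)
  have h2 := (isLittleO_log_rpow_atTop (show (0 : ℝ) < 1 / 4 by norm_num)).comp_tendsto
    tendsto_natCast_atTop_atTop
  refine summable_of_isBigO_nat h1 ?_
  have h3 : (fun n : ℕ => (K * (Real.log n / n)) ^ 2) =O[atTop]
      fun n : ℕ => (((n : ℝ) ^ ((1 : ℝ) / 4)) / n) ^ 2 := by
    refine (Asymptotics.IsBigO.const_mul_left ?_ K).pow 2
    exact (h2.isBigO).mul (Asymptotics.isBigO_refl (fun n : ℕ => ((n : ℝ))⁻¹) atTop)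
  refine h3.trans (Asymptotics.IsBigO.of_bound 1 ?_)
  filter_upwards [eventually_gt_atTop 0] with n hn
  have hn' : (0 : ℝ) < n := by exact_mod_cast hn
  rw [one_mul]
  refine le_of_eq ?_
  congr 1
  rw [div_pow, ← Real.rpow_natCast ((n : ℝ) ^ ((1 : ℝ) / 4)) 2, ← Real.rpow_mul hn'.le,
    ← Real.rpow_neg hn'.le, ← Real.rpow_natCast (n : ℝ) 2, ← Real.rpow_sub hn']
  norm_num

lemma good_of_le {κ : ℝ} (hκ : 1 ≤ κ) (h : ℕ → ℝ) (D : ℝ) (hh : ∀ p : ℕ, |h p| ≤ D * κ ^ p) :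
    Good (fl h) (Real.log κ) := by
  have hκ0 : 0 < κ := by linarith
  refine good_fl (Real.log_nonneg hκ) (by positivity : (0 : ℝ) < |D| + 1) fun p => ?_
  have e : Real.exp (Real.log κ * p) = κ ^ p := by
    rw [mul_comm, Real.exp_nat_mul, Real.exp_log hκ0]
  rw [e]
  refine (hh p).trans ?_
  have := le_abs_self D
  gcongr
  linarith

lemma aux_le {K1 K2 A B l : ℝ} (h1 : 0 < K1) (h2 : 0 < K2) (hA : 0 ≤ A) (hAB : A ≤ B)
    (hl : 0 ≤ l) : K1 * A * l ≤ (K1 + K2) * B * l := by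
  refine mul_le_mul_of_nonneg_right ?_ hl
  exact mul_le_mul (by linarith) hAB hA (by linarith)

lemma tail_bound {g g' : ℕ → ℝ} {κ C C' : ℝ} (hκ : 1 ≤ κ) (hg : ∀ p : ℕ, |g p| ≤ C * κ ^ p)
    (hg' : ∀ p : ℕ, |g' p| ≤ C' * κ ^ p) {x : ℝ} (hx0 : Real.log κ < x) (L : ℕ) :
    ∃ K : ℝ, 0 ≤ K ∧ ∀ᶠ n : ℕ in atTop,
      volume ((TT g x n ×ˢ TT g' x n) ∩ (Set.Ioc (-(L : ℝ)) L ×ˢ Set.Ioc (-(L : ℝ)) L)) ≤
        ENNReal.ofReal ((K * (Real.log n / n)) ^ 2) := by
  set c : ℝ := (Real.log κ + x) / 2 with hc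
  have hc1 : Real.log κ < c := by rw [hc]; linarith
  have hc2 : c < x := by rw [hc]; linarith
  obtain ⟨K1, hK1, hb1⟩ := bounds (good_of_le hκ g C hg) hc1
  obtain ⟨K2, hK2, hb2⟩ := bounds (good_of_le hκ g' C' hg') hc1
  have hLL : (0 : ℝ) ≤ L := Nat.cast_nonneg L
  refine ⟨(K1 + K2) * (2 * L + 1), by positivity, ?_⟩
  have hcn : ∀ᶠ n : ℕ in atTop, c * n + 1 ≤ x * n - L := by
    have h1 : Tendsto (fun n : ℕ => (x - c) * (n : ℝ)) atTop atTop :=
      tendsto_natCast_atTop_atTop.const_mul_atTop (by linarith)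
    filter_upwards [h1.eventually_ge_atTop ((L : ℝ) + 1)] with n hn
    linarith
  filter_upwards [hb1, hb2, hcn, eventually_gt_atTop 0] with n h1 h2 h3 h4
  have hn' : (1 : ℝ) ≤ n := by exact_mod_cast h4
  have hlog : 0 ≤ Real.log n / n := div_nonneg (Real.log_nonneg hn') (by linarith)
  have b1 := h1.2.1 (x * n - L) (x * n + L) h3 (by linarith)
  have b2 := h2.2.1 (x * n - L) (x * n + L) h3 (by linarith)
  have h1n : 0 ≤ 1 / (n : ℝ) := by positivity
  have e1 : x * n + L - (x * n - L) + 1 / (n : ℝ) ≤ 2 * L + 1 := by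
    have : 1 / (n : ℝ) ≤ 1 := by rw [div_le_one (by linarith)]; exact hn'
    linarith
  have e0 : 0 ≤ x * n + L - (x * n - L) + 1 / (n : ℝ) := by linarith
  have b1' : ∫ t in Set.Ioc (x * n - L) (x * n + L), fl g n t ≤
      (K1 + K2) * (2 * L + 1) * (Real.log n / n) := b1.trans (aux_le hK1 hK2 e0 e1 hlog)
  have b2' : ∫ t in Set.Ioc (x * n - L) (x * n + L), fl g' n t ≤
      (K1 + K2) * (2 * L + 1) * (Real.log n / n) := by
    refine b2.trans ?_
    rw [add_comm K1 K2]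
    exact aux_le hK2 hK1 e0 e1 hlog
  have hnn : 0 ≤ (K1 + K2) * (2 * L + 1) * (Real.log n / n) := by positivity
  rw [Set.prod_inter_prod, Measure.volume_eq_prod, Measure.prod_prod, ENNReal.ofReal_pow hnn, sq]
  exact mul_le_mul' ((volume_TT g x n L).trans (ENNReal.ofReal_le_ofReal b1'))
    ((volume_TT g' x n L).trans (ENNReal.ofReal_le_ofReal b2'))

lemma box_finite {g g' : ℕ → ℝ} {κ C C' : ℝ} (hκ : 1 ≤ κ) (hg : ∀ p : ℕ, |g p| ≤ C * κ ^ p)
    (hg' : ∀ p : ℕ, |g' p| ≤ C' * κ ^ p) {x : ℝ} (hx0 : Real.log κ < x) (L : ℕ) :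
    ∀ᵐ z : ℝ × ℝ, z ∈ Set.Ioc (-(L : ℝ)) L ×ˢ Set.Ioc (-(L : ℝ)) L →
      ∀ᶠ n : ℕ in atTop, z ∉ TT g x n ×ˢ TT g' x n := by
  set I : Set ℝ := Set.Ioc (-(L : ℝ)) L with hI
  have hIm : MeasurableSet (I ×ˢ I) := measurableSet_Ioc.prod measurableSet_Ioc
  obtain ⟨K, hK, hev⟩ := tail_bound hκ hg hg' hx0 L
  obtain ⟨n0, hn0⟩ := eventually_atTop.1 hev
  rw [← ae_restrict_iff' hIm]
  have hBC : ∀ᵐ z ∂(volume.restrict (I ×ˢ I)), ∀ᶠ n : ℕ in atTop,
      z ∉ (fun n : ℕ => TT g x (n + n0) ×ˢ TT g' x (n + n0)) n := by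
    refine ae_eventually_notMem ?_
    have hs := (summable_sq K).comp_injective (add_left_injective n0)
    refine ne_top_of_le_ne_top hs.tsum_ofReal_ne_top (ENNReal.tsum_le_tsum fun n => ?_)
    rw [Measure.restrict_apply ((measurableSet_TT g x _).prod (measurableSet_TT g' x _))]
    exact hn0 (n + n0) (by omega)
  filter_upwards [hBC] with z hz
  obtain ⟨n1, hn1⟩ := eventually_atTop.1 hz
  refine eventually_atTop.2 ⟨n1 + n0, fun n hn => ?_⟩
  have := hn1 (n - n0) (by omega)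
  rwa [Nat.sub_add_cancel (by omega)] at this

lemma fl_of_prime {g : ℕ → ℝ} {α : ℝ} (hα0 : 0 < α) {n : ℕ} {b : ℝ}
    (h : (roughPart n ⌊Real.exp b * α ^ n + g n⌋₊).Prime) :
    b ∈ TT g (Real.log α) n := by
  have e : Real.exp b * α ^ n = Real.exp (Real.log α * n + b) := by
    rw [Real.exp_add, mul_comm (Real.log α), Real.exp_nat_mul, Real.exp_log hα0, mul_comm]
  rw [e] at h
  have h2 : fl g n (Real.log α * n + b) = 1 := by
    unfold fl
    rw [if_pos h]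
  exact h2

/-- For a fixed base, at almost every pair of amplitudes only finitely many indices give two
prime rough parts. -/
theorem both_finite {g g' : ℕ → ℝ} {κ C C' : ℝ} (hκ : 1 ≤ κ) (hg : ∀ p : ℕ, |g p| ≤ C * κ ^ p)
    (hg' : ∀ p : ℕ, |g' p| ≤ C' * κ ^ p) {α : ℝ} (hα : κ < α) :
    ∀ᵐ z : ℝ × ℝ, 0 < z.1 → 0 < z.2 → {n : ℕ | (roughPart n ⌊z.1 * α ^ n + g n⌋₊).Prime ∧
      (roughPart n ⌊z.2 * α ^ n + g' n⌋₊).Prime}.Finite := by
  have hκ0 : 0 < κ := by linarith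
  have hα0 : 0 < α := by linarith
  have hx0 : Real.log κ < Real.log α := Real.log_lt_log hκ0 hα
  have main := fun L : ℕ => box_finite hκ hg hg' hx0 L
  have main2 : ∀ᵐ z : ℝ × ℝ,
      {n : ℕ | z.1 ∈ TT g (Real.log α) n ∧ z.2 ∈ TT g' (Real.log α) n}.Finite := by
    rw [← ae_all_iff] at main
    filter_upwards [main] with z hz
    obtain ⟨L, hL⟩ := exists_nat_gt (max |z.1| |z.2|)
    have h1 := lt_of_le_of_lt (le_max_left _ _) hL
    have h2 := lt_of_le_of_lt (le_max_right _ _) hL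
    rw [abs_lt] at h1 h2
    have h3 := hz L ⟨⟨h1.1, h1.2.le⟩, ⟨h2.1, h2.2.le⟩⟩
    obtain ⟨n1, hn1⟩ := eventually_atTop.1 h3
    refine (Set.finite_lt_nat n1).subset fun n hn => ?_
    by_contra hlt
    exact hn1 n (by simpa using hlt) hn
  refine ae_exp (P := fun z => {n : ℕ | (roughPart n ⌊z.1 * α ^ n + g n⌋₊).Prime ∧
      (roughPart n ⌊z.2 * α ^ n + g' n⌋₊).Prime}.Finite) ?_
  filter_upwards [main2] with z hz
  exact hz.subset fun n hn => ⟨fl_of_prime hα0 hn.1, fl_of_prime hα0 hn.2⟩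

end Pool.Agent.H447R2.ML
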