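import Mathlib

set_option autoImplicit false

/-!
# Prime divisors of the terms of prime index of a Lucas sequence

`U P n`, `V P n` are the Lucas sequences with parameters `(P, -1)`.
-/

namespace Pool.Agent.H447R2.ML

/-- the Lucas sequence with parameters `(P, -1)` -/
def U (P : ℕ) : ℕ → ℕ
  | 0 => 0
  | 1 => 1
  | (n + 2) => P * U P (n + 1) + U P n

/-- the companion Lucas sequence with parameters `(P, -1)` -/
def V (P : ℕ) : ℕ → ℕ
  | 0 => 2
  | 1 => P
  | (n + 2) => P * V P (n + 1) + V P n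

lemma U_add_two (P n : ℕ) : U P (n + 2) = P * U P (n + 1) + U P n := rfl

lemma V_add_two (P n : ℕ) : V P (n + 2) = P * V P (n + 1) + V P n := rfl

lemma U_zero (P : ℕ) : U P 0 = 0 := rfl

lemma U_one (P : ℕ) : U P 1 = 1 := rfl

lemma U_two (P : ℕ) : U P 2 = P := by
  rw [U_add_two, U_one, U_zero]; ring

lemma V_eq (P : ℕ) : ∀ n : ℕ, V P (n + 1) = U P (n + 2) + U P n
  | 0 => by rw [U_two, U_zero]; rfl
  | 1 => by
      show V P 2 = U P 3 + U P 1
      rw [V_add_two P 0, U_add_two P 1, U_two, U_one]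
      show P * P + 2 = P * P + 1 + 1
      ring
  | (n + 2) => by
      rw [V_add_two P (n + 1), V_eq P (n + 1), V_eq P n, U_add_two P (n + 2), U_add_two P (n + 1),
        U_add_two P n]
      ring

lemma U_add (P m : ℕ) : ∀ n : ℕ, U P (m + n + 1) = U P (m + 1) * U P (n + 1) + U P m * U P n
  | 0 => by rw [U_zero, U_one, add_zero]; ring
  | 1 => by
      rw [show m + 1 + 1 = m + 2 by ring, U_add_two, U_one, show 1 + 1 = 2 by norm_num, U_two]
      ring
  | (n + 2) => by
      rw [show m + (n + 2) + 1 = (m + n + 1) + 2 by ring, U_add_two,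
        show m + n + 1 + 1 = m + (n + 1) + 1 by ring, U_add P m (n + 1), U_add P m n,
        show n + 2 + 1 = (n + 1) + 2 by ring, U_add_two P (n + 1), U_add_two P n]
      ring

lemma U_two_mul (P n : ℕ) : U P (2 * (n + 1)) = U P (n + 1) * V P (n + 1) := by
  rw [show 2 * (n + 1) = (n + 1) + n + 1 by ring, U_add, V_eq]
  ring

lemma coprime_succ (P : ℕ) : ∀ n : ℕ, Nat.Coprime (U P n) (U P (n + 1))
  | 0 => by simp [U_one]
  | (n + 1) => by
      have h := coprime_succ P n
      rw [U_add_two, Nat.coprime_comm]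
      rw [add_comm, Nat.coprime_add_mul_right_left] 
      exact h

variable {P q : ℕ}

lemma dvdU_add (_hq : q.Prime) {k l : ℕ} (hk : q ∣ U P k) (hl : q ∣ U P l) : q ∣ U P (k + l) := by
  rcases l with _ | l
  · simpa using hk
  · rw [← add_assoc, U_add]
    exact dvd_add (hl.mul_left _) (hk.mul_right _)

lemma dvdU_sub (hq : q.Prime) {k l : ℕ} (hk : q ∣ U P k) (hl : q ∣ U P (k + l)) : q ∣ U P l := by
  rcases l with _ | l
  · simp [U_zero]
  · rw [← add_assoc, U_add] at hl
    have h1 : q ∣ U P (k + 1) * U P (l + 1) := (Nat.dvd_add_left (hk.mul_right _)).1 hl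
    rcases hq.dvd_mul.1 h1 with h | h
    · exact absurd (Nat.dvd_gcd hk h) (by rw [coprime_succ P k]; exact hq.one_lt.ne' ∘ Nat.dvd_one.1)
    · exact h

lemma dvd_gcd (hq : q.Prime) : ∀ k l : ℕ, q ∣ U P k → q ∣ U P l → q ∣ U P (Nat.gcd k l) := by
  intro k l
  induction k, l using Nat.gcd.induction with
  | H0 n => intro _ h; simpa using h
  | H1 m n hm ih =>
    intro h1 h2
    rw [Nat.gcd_rec]
    refine ih ?_ h1
    have hmul : ∀ j : ℕ, q ∣ U P (m * j) := by
      intro j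
      induction j with
      | zero => simp [U_zero]
      | succ j ihj => rw [mul_add, mul_one]; exact dvdU_add hq ihj h1
    have h3 : m * (n / m) + n % m = n := Nat.div_add_mod n m
    rw [← h3] at h2
    exact dvdU_sub hq (hmul _) h2

lemma dvd_of_dvd (hq : q.Prime) {k l : ℕ} (hk : q ∣ U P k) (h : k ∣ l) : q ∣ U P l := by
  obtain ⟨j, rfl⟩ := h
  induction j with
  | zero => simp [U_zero]
  | succ j ihj => rw [mul_add, mul_one]; exact dvdU_add hq ihj hk

/-- the companion matrix -/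
def mat (P : ℕ) (R : Type) [CommRing R] : Matrix (Fin 2) (Fin 2) R := !![(P : R), 1; 1, 0]

lemma mat_pow (P : ℕ) (R : Type) [CommRing R] : ∀ n : ℕ, (mat P R) ^ (n + 1) =
    !![(U P (n + 2) : R), (U P (n + 1) : R); (U P (n + 1) : R), (U P n : R)]
  | 0 => by
      rw [zero_add, pow_one, U_two, U_one, U_zero]
      simp [mat]
  | (n + 1) => by
      rw [pow_succ, mat_pow P R n, mat, U_add_two P (n + 1), U_add_two P n]
      ext i j
      fin_cases i <;> fin_cases j <;> simp [Matrix.mul_apply, Fin.sum_univ_two] <;> ring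

/-- the order of the general linear group bounds the rank of apparition -/
lemma dvd_card (P : ℕ) (hq : q.Prime) : q ∣ U P ((q ^ 2 - 1) * (q ^ 2 - q)) := by
  have : Fact q.Prime := ⟨hq⟩
  set R := ZMod q
  have hdet : (mat P R).det = -1 := by
    rw [mat, Matrix.det_fin_two_of]; ring
  have hu : IsUnit (mat P R) := by
    rw [Matrix.isUnit_iff_isUnit_det, hdet]
    exact isUnit_neg_one
  obtain ⟨G, hG⟩ := hu
  have hcard : Nat.card (Matrix.GeneralLinearGroup (Fin 2) R) = (q ^ 2 - 1) * (q ^ 2 - q) := by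
    rw [Matrix.card_GL_field]
    simp [Fin.prod_univ_two, R, ZMod.card]
  have h1 : G ^ ((q ^ 2 - 1) * (q ^ 2 - q)) = 1 := by
    rw [← hcard]
    exact pow_card_eq_one'
  have h2 : (mat P R) ^ ((q ^ 2 - 1) * (q ^ 2 - q)) = 1 := by
    rw [← hG, ← Units.val_pow_eq_pow_val, h1, Units.val_one]
  have hpos : 0 < (q ^ 2 - 1) * (q ^ 2 - q) := by
    have h2 := hq.two_le
    have h3 : q < q ^ 2 := by nlinarith
    exact Nat.mul_pos (by omega) (by omega)
  obtain ⟨N, hN⟩ := Nat.exists_eq_succ_of_ne_zero hpos.ne'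
  rw [hN, Nat.succ_eq_add_one] at h2 ⊢
  rw [mat_pow] at h2
  have h3 := congrFun (congrFun h2 0) 1
  simp at h3
  exact (ZMod.natCast_eq_zero_iff _ _).1 h3

/-- arithmetic of the order of the general linear group -/
lemma lt_of_dvd_aux {p q : ℕ} (hp : p.Prime) (h5 : 5 ≤ p) (hq : q.Prime)
    (h : p ∣ (q ^ 2 - 1) * (q ^ 2 - q)) (hne : p ≠ q) : p < q := by
  have hq2 := hq.two_le
  have e1 : (q ^ 2 - 1) = (q + 1) * (q - 1) := by
    have := Nat.sq_sub_sq q 1
    simpa using this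
  have e2 : q ^ 2 - q = q * (q - 1) := by
    rw [sq, Nat.mul_sub, mul_one]
  rw [e1, e2] at h
  have key : p ∣ q + 1 ∨ p ∣ q - 1 ∨ p ∣ q := by
    rcases hp.dvd_mul.1 h with h1 | h1
    · rcases hp.dvd_mul.1 h1 with h2 | h2
      · exact Or.inl h2
      · exact Or.inr (Or.inl h2)
    · rcases hp.dvd_mul.1 h1 with h2 | h2
      · exact Or.inr (Or.inr h2)
      · exact Or.inr (Or.inl h2)
  rcases key with h1 | h1 | h1
  · obtain ⟨c, hc⟩ := h1
    have hc0 : c ≠ 0 := by rintro rfl; omega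
    rcases Nat.lt_or_ge c 2 with h2 | h2
    · have : c = 1 := by omega
      subst this
      -- q = p - 1 is even
      have h3 : q + 1 = p := by omega
      rcases hp.eq_two_or_odd with h4 | h4
      · omega
      · have h5' : q % 2 = 0 := by omega
        have h6 : q = 2 := by
          rcases hq.eq_two_or_odd with h7 | h7
          · exact h7
          · omega
        omega
    · have : p * 2 ≤ p * c := Nat.mul_le_mul_left p h2
      omega
  · have := Nat.le_of_dvd (by omega) h1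
    omega
  · exact absurd ((Nat.prime_dvd_prime_iff_eq hp hq).1 h1) hne

/-- the trace of the `q`-th power modulo `q` -/
lemma V_prime (P : ℕ) (hq : q.Prime) : ((V P q : ℕ) : ZMod q) = P := by
  have : Fact q.Prime := ⟨hq⟩
  obtain ⟨n, rfl⟩ := Nat.exists_eq_succ_of_ne_zero hq.ne_zero
  rw [Nat.succ_eq_add_one] at *
  have h := ZMod.trace_pow_card (mat P (ZMod (n + 1)))
  rw [mat_pow, Matrix.trace_fin_two_of, mat, Matrix.trace_fin_two_of, add_zero,
    ZMod.pow_card] at h
  rw [V_eq, ← h]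
  push_cast
  ring

/-- the determinant identity -/
lemma cassini (P : ℕ) : ∀ n : ℕ, (U P (n + 2) : ℤ) * U P n - (U P (n + 1) : ℤ) ^ 2 = (-1) ^ (n + 1)
  | 0 => by rw [U_zero, U_one]; simp
  | (n + 1) => by
      have h := cassini P n
      rw [pow_succ (-1 : ℤ) (n + 1), ← h, U_add_two P (n + 1), U_add_two P n]
      push_cast
      ring

/-- an odd prime `p` not dividing `P ^ 2 + 4` does not divide `U P p` -/
lemma not_dvd_self (P : ℕ) {p : ℕ} (hp : p.Prime) (h2 : p ≠ 2) (hd : ¬ p ∣ P ^ 2 + 4) :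
    ¬ p ∣ U P p := by
  intro h
  apply hd
  have : Fact p.Prime := ⟨hp⟩
  have hodd := hp.odd_of_ne_two h2
  obtain ⟨n, hn⟩ := Nat.exists_eq_succ_of_ne_zero hp.ne_zero
  rw [Nat.succ_eq_add_one] at hn
  have h0 : ((U P (n + 1) : ℕ) : ZMod p) = 0 := by
    rw [ZMod.natCast_eq_zero_iff, ← hn]; exact h
  have hV := V_prime P hp
  rw [hn, V_eq, ← hn] at hV
  have hU2 : ((U P (n + 2) : ℕ) : ZMod p) = (U P n : ℕ) := by
    rw [U_add_two]
    push_cast
    rw [h0, mul_zero, zero_add]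
  push_cast at hV
  rw [hU2] at hV
  have hc := congrArg (Int.cast : ℤ → ZMod p) (cassini P n)
  push_cast at hc
  rw [hU2, h0, ← hn, hodd.neg_one_pow] at hc
  rw [← ZMod.natCast_eq_zero_iff]
  push_cast
  rw [← hV]
  linear_combination 4 * hc

/-- prime factors of `U P p` -/
theorem lt_of_dvd_U (P : ℕ) {p q : ℕ} (hp : p.Prime) (h5 : 5 ≤ p) (hd : ¬ p ∣ P ^ 2 + 4)
    (hq : q.Prime) (h : q ∣ U P p) : p < q := by
  have h1 := dvd_gcd hq _ _ h (dvd_card P hq)
  have h2 : p ∣ (q ^ 2 - 1) * (q ^ 2 - q) := by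
    rcases (Nat.coprime_or_dvd_of_prime hp ((q ^ 2 - 1) * (q ^ 2 - q))) with h3 | h3
    · rw [h3, U_one] at h1
      exact absurd (Nat.dvd_one.1 h1) hq.one_lt.ne'
    · exact h3
  exact lt_of_dvd_aux hp h5 hq h2 fun e => not_dvd_self P hp (by omega) hd (e ▸ h)

/-- prime factors of `V P p` -/
theorem lt_of_dvd_V (P : ℕ) {p q : ℕ} (hp : p.Prime) (h5 : 5 ≤ p) (hd : ¬ p ∣ P)
    (hq : q.Prime) (hqP : ¬ q ∣ P) (h : q ∣ V P p) : p < q := by
  obtain ⟨n, hn⟩ := Nat.exists_eq_succ_of_ne_zero hp.ne_zero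
  rw [Nat.succ_eq_add_one] at hn
  have hU : q ∣ U P (2 * p) := by
    rw [hn, U_two_mul, ← hn]
    exact h.mul_left _
  have h1 := dvd_gcd hq _ _ hU (dvd_card P hq)
  have h2 : p ∣ (q ^ 2 - 1) * (q ^ 2 - q) := by
    rcases (Nat.coprime_or_dvd_of_prime hp ((q ^ 2 - 1) * (q ^ 2 - q))) with h3 | h3
    · exfalso
      rw [Nat.Coprime.gcd_mul_right_cancel 2 h3] at h1
      have h4 : q ∣ U P 2 := dvd_of_dvd hq h1 (Nat.gcd_dvd_left _ _)
      rw [U_two] at h4
      exact hqP h4
    · exact h3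
  refine lt_of_dvd_aux hp h5 hq h2 fun e => hd ?_
  subst e
  have h3 := V_prime P hq
  rw [(ZMod.natCast_eq_zero_iff _ _).2 h] at h3
  exact (ZMod.natCast_eq_zero_iff _ _).1 h3.symm

end Pool.Agent.H447R2.ML
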