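import Mathlib
import Pool.Agent.H305R2.AE2

set_option autoImplicit false

/-!
# Almost primes in short intervals: the smooth part
-/

namespace Pool.Agent.H447R2.ML

open Finset Filter Topology
open Pool.Agent.H305R2 (SM VV SMz SM_pos mem_SMz sum_le_VV hasSum_smooth VV_tendsto VV_nonneg
  mertens_ratio)

lemma factor_le {r : ℕ} (hr : r.Prime) {δ : ℝ} (hδ : 0 ≤ δ) (hδ2 : δ ≤ 1 / 2)
    (hx : δ * Real.log r ≤ 1) :
    (1 - (r : ℝ) ^ (-(1 - δ)))⁻¹ ≤ (1 - (r : ℝ)⁻¹)⁻¹ * Real.exp (8 * δ * (Real.log r / r)) := by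
  have hr2 : (2 : ℝ) ≤ r := by exact_mod_cast hr.two_le
  have hr0 : (0 : ℝ) < r := by linarith
  have hlog : 0 ≤ Real.log r := Real.log_nonneg (by linarith)
  set x := δ * Real.log r with hxdef
  have hx0 : 0 ≤ x := by positivity
  set a := (r : ℝ)⁻¹ with ha
  have ha0 : 0 < a := by positivity
  have ha1 : a ≤ 1 / 2 := by
    rw [ha, inv_eq_one_div]
    exact one_div_le_one_div_of_le two_pos hr2
  have hb : (r : ℝ) ^ (-(1 - δ)) = a * Real.exp x := by
    rw [ha, hxdef, show -(1 - δ) = -1 + δ by ring, Real.rpow_add hr0, Real.rpow_neg_one,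
      Real.rpow_def_of_pos hr0, mul_comm (Real.log r)]
  have hb34 : (r : ℝ) ^ (-(1 - δ)) ≤ 3 / 4 := by
    calc (r : ℝ) ^ (-(1 - δ)) ≤ (r : ℝ) ^ (-(1 / 2) : ℝ) :=
          Real.rpow_le_rpow_of_exponent_le (by linarith) (by linarith)
      _ ≤ (2 : ℝ) ^ (-(1 / 2) : ℝ) := Real.rpow_le_rpow_of_nonpos two_pos hr2 (by norm_num)
      _ ≤ 3 / 4 := by
          rw [Real.rpow_neg two_pos.le, ← Real.sqrt_eq_rpow]
          have h1 : 4 / 3 ≤ √2 := Real.le_sqrt_of_sq_le (by norm_num)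
          calc (√2)⁻¹ ≤ (4 / 3)⁻¹ := inv_anti₀ (by norm_num) h1
            _ = 3 / 4 := by norm_num
  set b := (r : ℝ) ^ (-(1 - δ)) with hbdef
  have hex : Real.exp x ≤ 1 + 2 * x := by
    have h1 := Real.abs_exp_sub_one_sub_id_le (x := x) (by rw [abs_of_nonneg hx0]; exact hx)
    have h2 := (abs_le.1 h1).2
    nlinarith
  have hba : b - a ≤ 2 * x * a := by
    rw [hb]
    nlinarith
  have hxa : 8 * δ * (Real.log r / r) = 8 * x * a := by
    rw [ha, hxdef]
    field_simp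
  have he : 1 + 8 * x * a ≤ Real.exp (8 * x * a) := by
    have := Real.add_one_le_exp (8 * x * a)
    linarith
  have hkey : 1 - a ≤ (1 - b) * Real.exp (8 * x * a) := by
    have h1 : (1 - b) * (1 + 8 * x * a) ≤ (1 - b) * Real.exp (8 * x * a) :=
      mul_le_mul_of_nonneg_left he (by linarith)
    have h2 : 0 ≤ x * a := by positivity
    nlinarith
  have h1b : 0 < 1 - b := by linarith
  have h1a : 0 < 1 - a := by linarith
  rw [hxa, inv_mul_eq_div, inv_eq_one_div, div_le_div_iff₀ h1b h1a, one_mul, mul_comm _ (1 - b)]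
  exact hkey

/-- the shifted Euler product -/
noncomputable def PW (q : ℕ) : ℝ :=
  ∏ r ∈ (Finset.Icc 1 q).filter Nat.Prime, (1 - (r : ℝ) ^ (-(1 - 1 / Real.log q)))⁻¹

lemma PW_le : ∃ K : ℝ, 0 < K ∧ ∀ᶠ q : ℕ in atTop, PW q ≤ K * Real.log q := by
  have hV : ∀ᶠ p : ℕ in atTop, VV p / Real.log p < Real.exp Real.eulerMascheroniConstant + 1 :=
    VV_tendsto.eventually_lt_const (by linarith)
  have hM : ∀ᶠ n : ℕ in atTop,
      (∑ p ∈ (Finset.Icc 1 n).filter Nat.Prime, Real.log p / p) / Real.log n < 2 :=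
    mertens_ratio.eventually_lt_const (by norm_num)
  have hlog2 : ∀ᶠ n : ℕ in atTop, 2 ≤ Real.log n :=
    Pool.Agent.H305R2.log_nat_tendsto.eventually_ge_atTop 2
  refine ⟨(Real.exp Real.eulerMascheroniConstant + 1) * Real.exp 16, by positivity, ?_⟩
  filter_upwards [hV, hM, hlog2] with q h1 h2 h3
  have hl0 : 0 < Real.log q := by linarith
  set δ := 1 / Real.log q with hδ
  have hδ0 : 0 < δ := by positivity
  have hδ2 : δ ≤ 1 / 2 := one_div_le_one_div_of_le two_pos h3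
  have hfac : ∀ r ∈ (Finset.Icc 1 q).filter Nat.Prime, (1 - (r : ℝ) ^ (-(1 - δ)))⁻¹ ≤
      (1 - (r : ℝ)⁻¹)⁻¹ * Real.exp (8 * δ * (Real.log r / r)) := by
    intro r hr
    rw [Finset.mem_filter, Finset.mem_Icc] at hr
    refine factor_le hr.2 hδ0.le hδ2 ?_
    have hr0 : (0 : ℝ) < r := by exact_mod_cast hr.2.pos
    have : Real.log r ≤ Real.log q := Real.log_le_log hr0 (by exact_mod_cast hr.1.2)
    rw [hδ, one_div, inv_mul_le_iff₀ hl0, mul_one]
    exact this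
  have hnn : ∀ r ∈ (Finset.Icc 1 q).filter Nat.Prime, 0 ≤ (1 - (r : ℝ) ^ (-(1 - δ)))⁻¹ := by
    intro r hr
    rw [Finset.mem_filter] at hr
    have hr1 : (1 : ℝ) < r := by exact_mod_cast hr.2.one_lt
    have := Real.rpow_lt_one_of_one_lt_of_neg hr1 (show -(1 - δ) < 0 by linarith)
    rw [inv_nonneg]
    linarith
  have hprod : PW q ≤ ∏ r ∈ (Finset.Icc 1 q).filter Nat.Prime,
      ((1 - (r : ℝ)⁻¹)⁻¹ * Real.exp (8 * δ * (Real.log r / r))) := by
    unfold PW
    rw [← hδ]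
    exact Finset.prod_le_prod hnn hfac
  have hsum : 8 * δ * ∑ r ∈ (Finset.Icc 1 q).filter Nat.Prime, Real.log r / r ≤ 16 := by
    rw [div_lt_iff₀ hl0] at h2
    rw [hδ]
    calc 8 * (1 / Real.log q) * ∑ r ∈ (Finset.Icc 1 q).filter Nat.Prime, Real.log r / r
        ≤ 8 * (1 / Real.log q) * (2 * Real.log q) := by gcongr
      _ = 16 := by field_simp; norm_num
  refine hprod.trans ?_
  rw [Finset.prod_mul_distrib, ← Real.exp_sum, ← Finset.mul_sum]
  have hVV : ∏ r ∈ (Finset.Icc 1 q).filter Nat.Prime, (1 - (r : ℝ)⁻¹)⁻¹ = VV q := rfl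
  rw [hVV]
  have h4 : VV q ≤ (Real.exp Real.eulerMascheroniConstant + 1) * Real.log q := by
    rw [div_lt_iff₀ hl0] at h1
    exact h1.le
  calc VV q * Real.exp (8 * δ * ∑ r ∈ (Finset.Icc 1 q).filter Nat.Prime, Real.log r / r)
      ≤ ((Real.exp Real.eulerMascheroniConstant + 1) * Real.log q) * Real.exp 16 := by
        refine mul_le_mul h4 (Real.exp_le_exp.2 hsum) (Real.exp_pos _).le (by positivity)
    _ = _ := by ring

/-- Rankin's bound with the exponent `1 / log q`. -/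
lemma tail_shift : ∃ K : ℝ, 0 < K ∧ ∀ᶠ q : ℕ in atTop, ∀ z : ℝ, 0 < z → ∀ F : Finset ℕ,
    (∀ n ∈ F, n ∈ SM q ∧ z ≤ n) →
    ∑ n ∈ F, (n : ℝ)⁻¹ ≤ K * Real.log q * z ^ (-(1 / Real.log q)) := by
  obtain ⟨K, hK, hev⟩ := PW_le
  refine ⟨K, hK, ?_⟩
  have hlog2 : ∀ᶠ n : ℕ in atTop, 2 ≤ Real.log n :=
    Pool.Agent.H305R2.log_nat_tendsto.eventually_ge_atTop 2
  filter_upwards [hev, hlog2] with q h1 h3 z hz F hF
  have hl0 : 0 < Real.log q := by linarith
  set δ := 1 / Real.log q with hδ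
  have hδ0 : 0 < δ := by positivity
  have hδ2 : δ ≤ 1 / 2 := one_div_le_one_div_of_le two_pos h3
  have hs := hasSum_smooth (σ := 1 - δ) (by linarith) q
  have hsum : ∑ n ∈ F, (n : ℝ) ^ (-(1 - δ)) ≤ PW q := by
    have h := sum_le_hasSum F (fun n _ => Set.indicator_nonneg (fun n _ => by positivity) n) hs
    refine le_trans (le_of_eq ?_) h
    exact Finset.sum_congr rfl fun n hn => by rw [Set.indicator_of_mem (hF n hn).1]
  calc ∑ n ∈ F, (n : ℝ)⁻¹ ≤ ∑ n ∈ F, z ^ (-δ) * (n : ℝ) ^ (-(1 - δ)) := by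
        refine Finset.sum_le_sum fun n hn => ?_
        have hn0 : (0 : ℝ) < n := by exact_mod_cast SM_pos (hF n hn).1
        have e : (n : ℝ)⁻¹ = (n : ℝ) ^ (-δ) * (n : ℝ) ^ (-(1 - δ)) := by
          rw [← Real.rpow_add hn0, ← Real.rpow_neg_one]
          congr 1
          ring
        rw [e]
        refine mul_le_mul_of_nonneg_right ?_ (by positivity)
        exact Real.rpow_le_rpow_of_nonpos hz (hF n hn).2 (by linarith)
    _ = z ^ (-δ) * ∑ n ∈ F, (n : ℝ) ^ (-(1 - δ)) := by rw [Finset.mul_sum]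
    _ ≤ z ^ (-δ) * (K * Real.log q) := mul_le_mul_of_nonneg_left (hsum.trans h1) (by positivity)
    _ = _ := by ring

/-- a large smooth number has a smooth divisor in `(S, S q]` -/
lemma smooth_divisor {q s : ℕ} {S : ℝ} (hS : 1 ≤ S) (hs : s ∈ SM q) (hsS : S < s) :
    ∃ d : ℕ, d ∈ SM q ∧ d ∣ s ∧ S < d ∧ (d : ℝ) ≤ S * q := by
  classical
  have hs0 := SM_pos hs
  have hex : ∃ d : ℕ, d ∣ s ∧ S < d := ⟨s, dvd_rfl, hsS⟩
  set d := Nat.find hex with hd
  obtain ⟨h1, h2⟩ := Nat.find_spec hex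
  have hdSM : d ∈ SM q := by
    refine ⟨Nat.ne_of_gt (Nat.pos_of_dvd_of_pos h1 hs0), fun r hr => ?_⟩
    refine hs.2 r ?_
    rw [Nat.mem_primeFactorsList hs0.ne']
    exact ⟨Nat.prime_of_mem_primeFactorsList hr, (Nat.dvd_of_mem_primeFactorsList hr).trans h1⟩
  refine ⟨d, hdSM, h1, h2, ?_⟩
  by_contra hcon
  push Not at hcon
  have hd1 : d ≠ 1 := by
    intro h
    rw [← hd, h] at h2
    push_cast at h2
    linarith
  obtain ⟨r, hr, hrd⟩ := Nat.exists_prime_and_dvd hd1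
  have hrq : r ≤ q := by
    have := hdSM.2 r (by
      rw [Nat.mem_primeFactorsList (SM_pos hdSM).ne']
      exact ⟨hr, hrd⟩)
    omega
  obtain ⟨e, he⟩ := hrd
  have hr0 : (0 : ℝ) < r := by exact_mod_cast hr.pos
  have he0 : 0 < e := by
    rcases Nat.eq_zero_or_pos e with h | h
    · rw [h, mul_zero] at he
      exact absurd he (SM_pos hdSM).ne'
    · exact h
  have hSe : S < e := by
    have h3 : (d : ℝ) = r * e := by exact_mod_cast he
    have h4 : (r : ℝ) ≤ q := by exact_mod_cast hrq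
    have h5 : S * r ≤ S * q := by gcongr
    have h6 : S * r < r * e := by linarith
    nlinarith
  have hlt : e < d := by
    rw [he]
    have := hr.two_le
    nlinarith
  exact Nat.find_min hex hlt ⟨(Dvd.intro_left r he.symm).trans h1, hSe⟩

end Pool.Agent.H447R2.ML
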