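import Mathlib
import Pool.Agent.H447R2.ML.P1

set_option autoImplicit false

/-!
# Almost primes in short intervals
-/

namespace Pool.Agent.H447R2.ML

open Finset Filter Topology MeasureTheory
open Pool.Agent.H305R2 (SM VV SMz SM_pos mem_SMz sum_le_VV hasSum_smooth VV_tendsto VV_nonneg
  mertens_ratio roughPart sum_rough_eq roughPart_mul roughPart_prime count_inner ff window_upper)

lemma div_step {A B d : ℕ} (hd : 0 < d) (hAB : A ≤ B) : B / d ≤ A / d + ((B - A) / d + 1) := by
  have h1 : B = A + (B - A) := by omega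
  conv_lhs => rw [h1]
  rw [Nat.div_le_iff_le_mul_add_pred hd]
  have h2 := Nat.div_add_mod A d
  have h3 := Nat.div_add_mod (B - A) d
  have h4 := Nat.mod_lt A hd
  have h5 := Nat.mod_lt (B - A) hd
  have h6 : d * (A / d + ((B - A) / d + 1)) = d * (A / d) + d * ((B - A) / d) + d := by ring
  rw [h6]
  omega

lemma card_multiples {A B d : ℕ} (hd : 0 < d) (hAB : A ≤ B) :
    (((Finset.Ioc A B).filter (fun m => d ∣ m)).card : ℝ) ≤ ((B - A : ℕ) : ℝ) * (d : ℝ)⁻¹ + 1 := by
  have h1 : ((Finset.Ioc A B).filter (fun m => d ∣ m)).card ≤ (B - A) / d + 1 := by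
    have h2 : ((Finset.Ioc A B).filter (fun m => d ∣ m)).card ≤ (Finset.Ioc (A / d) (B / d)).card := by
      refine Finset.card_le_card_of_injOn (fun m => m / d) ?_ ?_
      · intro m hm
        simp only [Finset.coe_filter, Finset.mem_Ioc, Set.mem_ofPred_eq] at hm
        simp only [Finset.coe_Ioc, Set.mem_Ioc]
        obtain ⟨⟨h3, h4⟩, k, rfl⟩ := hm
        rw [Nat.mul_div_cancel_left k hd]
        constructor
        · rw [Nat.div_lt_iff_lt_mul hd, mul_comm]; exact h3
        · rw [Nat.le_div_iff_mul_le hd, mul_comm]; exact h4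
      · intro m hm n hn hmn
        simp only [Finset.coe_filter, Finset.mem_Ioc, Set.mem_ofPred_eq] at hm hn
        obtain ⟨_, k, rfl⟩ := hm
        obtain ⟨_, l, rfl⟩ := hn
        simp only [Nat.mul_div_cancel_left _ hd] at hmn
        rw [hmn]
    refine h2.trans ?_
    rw [Nat.card_Ioc]
    exact Nat.sub_le_iff_le_add'.2 (div_step hd hAB)
  calc (((Finset.Ioc A B).filter (fun m => d ∣ m)).card : ℝ) ≤ (((B - A) / d + 1 : ℕ) : ℝ) := by
        exact_mod_cast h1
    _ ≤ _ := by
        push_cast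
        have := @Nat.cast_div_le ℝ _ _ _ (B - A) d
        rw [div_eq_mul_inv] at this
        linarith

/-- numbers with a large smooth part -/
lemma large_part {A B q : ℕ} (hAB : A ≤ B) {S : ℝ} (hS : 1 ≤ S) (hSq : S * q ≤ ((B - A : ℕ) : ℝ)) :
    (((Finset.Ioc A B).filter (fun m => (roughPart q m).Prime ∧ S < ((m / roughPart q m : ℕ) : ℝ))).card
      : ℝ) ≤ 2 * ((B - A : ℕ) : ℝ) *
      ∑ d ∈ (SMz q (S * q)).filter (fun d : ℕ => S < d), (d : ℝ)⁻¹ := by
  classical
  set F := (SMz q (S * q)).filter (fun d : ℕ => S < d) with hF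
  have hSq0 : 0 ≤ S * q := by positivity
  have hsub : (Finset.Ioc A B).filter (fun m => (roughPart q m).Prime ∧
      S < ((m / roughPart q m : ℕ) : ℝ)) ⊆ F.biUnion (fun d => (Finset.Ioc A B).filter (fun m => d ∣ m)) := by
    intro m hm
    rw [Finset.mem_filter] at hm
    obtain ⟨h1, h2, h3⟩ := hm
    obtain ⟨_, s, hs, he⟩ := roughPart_prime h2
    have hdiv : m / roughPart q m = s := by
      conv_lhs => rw [he]
      rw [roughPart_mul hs h2 (roughPart_prime h2).1]
      exact Nat.mul_div_cancel s h2.pos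
    rw [hdiv] at h3
    obtain ⟨d, hd1, hd2, hd3, hd4⟩ := smooth_divisor hS hs h3
    rw [Finset.mem_biUnion]
    refine ⟨d, ?_, ?_⟩
    · rw [hF, Finset.mem_filter, mem_SMz hSq0]
      exact ⟨⟨hd1, hd4⟩, hd3⟩
    · rw [Finset.mem_filter]
      refine ⟨h1, hd2.trans ?_⟩
      rw [he]
      exact Dvd.intro _ rfl
  have h1 : (((Finset.Ioc A B).filter (fun m => (roughPart q m).Prime ∧
      S < ((m / roughPart q m : ℕ) : ℝ))).card : ℝ) ≤
      ∑ d ∈ F, (((Finset.Ioc A B).filter (fun m => d ∣ m)).card : ℝ) := by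
    have := (Finset.card_le_card hsub).trans Finset.card_biUnion_le
    exact_mod_cast this
  refine h1.trans ?_
  rw [Finset.mul_sum]
  refine Finset.sum_le_sum fun d hd => ?_
  rw [hF, Finset.mem_filter, mem_SMz hSq0] at hd
  have hd0 : 0 < d := SM_pos hd.1.1
  have hd0' : (0 : ℝ) < d := by exact_mod_cast hd0
  have h2 := card_multiples hd0 hAB
  have h3 : 1 ≤ ((B - A : ℕ) : ℝ) * (d : ℝ)⁻¹ := by
    rw [← div_eq_mul_inv, one_le_div hd0']
    exact hd.1.2.trans hSq
  linarith

/-- numbers with a small smooth part -/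
lemma small_part {C0 : ℝ} (hC0 : 1 ≤ C0) (hBT : ∀ (a q N : ℕ), 2 ≤ N → (q = 1 ∨ q.Prime) →
    (((Finset.range N).filter (fun k => (a + k * q).Prime)).card : ℝ) ≤ C0 * N / Real.log N)
    {A B q : ℕ} (hAB : A ≤ B) {S H : ℝ} (hH : 0 < H)
    (hSH : ∀ s : ℕ, 0 < s → (s : ℝ) ≤ S → Real.exp (H / 2) ≤ ((B - A : ℕ) : ℝ) / s) :
    (((Finset.Ioc A B).filter (fun m => (roughPart q m).Prime ∧ ¬ S < ((m / roughPart q m : ℕ) : ℝ))).card
      : ℝ) ≤ 4 * C0 * ((B - A : ℕ) : ℝ) / H * VV q := by
  classical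
  have hcard : (((Finset.Ioc A B).filter (fun m => (roughPart q m).Prime ∧
      ¬ S < ((m / roughPart q m : ℕ) : ℝ))).card : ℝ) =
      ∑ s ∈ (SMz q (B : ℝ)).filter (fun s : ℕ => ¬ S < (s : ℝ)),
        (((Finset.Ioc (A / s) (B / s)).filter (fun r => r.Prime ∧ q < r)).card : ℝ) := by
    have h1 : (((Finset.Ioc A B).filter (fun m => (roughPart q m).Prime ∧
        ¬ S < ((m / roughPart q m : ℕ) : ℝ))).card : ℝ) =
        ∑ m ∈ (Finset.Ioc A B).filter (fun m => (roughPart q m).Prime),
          (if ¬ S < ((m / roughPart q m : ℕ) : ℝ) then (1 : ℝ) else 0) := by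
      rw [← Finset.sum_filter, Finset.filter_filter]
      simp
    rw [h1, sum_rough_eq q A B (fun m => if ¬ S < ((m / roughPart q m : ℕ) : ℝ) then (1 : ℝ) else 0),
      Finset.sum_filter]
    refine Finset.sum_congr rfl fun s hs => ?_
    rw [mem_SMz (by positivity)] at hs
    have hterm : ∀ r ∈ (Finset.Ioc (A / s) (B / s)).filter (fun r => r.Prime ∧ q < r),
        (if ¬ S < (((s * r) / roughPart q (s * r) : ℕ) : ℝ) then (1 : ℝ) else 0) =
        if ¬ S < (s : ℝ) then (1 : ℝ) else 0 := by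
      intro r hr
      rw [Finset.mem_filter] at hr
      rw [roughPart_mul hs.1 hr.2.1 hr.2.2, Nat.mul_div_cancel s hr.2.1.pos]
    rw [Finset.sum_congr rfl hterm]
    split_ifs
    · simp
    · simp
  rw [hcard]
  calc ∑ s ∈ (SMz q (B : ℝ)).filter (fun s : ℕ => ¬ S < (s : ℝ)),
        (((Finset.Ioc (A / s) (B / s)).filter (fun r => r.Prime ∧ q < r)).card : ℝ) ≤
      ∑ s ∈ (SMz q (B : ℝ)).filter (fun s : ℕ => ¬ S < (s : ℝ)),
        4 * C0 * ((B - A : ℕ) : ℝ) / H * (s : ℝ)⁻¹ := by
        refine Finset.sum_le_sum fun s hs => ?_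
        rw [Finset.mem_filter, mem_SMz (by positivity)] at hs
        have hsn : 0 < s := SM_pos hs.1.1
        have hs0 : (0 : ℝ) < s := by exact_mod_cast hsn
        obtain ⟨_, hc2⟩ := count_inner hBT q A B s hsn hAB
        set D := B - A with hD
        have hDs := hSH s hsn (not_lt.1 hs.2)
        have hDs1 : 1 ≤ (D : ℝ) / s := le_trans (Real.one_le_exp (by positivity)) hDs
        have hN1 : 1 ≤ D / s := by
          rw [Nat.one_le_div_iff hsn]
          rw [le_div_iff₀ hs0, one_mul] at hDs1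
          exact_mod_cast hDs1
        have hb := hc2 (by omega)
        have hNge : (D : ℝ) / s ≤ ((D / s + 1 : ℕ) : ℝ) := by
          rw [div_le_iff₀ hs0]
          have : D ≤ (D / s + 1) * s :=
            ((Nat.div_lt_iff_lt_mul hsn).1 (Nat.lt_succ_self _)).le
          exact_mod_cast this
        have hNle : ((D / s + 1 : ℕ) : ℝ) ≤ 2 * ((D : ℝ) / s) := by
          push_cast
          have := @Nat.cast_div_le ℝ _ _ _ D s
          linarith
        have hlN : H / 2 ≤ Real.log ((D / s + 1 : ℕ) : ℝ) := by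
          rw [Real.le_log_iff_exp_le (by positivity)]
          linarith
        refine hb.trans ?_
        calc C0 * ((D / s + 1 : ℕ) : ℝ) / Real.log ((D / s + 1 : ℕ) : ℝ) ≤
            C0 * (2 * ((D : ℝ) / s)) / (H / 2) := by
              refine div_le_div₀ (by positivity) ?_ (by positivity) hlN
              exact mul_le_mul_of_nonneg_left hNle (by linarith)
          _ = 4 * C0 * D / H * (s : ℝ)⁻¹ := by field_simp; ring
    _ = 4 * C0 * ((B - A : ℕ) : ℝ) / H *
        ∑ s ∈ (SMz q (B : ℝ)).filter (fun s : ℕ => ¬ S < (s : ℝ)), (s : ℝ)⁻¹ := by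
        rw [Finset.mul_sum]
    _ ≤ _ := by
        refine mul_le_mul_of_nonneg_left (sum_le_VV q _ fun s hs => ?_) (by positivity)
        rw [Finset.mem_filter, mem_SMz (by positivity)] at hs
        exact hs.1.1

/-- Short intervals of logarithmic length `h` around `e ^ u`, as long as `h e ^ u` exceeds
`q ^ (32 log log q)`. -/
theorem short_interval : ∃ K : ℝ, 0 < K ∧ ∀ᶠ q : ℕ in atTop, ∀ u h : ℝ, 0 < h → h ≤ 1 →
    32 * (Real.log q * Real.log (Real.log q)) ≤ u + Real.log h →
    ∫ t in Set.Ioc u (u + h), ff q t ≤ K * h * (Real.log q / (u + Real.log h)) := by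
  obtain ⟨C0, hC01, hBT⟩ := Pool.Agent.Helper601.brun_titchmarsh
  obtain ⟨K, hK, htail⟩ := tail_shift
  set K1 := Real.exp Real.eulerMascheroniConstant + 1 with hK1
  have hK1pos : 0 < K1 := by positivity
  have hV : ∀ᶠ p : ℕ in atTop, VV p / Real.log p < K1 :=
    VV_tendsto.eventually_lt_const (by rw [hK1]; linarith)
  have hll : ∀ᶠ q : ℕ in atTop, 2 ≤ Real.log (Real.log q) :=
    (Real.tendsto_log_atTop.comp Pool.Agent.H305R2.log_nat_tendsto).eventually_ge_atTop 2
  have hl : ∀ᶠ q : ℕ in atTop, 2 ≤ Real.log q :=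
    Pool.Agent.H305R2.log_nat_tendsto.eventually_ge_atTop 2
  refine ⟨6 * (4 * C0 * K1 + 2 * K), by positivity, ?_⟩
  filter_upwards [htail, hV, hll, hl, eventually_ge_atTop 3] with q htl hVq hllq hlq hq3 u h hh hh1 hH
  have hq3' : (3 : ℝ) ≤ q := by exact_mod_cast hq3
  have hq0 : (0 : ℝ) < q := by linarith
  have hl0 : 0 < Real.log q := by linarith
  set H := u + Real.log h with hHdef
  have hlogh : Real.log h ≤ 0 := Real.log_nonpos hh.le hh1
  have hH1 : 128 ≤ H := by nlinarith
  have hH0 : 0 < H := by linarith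
  have hu : H ≤ u := by linarith
  have hu0 : 0 < u := by linarith
  set X := Real.exp u with hX
  have hX0 : 0 < X := Real.exp_pos _
  have hX1 : 1 ≤ X := Real.one_le_exp hu0.le
  have hhX : h * X = Real.exp H := by
    rw [hHdef, Real.exp_add, Real.exp_log hh, mul_comm]
  have hhX2 : 2 ≤ h * X := by
    rw [hhX]
    have := Real.add_one_le_exp H
    linarith
  set A := ⌊X⌋₊ with hA
  set B := ⌊Real.exp (u + h)⌋₊ with hB
  have hYe : Real.exp (u + h) = X * Real.exp h := by rw [Real.exp_add]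
  have hA1 : 1 ≤ A := Nat.floor_pos.2 hX1
  have hAle : (A : ℝ) ≤ X := Nat.floor_le hX0.le
  have hAgt : X < A + 1 := Nat.lt_floor_add_one X
  have hA1' : (1 : ℝ) ≤ A := by exact_mod_cast hA1
  have hAhalf : X / 2 ≤ A := by linarith
  have hBle : (B : ℝ) ≤ X * Real.exp h := by rw [← hYe]; exact Nat.floor_le (Real.exp_pos _).le
  have hBgt : X * Real.exp h < B + 1 := by rw [← hYe]; exact Nat.lt_floor_add_one _
  have hAB : A ≤ B := Nat.floor_mono (Real.exp_le_exp.2 (by linarith))
  have heh1 : 1 + h ≤ Real.exp h := by have := Real.add_one_le_exp h; linarith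
  have heh2 : Real.exp h ≤ 1 + 2 * h := by
    have h1 := Real.abs_exp_sub_one_sub_id_le (x := h) (by rw [abs_of_pos hh]; exact hh1)
    have h2 := (abs_le.1 h1).2
    nlinarith
  have hAB' : A - 1 ≤ B := by omega
  have hDcast : ((B - (A - 1) : ℕ) : ℝ) = B - A + 1 := by
    have : B - (A - 1) = B - A + 1 := by omega
    rw [this]
    push_cast [Nat.cast_sub hAB]
    ring
  have hDup : ((B - (A - 1) : ℕ) : ℝ) ≤ 3 * (h * X) := by
    rw [hDcast]
    have : X * Real.exp h ≤ X * (1 + 2 * h) := mul_le_mul_of_nonneg_left heh2 hX0.le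
    linarith
  have hDlow : h * X ≤ ((B - (A - 1) : ℕ) : ℝ) := by
    rw [hDcast]
    have : X * (1 + h) ≤ X * Real.exp h := mul_le_mul_of_nonneg_left heh1 hX0.le
    linarith
  -- step 1
  have hstep1 : ∫ t in Set.Ioc u (u + h), ff q t ≤ 1 / (A : ℝ) *
      (((Finset.Ioc (A - 1) B).filter (fun m => (roughPart q m).Prime)).card : ℝ) := by
    refine (window_upper hu0.le).trans ?_
    have hIcc : Finset.Icc A B = Finset.Ioc (A - 1) B := by
      ext x; simp only [Finset.mem_Icc, Finset.mem_Ioc]; omega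
    rw [← hX, ← hA, ← hB, hIcc, ← nsmul_one (Finset.card _), ← Finset.sum_const, Finset.mul_sum]
    refine Finset.sum_le_sum fun m hm => ?_
    rw [Finset.mem_filter, Finset.mem_Ioc] at hm
    rw [mul_one]
    refine one_div_le_one_div_of_le (by linarith) ?_
    have : A ≤ m := by omega
    exact_mod_cast this
  set S := Real.exp (H / 2) with hS
  have hS1 : 1 ≤ S := Real.one_le_exp (by positivity)
  have hSS : S * S = Real.exp H := by rw [hS, ← Real.exp_add]; congr 1; ring
  have hqS : (q : ℝ) ≤ S := by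
    rw [hS, ← Real.log_le_iff_le_exp hq0]
    nlinarith
  have hsplit : (((Finset.Ioc (A - 1) B).filter (fun m => (roughPart q m).Prime)).card : ℝ) ≤
      (((Finset.Ioc (A - 1) B).filter (fun m => (roughPart q m).Prime ∧
        S < ((m / roughPart q m : ℕ) : ℝ))).card : ℝ) +
      (((Finset.Ioc (A - 1) B).filter (fun m => (roughPart q m).Prime ∧
        ¬ S < ((m / roughPart q m : ℕ) : ℝ))).card : ℝ) := by
    rw [← Nat.cast_add, ← Finset.filter_filter, ← Finset.filter_filter]
    have := Finset.card_filter_add_card_filter_not (s := (Finset.Ioc (A - 1) B).filter (fun m => (roughPart q m).Prime))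
      (fun m => S < ((m / roughPart q m : ℕ) : ℝ))
    exact_mod_cast this.ge
  have hlarge := large_part (A := A - 1) (B := B) (q := q) hAB' hS1 (by
    refine le_trans ?_ hDlow
    rw [hhX, ← hSS]
    gcongr)
  have hsmall := small_part hC01 hBT (A := A - 1) (B := B) (q := q) hAB' (S := S) hH0 (by
    intro s hs hsS
    have hs0 : (0 : ℝ) < s := by exact_mod_cast hs
    rw [le_div_iff₀ hs0, ← hS]
    calc S * s ≤ S * S := by gcongr
      _ = h * X := by rw [hSS, hhX]
      _ ≤ _ := hDlow)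
  have htl' := htl S (by positivity) ((SMz q (S * q)).filter (fun d : ℕ => S < d)) (by
    intro n hn
    rw [Finset.mem_filter, mem_SMz (by positivity)] at hn
    exact ⟨hn.1.1, hn.2.le⟩)
  -- the Rankin factor
  have hRan : S ^ (-(1 / Real.log q)) ≤ 1 / H := by
    have e : S ^ (-(1 / Real.log q)) = Real.exp (-(H / (2 * Real.log q))) := by
      rw [hS, ← Real.exp_mul]; congr 1; field_simp
    rw [e, Real.exp_neg, ← one_div]
    refine one_div_le_one_div_of_le hH0 ?_
    rw [← Real.log_le_iff_le_exp hH0]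
    set v := H / Real.log q with hv
    have hv1 : 32 * Real.log (Real.log q) ≤ v := by
      rw [hv, le_div_iff₀ hl0]
      linarith
    have hv64 : 64 ≤ v := by linarith
    have hHv : H = v * Real.log q := by rw [hv]; field_simp
    have e2 : H / (2 * Real.log q) = v / 2 := by rw [hv]; field_simp
    rw [e2, hHv, Real.log_mul (by positivity) hl0.ne']
    have hlv : Real.log v ≤ v / 4 := by
      have hsv : 8 ≤ √v := Real.le_sqrt_of_sq_le (by linarith)
      have h1 := Real.log_le_sub_one_of_pos (show 0 < √v by positivity)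
      have h2 : Real.log v = 2 * Real.log (√v) := by
        rw [Real.log_sqrt (by linarith)]; ring
      have h3 : √v * √v = v := Real.mul_self_sqrt (by linarith)
      nlinarith
    linarith
  have hVle : VV q ≤ K1 * Real.log q := by
    rw [div_lt_iff₀ hl0] at hVq
    exact hVq.le
  have hAinv : 1 / (A : ℝ) ≤ 2 / X := by
    rw [div_le_div_iff₀ (by linarith) hX0]
    linarith
  have hV0 := VV_nonneg q
  have hD0 : (0 : ℝ) ≤ ((B - (A - 1) : ℕ) : ℝ) := by positivity
  have hcount : (((Finset.Ioc (A - 1) B).filter (fun m => (roughPart q m).Prime)).card : ℝ) ≤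
      (4 * C0 * K1 + 2 * K) * (3 * (h * X)) * (Real.log q / H) := by
    calc (((Finset.Ioc (A - 1) B).filter (fun m => (roughPart q m).Prime)).card : ℝ) ≤
        2 * ((B - (A - 1) : ℕ) : ℝ) * (K * Real.log q * S ^ (-(1 / Real.log q))) +
        4 * C0 * ((B - (A - 1) : ℕ) : ℝ) / H * VV q := by
          refine hsplit.trans (add_le_add (hlarge.trans ?_) hsmall)
          exact mul_le_mul_of_nonneg_left htl' (by positivity)
      _ ≤ 2 * (3 * (h * X)) * (K * Real.log q * (1 / H)) +
        4 * C0 * (3 * (h * X)) / H * (K1 * Real.log q) := by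
          gcongr
      _ = _ := by field_simp; ring
  calc ∫ t in Set.Ioc u (u + h), ff q t ≤ 1 / (A : ℝ) *
      ((4 * C0 * K1 + 2 * K) * (3 * (h * X)) * (Real.log q / H)) :=
        hstep1.trans (mul_le_mul_of_nonneg_left hcount (by positivity))
    _ ≤ 2 / X * ((4 * C0 * K1 + 2 * K) * (3 * (h * X)) * (Real.log q / H)) := by
        refine mul_le_mul_of_nonneg_right hAinv (by positivity)
    _ = _ := by field_simp; ring

end Pool.Agent.H447R2.ML
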