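import Mathlib
import Pool.Agent.H447R2.ML.P2

set_option autoImplicit false

/-!
# One-parameter families: change of variables and the pair bound
-/

namespace Pool.Agent.H447R2.ML

open Filter Topology MeasureTheory
open Pool.Agent.H305R2 (roughPart ff measurable_ff ff_nonneg ff_le_one integrableOn_ff NN
  mem_Ioc_log bounds)

/-- local hypotheses on a phase function -/
structure Loc (a0 a1 D : ℝ) (p : ℕ) (y y' : ℝ → ℝ) : Prop where
  near : ∀ t ∈ Set.Icc a0 a1, |y t - p * t| ≤ D
  der : ∀ t ∈ Set.Icc a0 a1, HasDerivAt y (y' t) t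
  slope : ∀ t ∈ Set.Icc a0 a1, |y' t - p| ≤ D

section one

variable {a0 a1 D : ℝ} {p : ℕ} {y y' : ℝ → ℝ} (h : Loc a0 a1 D p y y') (hp : 3 * D < p)
  (hD : 0 ≤ D)
include h

lemma Loc.cont : ContinuousOn y (Set.Icc a0 a1) := fun t ht => (h.der t ht).continuousAt.continuousWithinAt

include hp hD

lemma Loc.mvt {s t : ℝ} (hs : a0 ≤ s) (hst : s ≤ t) (ht : t ≤ a1) :
    (p - D) * (t - s) ≤ y t - y s ∧ y t - y s ≤ (p + D) * (t - s) := by
  rcases hst.eq_or_lt with rfl | hlt
  · simp
  · obtain ⟨c, hc, he⟩ := exists_hasDerivAt_eq_slope y y' hlt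
      (h.cont.mono (Set.Icc_subset_Icc hs ht))
      (fun x hx => h.der x ⟨hs.trans hx.1.le, hx.2.le.trans ht⟩)
    have h1 := abs_le.1 (h.slope c ⟨hs.trans hc.1.le, hc.2.le.trans ht⟩)
    have h2 : 0 < t - s := by linarith
    have h3 : y t - y s = y' c * (t - s) := by rw [he]; field_simp
    rw [h3]
    constructor
    · exact mul_le_mul_of_nonneg_right (by linarith) h2.le
    · exact mul_le_mul_of_nonneg_right (by linarith) h2.le

lemma Loc.strict : StrictMonoOn y (Set.Icc a0 a1) := by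
  intro s hs t ht hst
  have h1 := (h.mvt hp hD hs.1 hst.le ht.2).1
  have h2 : 0 < (p - D) * (t - s) := mul_pos (by linarith) (by linarith)
  linarith

lemma Loc.image {s t : ℝ} (hs : a0 ≤ s) (hst : s ≤ t) (ht : t ≤ a1) :
    y '' Set.Ioc s t = Set.Ioc (y s) (y t) := by
  have hsm := h.strict hp hD
  have hsI : s ∈ Set.Icc a0 a1 := ⟨hs, hst.trans ht⟩
  have htI : t ∈ Set.Icc a0 a1 := ⟨hs.trans hst, ht⟩
  ext u
  constructor
  · rintro ⟨x, hx, rfl⟩
    have hxI : x ∈ Set.Icc a0 a1 := ⟨hs.trans hx.1.le, hx.2.trans ht⟩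
    exact ⟨hsm hsI hxI hx.1, hsm.monotoneOn hxI htI hx.2⟩
  · intro hu
    obtain ⟨x, hx, he⟩ := intermediate_value_Icc hst (h.cont.mono (Set.Icc_subset_Icc hs ht))
      (Set.Ioc_subset_Icc_self hu)
    refine ⟨x, ⟨lt_of_le_of_ne hx.1 ?_, hx.2⟩, he⟩
    rintro rfl
    rw [he] at hu
    exact lt_irrefl _ hu.1

lemma Loc.cov {s t : ℝ} (hs : a0 ≤ s) (hst : s ≤ t) (ht : t ≤ a1) {F : ℝ → ℝ} (hF : Measurable F)
    (hF0 : ∀ x, 0 ≤ F x) (hF1 : ∀ x, F x ≤ 1) :
    (p - D) * ∫ x in Set.Ioc s t, F (y x) ≤ ∫ u in Set.Ioc (y s) (y t), F u ∧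
    ∫ u in Set.Ioc (y s) (y t), F u ≤ (p + D) * ∫ x in Set.Ioc s t, F (y x) := by
  have hsub : Set.Ioc s t ⊆ Set.Icc a0 a1 := fun x hx => ⟨hs.trans hx.1.le, hx.2.trans ht⟩
  have hymeas : AEStronglyMeasurable (fun x => F (y x)) (volume.restrict (Set.Ioc s t)) := by
    have h1 : AEMeasurable y (volume.restrict (Set.Ioc s t)) :=
      (h.cont.mono hsub).aemeasurable measurableSet_Ioc
    exact (hF.comp_aemeasurable h1).aestronglyMeasurable
  have hint : IntegrableOn (fun x => F (y x)) (Set.Ioc s t) := by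
    refine Integrable.of_bound hymeas 1 ?_
    exact Eventually.of_forall fun x => by
      rw [Real.norm_eq_abs, abs_of_nonneg (hF0 _)]; exact hF1 _
  have hIoc : IntegrableOn F (Set.Ioc (y s) (y t)) := by
    refine Measure.integrableOn_of_bounded (M := 1) (by simp) hF.aestronglyMeasurable ?_
    exact Eventually.of_forall fun x => by
      rw [Real.norm_eq_abs, abs_of_nonneg (hF0 _)]; exact hF1 _
  have himg := h.image hp hD hs hst ht
  have hder : ∀ x ∈ Set.Ioc s t, HasDerivWithinAt y (y' x) (Set.Ioc s t) x :=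
    fun x hx => (h.der x (hsub hx)).hasDerivWithinAt
  have hinj : Set.InjOn y (Set.Ioc s t) := (h.strict hp hD).injOn.mono hsub
  have hint2 : IntegrableOn (fun x => |y' x| • F (y x)) (Set.Ioc s t) := by
    rw [← integrableOn_image_iff_integrableOn_abs_deriv_smul measurableSet_Ioc hder hinj, himg]
    exact hIoc
  have hcov := integral_image_eq_integral_abs_deriv_smul measurableSet_Ioc hder hinj F
  rw [himg] at hcov
  have habs : ∀ x ∈ Set.Ioc s t, (p - D) ≤ |y' x| ∧ |y' x| ≤ p + D := by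
    intro x hx
    have h1 := abs_le.1 (h.slope x (hsub hx))
    rw [abs_of_pos (show 0 < y' x by linarith)]
    constructor <;> linarith
  rw [hcov, ← integral_const_mul, ← integral_const_mul]
  constructor
  · refine setIntegral_mono_on (hint.const_mul _) hint2 measurableSet_Ioc fun x hx => ?_
    rw [smul_eq_mul]
    exact mul_le_mul_of_nonneg_right (habs x hx).1 (hF0 _)
  · refine setIntegral_mono_on hint2 (hint.const_mul _) measurableSet_Ioc fun x hx => ?_
    rw [smul_eq_mul]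
    exact mul_le_mul_of_nonneg_right (habs x hx).2 (hF0 _)

lemma Loc.integrable (F : ℝ → ℝ) (hF : Measurable F)
    (hF0 : ∀ x, 0 ≤ F x) (hF1 : ∀ x, F x ≤ 1) : IntegrableOn (fun x => F (y x)) (Set.Icc a0 a1) := by
  refine Integrable.of_bound
    (hF.comp_aemeasurable (h.cont.aemeasurable measurableSet_Icc)).aestronglyMeasurable 1 ?_
  exact Eventually.of_forall fun x => by
    change ‖F (y x)‖ ≤ 1
    rw [Real.norm_eq_abs, abs_of_nonneg (hF0 _)]; exact hF1 _

end one

/-- upper bound for a single index -/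
lemma single_upper {a0 D : ℝ} (ha0 : 0 < a0) (hD : 0 ≤ D) : ∃ K : ℝ, 0 < K ∧ ∃ P : ℕ, ∀ p ≥ P,
    ∀ a1 : ℝ, ∀ y y' : ℝ → ℝ, Loc a0 a1 D p y y' → ∀ s t : ℝ, a0 ≤ s → s ≤ t → t ≤ a1 →
    ∫ x in Set.Ioc s t, ff p (y x) ≤ K * ((t - s) + 1 / p) * (Real.log p / p) := by
  obtain ⟨K, hK, hev⟩ := bounds (c := a0 / 2) (by positivity)
  refine ⟨3 * K, by positivity, ?_⟩
  have hlarge : ∀ᶠ p : ℕ in atTop, 3 * D + (D + 1) * 2 / a0 + 1 < p :=
    tendsto_natCast_atTop_atTop.eventually_gt_atTop _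
  obtain ⟨P, hP⟩ := eventually_atTop.1 (hev.and hlarge)
  refine ⟨P, fun p hp a1 y y' h s t hs hst ht => ?_⟩
  obtain ⟨⟨_, hb, _, _⟩, hpl⟩ := hP p hp
  have h1 : 0 ≤ (D + 1) * 2 / a0 := by positivity
  have hp3 : 3 * D < p := by linarith
  have hp1 : (1 : ℝ) < p := by linarith
  have hp0 : (0 : ℝ) < p := by linarith
  have hlog : 0 ≤ Real.log p / p := div_nonneg (Real.log_nonneg hp1.le) hp0.le
  have hnear := abs_le.1 (h.near s ⟨hs, hst.trans ht⟩)
  have hlow : a0 / 2 * p + 1 ≤ y s := by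
    have h2 : (D + 1) * 2 / a0 < p := by linarith
    rw [div_lt_iff₀ ha0] at h2
    have h3 : a0 * p ≤ p * s := by nlinarith
    nlinarith
  have hmvt := h.mvt hp3 hD hs hst ht
  have hyst : y s ≤ y t := by
    have : 0 ≤ (p - D) * (t - s) := mul_nonneg (by linarith) (by linarith)
    linarith
  have hb' := hb (y s) (y t) hlow hyst
  have hc := (h.cov hp3 hD hs hst ht (measurable_ff p) (ff_nonneg p) (ff_le_one p)).1
  have hpD : 0 < p - D := by linarith
  have h4 : (p - D) * ∫ x in Set.Ioc s t, ff p (y x) ≤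
      (p - D) * (3 * K * ((t - s) + 1 / p) * (Real.log p / p)) := by
    refine hc.trans (hb'.trans ?_)
    have h5 : (y t - y s) + 1 / p ≤ (p - D) * (3 * ((t - s) + 1 / p)) := by
      have h6 : (p + D) * (t - s) ≤ (p - D) * 3 * (t - s) :=
        mul_le_mul_of_nonneg_right (by linarith) (by linarith)
      have h7 : 1 / (p : ℝ) ≤ (p - D) * 3 * (1 / p) := by
        have : 0 < 1 / (p : ℝ) := by positivity
        nlinarith
      nlinarith [hmvt.2]
    calc K * (y t - y s + 1 / p) * (Real.log p / p) ≤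
        K * ((p - D) * (3 * ((t - s) + 1 / p))) * (Real.log p / p) := by
          gcongr
      _ = _ := by ring
  exact le_of_mul_le_mul_left h4 hpD

/-- the bound on one cell -/
lemma cell {a0 D : ℝ} (ha0 : 0 < a0) (hD : 0 ≤ D) : ∃ K : ℝ, 0 < K ∧ ∃ P : ℕ, ∀ p q : ℕ, P ≤ p →
    p < q → ∀ a1 : ℝ, ∀ y y' z z' : ℝ → ℝ, Loc a0 a1 D p y y' → Loc a0 a1 D q z z' →
    64 / a0 * (Real.log q * Real.log (Real.log q)) ≤ q - p →
    ∀ s t : ℝ, a0 ≤ s → s ≤ t → t ≤ a1 → ∀ N : ℕ, 1 ≤ N → y s = Real.log N →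
    y t = Real.log ((N + 1 : ℕ) : ℝ) →
    ∫ x in Set.Ioc s t, ff q (z x) ≤ K * (t - s) * (Real.log q / (q - p)) := by
  obtain ⟨K1, hK1, hev1⟩ := short_interval
  obtain ⟨K2, hK2, hev2⟩ := bounds (c := a0 / 2) (by positivity)
  refine ⟨3 * (2 * K1 / a0 + 2 * K2), by positivity, ?_⟩
  have hlarge : ∀ᶠ p : ℕ in atTop, 3 * D + (D + 1) * 2 / a0 + 1 < p :=
    tendsto_natCast_atTop_atTop.eventually_gt_atTop _
  have hll : ∀ᶠ q : ℕ in atTop, 1 ≤ Real.log (Real.log q) :=
    (Real.tendsto_log_atTop.comp Pool.Agent.H305R2.log_nat_tendsto).eventually_ge_atTop 1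
  have hl : ∀ᶠ q : ℕ in atTop, 2 * D + 2 ≤ Real.log q :=
    Pool.Agent.H305R2.log_nat_tendsto.eventually_ge_atTop _
  obtain ⟨P, hP⟩ := eventually_atTop.1 (hev1.and (hev2.and (hlarge.and (hll.and hl))))
  refine ⟨P, fun p q hp hpq a1 y y' z z' hy hz hgap s t hs hst ht N hN hsN htN => ?_⟩
  obtain ⟨h1, ⟨_, h2, _, _⟩, h3, h4, h5⟩ := hP q (by omega)
  obtain ⟨_, _, h3p, _, _⟩ := hP p hp
  have hq0' : 0 ≤ (D + 1) * 2 / a0 := by positivity
  have hpq' : (p : ℝ) < q := by exact_mod_cast hpq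
  have hp3 : 3 * D < p := by linarith
  have hq3 : 3 * D < q := by linarith
  have hq0 : (0 : ℝ) < q := by linarith
  have hlq : 0 < Real.log q := by linarith
  have hqp : (0 : ℝ) < q - p := by linarith
  have hL : 0 ≤ Real.log q / (q - p) := by positivity
  have hN0 : (0 : ℝ) < N := by exact_mod_cast hN
  have hN1 : (1 : ℝ) ≤ N := by exact_mod_cast hN
  have hstI : s < t := by
    rcases hst.eq_or_lt with rfl | h
    · exfalso
      rw [hsN] at htN
      have h6 : (N : ℝ) = ((N + 1 : ℕ) : ℝ) := Real.log_injOn_pos hN0 (Set.mem_Ioi.2 (by positivity)) htN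
      push_cast at h6
      linarith
    · exact h
  have hts : 0 < t - s := by linarith
  set u := z s with hu
  set hh := z t - z s with hhdef
  have hmz := hz.mvt hq3 hD hs hst ht
  have hmy := hy.mvt hp3 hD hs hst ht
  have hhpos : 0 < hh := by
    have : 0 < (q - D) * (t - s) := mul_pos (by linarith) hts
    linarith [hmz.1]
  -- lower bound for hh
  have hlogN : 1 / ((N : ℝ) + 1) ≤ Real.log ((N + 1 : ℕ) : ℝ) - Real.log N := by
    rw [← Real.log_div (by positivity) hN0.ne']
    have h6 := Real.one_sub_inv_le_log_of_pos (show (0 : ℝ) < ((N + 1 : ℕ) : ℝ) / N by positivity)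
    have h7 : 1 - (((N + 1 : ℕ) : ℝ) / N)⁻¹ = 1 / ((N : ℝ) + 1) := by push_cast; field_simp; ring
    linarith
  have hh4 : 1 / (4 * (N : ℝ)) ≤ hh := by
    have h8 : 1 / (2 * (N : ℝ)) ≤ 1 / ((N : ℝ) + 1) :=
      one_div_le_one_div_of_le (by positivity) (by linarith)
    have h9 : 1 / (2 * (N : ℝ)) ≤ (p + D) * (t - s) := by
      rw [← hsN, ← htN] at hlogN
      linarith [hmy.2]
    have h10 : (p + D) * (t - s) ≤ 2 * ((q - D) * (t - s)) := by
      have : (p + D) ≤ 2 * (q - D) := by linarith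
      nlinarith
    have h11 : 1 / (4 * (N : ℝ)) = 1 / (2 * (N : ℝ)) / 2 := by field_simp; norm_num
    rw [h11]
    linarith [hmz.1]
  -- the exponent
  have hH : (q - p) * a0 / 2 ≤ u + Real.log hh := by
    have h6 : Real.log (1 / (4 * (N : ℝ))) ≤ Real.log hh := Real.log_le_log (by positivity) hh4
    rw [one_div, Real.log_inv, Real.log_mul (by norm_num) hN0.ne', ← hsN] at h6
    have h7 := abs_le.1 (hy.near s ⟨hs, hst.trans ht⟩)
    have h8 := abs_le.1 (hz.near s ⟨hs, hst.trans ht⟩)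
    have h9 : Real.log 4 ≤ 2 := by
      have : Real.log 4 = 2 * Real.log 2 := by
        rw [show (4 : ℝ) = 2 ^ 2 by norm_num, Real.log_pow]; norm_num
      have := Real.log_two_lt_d9
      linarith
    have h10 : (q - p) * a0 ≤ (q - p) * s := mul_le_mul_of_nonneg_left hs hqp.le
    have h11 : 2 * D + 2 ≤ (q - p) * a0 / 2 := by
      have h12 : 64 / a0 * (Real.log q * Real.log (Real.log q)) * a0 ≤ (q - p) * a0 :=
        mul_le_mul_of_nonneg_right hgap ha0.le
      have h13 : 64 / a0 * (Real.log q * Real.log (Real.log q)) * a0 =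
          64 * (Real.log q * Real.log (Real.log q)) := by field_simp
      rw [h13] at h12
      have h14 : Real.log q ≤ Real.log q * Real.log (Real.log q) := by
        nlinarith
      nlinarith
    rw [hu]
    nlinarith [h7.1, h7.2, h8.1, h8.2]
  have hH32 : 32 * (Real.log q * Real.log (Real.log q)) ≤ u + Real.log hh := by
    refine le_trans ?_ hH
    have h12 : 64 / a0 * (Real.log q * Real.log (Real.log q)) * a0 ≤ (q - p) * a0 :=
      mul_le_mul_of_nonneg_right hgap ha0.le
    have h13 : 64 / a0 * (Real.log q * Real.log (Real.log q)) * a0 =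
        64 * (Real.log q * Real.log (Real.log q)) := by field_simp
    rw [h13] at h12
    linarith
  have hmain : ∫ v in Set.Ioc (z s) (z t), ff q v ≤
      (2 * K1 / a0 + 2 * K2) * hh * (Real.log q / (q - p)) := by
    rcases le_or_gt hh 1 with hle | hgt
    · have h6 := h1 u hh hhpos hle hH32
      have e : u + hh = z t := by rw [hu, hhdef]; ring
      rw [e] at h6
      refine h6.trans ?_
      have h7 : Real.log q / (u + Real.log hh) ≤ 2 / a0 * (Real.log q / (q - p)) := by
        have h8 : 2 / a0 * (Real.log q / (q - p)) = Real.log q / ((q - p) * a0 / 2) := by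
          field_simp
        rw [h8]
        exact div_le_div_of_nonneg_left hlq.le (by positivity) hH
      calc K1 * hh * (Real.log q / (u + Real.log hh)) ≤
          K1 * hh * (2 / a0 * (Real.log q / (q - p))) := by gcongr
        _ = 2 * K1 / a0 * hh * (Real.log q / (q - p)) := by ring
        _ ≤ _ := by
          have : 0 ≤ 2 * K2 * hh * (Real.log q / (q - p)) := by positivity
          nlinarith
    · have hnear := abs_le.1 (hz.near s ⟨hs, hst.trans ht⟩)
      have hlow : a0 / 2 * q + 1 ≤ z s := by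
        have h6 : (D + 1) * 2 / a0 < q := by linarith
        rw [div_lt_iff₀ ha0] at h6
        have h7 : a0 * q ≤ q * s := by nlinarith
        nlinarith
      have h6 := h2 (z s) (z t) hlow (by linarith)
      refine h6.trans ?_
      have h7 : 1 / (q : ℝ) ≤ hh := by
        have : 1 / (q : ℝ) ≤ 1 := by rw [div_le_one hq0]; linarith
        linarith
      have h8 : Real.log q / q ≤ Real.log q / (q - p) :=
        div_le_div_of_nonneg_left hlq.le hqp (by
          have : (0 : ℝ) ≤ p := Nat.cast_nonneg p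
          linarith)
      calc K2 * (z t - z s + 1 / q) * (Real.log q / q) ≤ K2 * (2 * hh) * (Real.log q / (q - p)) := by
            gcongr
            linarith
        _ = 2 * K2 * hh * (Real.log q / (q - p)) := by ring
        _ ≤ _ := by
          have : 0 ≤ 2 * K1 / a0 * hh * (Real.log q / (q - p)) := by positivity
          nlinarith
  have hc := (hz.cov hq3 hD hs hst ht (measurable_ff q) (ff_nonneg q) (ff_le_one q)).1
  have hqD : 0 < (q : ℝ) - D := by linarith
  refine le_of_mul_le_mul_left (hc.trans (hmain.trans ?_)) hqD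
  have h6 : hh ≤ (q - D) * (3 * (t - s)) := by
    have : (q + D) * (t - s) ≤ (q - D) * 3 * (t - s) :=
      mul_le_mul_of_nonneg_right (by linarith) hts.le
    linarith [hmz.2]
  calc (2 * K1 / a0 + 2 * K2) * hh * (Real.log q / (q - p)) ≤
      (2 * K1 / a0 + 2 * K2) * ((q - D) * (3 * (t - s))) * (Real.log q / (q - p)) := by gcongr
    _ = _ := by ring

end Pool.Agent.H447R2.ML
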