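import Mathlib
import Pool.Agent.H447R2.ML.P3

set_option autoImplicit false

/-!
# One-parameter families: the pair bound
-/

namespace Pool.Agent.H447R2.ML

open Filter Topology MeasureTheory
open Pool.Agent.H305R2 (roughPart ff measurable_ff ff_nonneg ff_le_one integrableOn_ff NN
  mem_Ioc_log bounds)

lemma prod_integrable {a0 a1 D : ℝ} {p q : ℕ} {y y' z z' : ℝ → ℝ} (hy : Loc a0 a1 D p y y')
    (hz : Loc a0 a1 D q z z') :
    IntegrableOn (fun x => ff p (y x) * ff q (z x)) (Set.Icc a0 a1) := by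
  refine Integrable.of_bound ?_ 1 ?_
  · exact (((measurable_ff p).comp_aemeasurable (hy.cont.aemeasurable measurableSet_Icc)).mul
      ((measurable_ff q).comp_aemeasurable (hz.cont.aemeasurable measurableSet_Icc))).aestronglyMeasurable
  · exact Eventually.of_forall fun x => by
      have h1 := ff_nonneg p (y x)
      have h2 := ff_nonneg q (z x)
      have h3 := ff_le_one p (y x)
      have h4 := ff_le_one q (z x)
      rw [Real.norm_eq_abs, abs_of_nonneg (mul_nonneg h1 h2)]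
      nlinarith

lemma one_integrable {a0 a1 D : ℝ} {p : ℕ} {y y' : ℝ → ℝ} (hy : Loc a0 a1 D p y y') :
    IntegrableOn (fun x => ff p (y x)) (Set.Icc a0 a1) := by
  refine Integrable.of_bound ?_ 1 ?_
  · exact ((measurable_ff p).comp_aemeasurable (hy.cont.aemeasurable measurableSet_Icc)).aestronglyMeasurable
  · exact Eventually.of_forall fun x => by
      rw [Real.norm_eq_abs, abs_of_nonneg (ff_nonneg p _)]; exact ff_le_one p _

theorem pair_bound {a0 a1 D b0 b1 : ℝ} (ha0 : 0 < a0) (hD : 0 ≤ D) (hb0 : a0 < b0) (hb1 : b1 < a1) :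
    ∃ K : ℝ, 0 < K ∧ ∃ P : ℕ, ∀ p q : ℕ, P ≤ p → p < q → ∀ y y' z z' : ℝ → ℝ,
    Loc a0 a1 D p y y' → Loc a0 a1 D q z z' →
    64 / a0 * (Real.log q * Real.log (Real.log q)) ≤ q - p →
    ∀ s t : ℝ, b0 ≤ s → s ≤ t → t ≤ b1 →
    ∫ x in Set.Ioc s t, ff p (y x) * ff q (z x) ≤
      K * ((t - s) + 1 / p) * (Real.log p / p) * (Real.log q / (q - p)) := by
  obtain ⟨K1, hK1, P1, h1⟩ := cell ha0 hD
  obtain ⟨K2, hK2, P2, h2⟩ := single_upper ha0 hD
  refine ⟨5 * (K1 * K2), by positivity, ?_⟩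
  have hlarge : ∀ᶠ p : ℕ in atTop, 3 * D + 1 / (b0 - a0) + 1 / (a1 - b1) + D + 1 + D / a0 < p :=
    tendsto_natCast_atTop_atTop.eventually_gt_atTop _
  obtain ⟨P3, hP3⟩ := eventually_atTop.1 (hlarge.and (eventually_ge_atTop (max P1 P2)))
  refine ⟨P3, fun p q hp hpq y y' z z' hy hz hgap s t hs hst ht => ?_⟩
  obtain ⟨hpl, hpm⟩ := hP3 p hp
  have hb0' : 0 < b0 - a0 := by linarith
  have hb1' : 0 < a1 - b1 := by linarith
  have e1 : 0 < 1 / (b0 - a0) := by positivity
  have e2 : 0 < 1 / (a1 - b1) := by positivity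
  have e5 : 0 ≤ D / a0 := by positivity
  have hp3 : 3 * D < p := by linarith
  have hp0 : (0 : ℝ) < p := by linarith
  have hp1 : (1 : ℝ) < p := by linarith
  have hpD : 0 < (p : ℝ) - D := by linarith
  have hpq' : (p : ℝ) < q := by exact_mod_cast hpq
  have hlogp : 0 ≤ Real.log p / p := div_nonneg (Real.log_nonneg hp1.le) hp0.le
  have hL : 0 ≤ Real.log q / (q - p) :=
    div_nonneg (Real.log_nonneg (by linarith)) (by linarith)
  have hsI : s ∈ Set.Icc a0 a1 := ⟨by linarith, by linarith⟩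
  have htI : t ∈ Set.Icc a0 a1 := ⟨by linarith, by linarith⟩
  have ha0I : a0 ∈ Set.Icc a0 a1 := ⟨le_rfl, by linarith⟩
  have ha1I : a1 ∈ Set.Icc a0 a1 := ⟨by linarith, le_rfl⟩
  have hmono := hy.strict hp3 hD
  -- margins
  have hm1 : y a0 ≤ y s - 1 := by
    have h3 := (hy.mvt hp3 hD (le_refl a0) (by linarith : a0 ≤ s) (by linarith)).1
    have h4 : 1 / (b0 - a0) ≤ p - D := by linarith
    rw [div_le_iff₀ hb0'] at h4
    nlinarith
  have hm2 : y t + 1 ≤ y a1 := by
    have h3 := (hy.mvt hp3 hD (by linarith : a0 ≤ t) (by linarith : t ≤ a1) le_rfl).1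
    have h4 : 1 / (a1 - b1) ≤ p - D := by linarith
    rw [div_le_iff₀ hb1'] at h4
    nlinarith
  have hyst : y s ≤ y t := hmono.monotoneOn hsI htI hst
  have hya0 : 0 ≤ y a0 := by
    have h3 := abs_le.1 (hy.near a0 ha0I)
    have h4 : D / a0 ≤ p := by linarith
    rw [div_le_iff₀ ha0] at h4
    linarith [h3.1]
  have hys1 : 1 ≤ y s := by linarith
  set N0 := ⌊Real.exp (y s)⌋₊ with hN0
  set N1 := ⌊Real.exp (y t)⌋₊ with hN1
  have hN0p : 1 ≤ N0 := Nat.floor_pos.2 (Real.one_le_exp (by linarith))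
  have hN01 : N0 ≤ N1 := Nat.floor_mono (Real.exp_le_exp.2 hyst)
  have hN0r : (1 : ℝ) ≤ N0 := by exact_mod_cast hN0p
  have hN1r : (1 : ℝ) ≤ N1 := by exact_mod_cast hN0p.trans hN01
  have hl0 : Real.log N0 ≤ y s := by
    rw [Real.log_le_iff_le_exp (by linarith)]
    exact Nat.floor_le (Real.exp_pos _).le
  have hl1 : y t ≤ Real.log ((N1 + 1 : ℕ) : ℝ) := by
    rw [Real.le_log_iff_exp_le (by positivity)]
    push_cast
    exact (Nat.lt_floor_add_one _).le
  have hexp1 : (2 : ℝ) ≤ Real.exp 1 := by have := Real.exp_one_gt_d9; linarith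
  have hl0' : y s - 1 ≤ Real.log N0 := by
    rw [Real.le_log_iff_exp_le (by linarith), Real.exp_sub, div_le_iff₀ (Real.exp_pos 1)]
    have := Nat.lt_floor_add_one (Real.exp (y s))
    rw [← hN0] at this
    nlinarith
  have hl1' : Real.log ((N1 + 1 : ℕ) : ℝ) ≤ y t + 1 := by
    rw [Real.log_le_iff_le_exp (by positivity), Real.exp_add]
    push_cast
    have : (N1 : ℝ) ≤ Real.exp (y t) := Nat.floor_le (Real.exp_pos _).le
    nlinarith [Real.exp_pos (y t)]
  -- division points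
  have hex : ∀ N : ℕ, N0 ≤ N → N ≤ N1 + 1 → ∃ x ∈ Set.Icc a0 a1, y x = Real.log N := by
    intro N h3 h4
    have h5 : y a0 ≤ Real.log N := by
      have : Real.log N0 ≤ Real.log N := Real.log_le_log (by linarith) (by exact_mod_cast h3)
      linarith
    have h6 : Real.log N ≤ y a1 := by
      have : Real.log N ≤ Real.log ((N1 + 1 : ℕ) : ℝ) := Real.log_le_log (by
        have : (N0 : ℝ) ≤ N := by exact_mod_cast h3
        linarith) (by exact_mod_cast h4)
      linarith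
    obtain ⟨x, hx, he⟩ := intermediate_value_Icc (by linarith : a0 ≤ a1) hy.cont ⟨h5, h6⟩
    exact ⟨x, hx, he⟩
  choose! τ hτI hτ using hex
  have hτlt : ∀ N : ℕ, N0 ≤ N → N < N1 + 1 → τ N < τ (N + 1) := by
    intro N h3 h4
    rw [← hmono.lt_iff_lt (hτI N h3 h4.le) (hτI (N + 1) (by omega) h4), hτ N h3 h4.le,
      hτ (N + 1) (by omega) h4]
    have : (N0 : ℝ) ≤ N := by exact_mod_cast h3
    exact Real.log_lt_log (by linarith) (by push_cast; linarith)
  have hτ0 : τ N0 ≤ s := by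
    rw [← hmono.le_iff_le (hτI N0 le_rfl (by omega)) hsI, hτ N0 le_rfl (by omega)]
    exact hl0
  have hτ1 : t ≤ τ (N1 + 1) := by
    rw [← hmono.le_iff_le htI (hτI (N1 + 1) (by omega) le_rfl), hτ (N1 + 1) (by omega) le_rfl]
    exact hl1
  have hτ0I := hτI N0 le_rfl (by omega)
  have hτ1I := hτI (N1 + 1) (by omega) le_rfl
  have hτ0' : s - τ N0 ≤ 2 / p := by
    have h3 := (hy.mvt hp3 hD hτ0I.1 hτ0 hsI.2).1
    rw [hτ N0 le_rfl (by omega)] at h3
    rw [le_div_iff₀ hp0]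
    nlinarith
  have hτ1' : τ (N1 + 1) - t ≤ 2 / p := by
    have h3 := (hy.mvt hp3 hD htI.1 hτ1 hτ1I.2).1
    rw [hτ (N1 + 1) (by omega) le_rfl] at h3
    rw [le_div_iff₀ hp0]
    nlinarith
  -- enlarge
  have hGint := prod_integrable hy hz
  have hFint := one_integrable hy
  have hZint := one_integrable hz
  have hbig : ∫ x in Set.Ioc s t, ff p (y x) * ff q (z x) ≤
      ∫ x in Set.Ioc (τ N0) (τ (N1 + 1)), ff p (y x) * ff q (z x) := by
    refine setIntegral_mono_set ?_ ?_ ?_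
    · exact hGint.mono_set (fun x hx => ⟨hτ0I.1.trans hx.1.le, hx.2.trans hτ1I.2⟩)
    · exact Eventually.of_forall fun x => mul_nonneg (ff_nonneg p _) (ff_nonneg q _)
    · exact (Set.Ioc_subset_Ioc hτ0 hτ1).eventuallyLE
  have hsubN : ∀ N ∈ Set.Ico N0 (N1 + 1), Set.Ioc (τ N) (τ (N + 1)) ⊆ Set.Icc a0 a1 := by
    intro N hN x hx
    exact ⟨(hτI N hN.1 hN.2.le).1.trans hx.1.le, hx.2.trans (hτI (N + 1) (by have := hN.1; omega) hN.2).2⟩
  have hiiG : ∀ N ∈ Set.Ico N0 (N1 + 1), IntervalIntegrable (fun x => ff p (y x) * ff q (z x)) volume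
      (τ N) (τ (N + 1)) := by
    intro N hN
    rw [intervalIntegrable_iff_integrableOn_Ioc_of_le (hτlt N hN.1 hN.2).le]
    exact hGint.mono_set (hsubN N hN)
  have hiiF : ∀ N ∈ Set.Ico N0 (N1 + 1), IntervalIntegrable (fun x => ff p (y x)) volume
      (τ N) (τ (N + 1)) := by
    intro N hN
    rw [intervalIntegrable_iff_integrableOn_Ioc_of_le (hτlt N hN.1 hN.2).le]
    exact hFint.mono_set (hsubN N hN)
  have hsumG := intervalIntegral.sum_integral_adjacent_intervals_Ico (a := τ) (m := N0) (n := N1 + 1)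
    (by omega) hiiG
  have hsumF := intervalIntegral.sum_integral_adjacent_intervals_Ico (a := τ) (m := N0) (n := N1 + 1)
    (by omega) hiiF
  have hττ : τ N0 ≤ τ (N1 + 1) := hτ0.trans (hst.trans hτ1)
  rw [intervalIntegral.integral_of_le hττ] at hsumG hsumF
  -- each cell
  have hcell : ∀ N ∈ Finset.Ico N0 (N1 + 1), ∫ x in (τ N)..(τ (N + 1)), ff p (y x) * ff q (z x) ≤
      K1 * (Real.log q / (q - p)) * ∫ x in (τ N)..(τ (N + 1)), ff p (y x) := by
    intro N hN
    rw [Finset.mem_Ico] at hN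
    have hlt := hτlt N hN.1 hN.2
    rw [intervalIntegral.integral_of_le hlt.le, intervalIntegral.integral_of_le hlt.le]
    have hNp : 1 ≤ N := hN0p.trans hN.1
    set g : ℝ := if (roughPart p N).Prime then 1 else 0 with hg
    have hval : ∀ x ∈ Set.Ioc (τ N) (τ (N + 1)), ff p (y x) = g := by
      intro x hx
      have hxI := hsubN N hN hx
      have h3 : NN (y x) = N := by
        rw [← mem_Ioc_log hNp, ← hτ N hN.1 hN.2.le, ← hτ (N + 1) (by omega) hN.2]
        exact ⟨hmono (hτI N hN.1 hN.2.le) hxI hx.1,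
          hmono.monotoneOn hxI (hτI (N + 1) (by omega) hN.2) hx.2⟩
      unfold ff
      rw [h3]
    have e3 : ∫ x in Set.Ioc (τ N) (τ (N + 1)), ff p (y x) * ff q (z x) =
        g * ∫ x in Set.Ioc (τ N) (τ (N + 1)), ff q (z x) := by
      rw [← integral_const_mul]
      exact setIntegral_congr_fun measurableSet_Ioc fun x hx => by
        rw [hval x hx]
    have e4 : ∫ x in Set.Ioc (τ N) (τ (N + 1)), ff p (y x) = (τ (N + 1) - τ N) * g := by
      rw [setIntegral_congr_fun measurableSet_Ioc (g := fun _ => g) fun x hx => hval x hx,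
        setIntegral_const, smul_eq_mul, Real.volume_real_Ioc_of_le hlt.le]
    have hc := h1 p q ((le_max_left _ _).trans hpm) hpq a1 y y' z z' hy hz hgap (τ N) (τ (N + 1))
      (hτI N hN.1 hN.2.le).1 hlt.le (hτI (N + 1) (by omega) hN.2).2 N hNp
      (hτ N hN.1 hN.2.le) (hτ (N + 1) (by omega) hN.2)
    have hg0 : 0 ≤ g := by rw [hg]; split_ifs <;> norm_num
    rw [e3, e4]
    calc g * ∫ x in Set.Ioc (τ N) (τ (N + 1)), ff q (z x) ≤
        g * (K1 * (τ (N + 1) - τ N) * (Real.log q / (q - p))) := mul_le_mul_of_nonneg_left hc hg0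
      _ = _ := by ring
  have hsum : ∫ x in Set.Ioc (τ N0) (τ (N1 + 1)), ff p (y x) * ff q (z x) ≤
      K1 * (Real.log q / (q - p)) * ∫ x in Set.Ioc (τ N0) (τ (N1 + 1)), ff p (y x) := by
    rw [← hsumG, ← hsumF, Finset.mul_sum]
    exact Finset.sum_le_sum hcell
  have hsingle := h2 p ((le_max_right _ _).trans hpm) a1 y y' hy (τ N0) (τ (N1 + 1)) hτ0I.1 hττ hτ1I.2
  have h5 : τ (N1 + 1) - τ N0 + 1 / p ≤ 5 * ((t - s) + 1 / p) := by
    have h6 : (2 : ℝ) / p = 2 * (1 / p) := by ring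
    rw [h6] at hτ0' hτ1'
    linarith
  calc ∫ x in Set.Ioc s t, ff p (y x) * ff q (z x) ≤
      K1 * (Real.log q / (q - p)) * ∫ x in Set.Ioc (τ N0) (τ (N1 + 1)), ff p (y x) := hbig.trans hsum
    _ ≤ K1 * (Real.log q / (q - p)) * (K2 * (τ (N1 + 1) - τ N0 + 1 / p) * (Real.log p / p)) := by
        gcongr
    _ ≤ K1 * (Real.log q / (q - p)) * (K2 * (5 * ((t - s) + 1 / p)) * (Real.log p / p)) := by
        gcongr
    _ = _ := by ring

end Pool.Agent.H447R2.ML
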