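import Mathlib
import Pool.Agent.Erdos456.Iface
import Pool.Agent.Erdos456.Smooth2
import Pool.Agent.H305R2.AE2

set_option autoImplicit false

/-!
# Sums over pairs of primes
-/

namespace Pool.Agent.H447R2.ML

open Finset Filter Topology
open Pool.Agent.Erdos456 (GG sieve_two' sum_GG_sq_div_le)
open Pool.Agent.H305R2 (mertens_ratio log_nat_tendsto)

lemma sumGG : ∃ C : ℝ, 0 < C ∧ ∀ B : ℕ,
    ∑ b ∈ Finset.Icc 1 B, GG b ^ 2 * (b : ℝ)⁻¹ ≤ C * (1 + Real.log B) := by
  obtain ⟨C, hC, h⟩ := sum_GG_sq_div_le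
  refine ⟨C, hC, fun B => ?_⟩
  have h1 : ENNReal.ofReal (∑ b ∈ Finset.Icc 1 B, GG b ^ 2 * (b : ℝ)⁻¹) ≤
      ENNReal.ofReal (C * (1 + Real.log B)) := by
    rw [ENNReal.ofReal_sum_of_nonneg (fun i _ => by positivity)]
    refine le_trans ?_ (h B)
    refine le_trans (le_of_eq ?_) (ENNReal.sum_le_tsum (Finset.Icc 1 B))
    refine Finset.sum_congr rfl fun b hb => ?_
    rw [Finset.mem_Icc] at hb
    rw [if_pos hb]
  have h2 := Real.log_natCast_nonneg B
  exact (ENNReal.ofReal_le_ofReal_iff (by positivity)).1 h1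

/-- one dyadic block -/
lemma dyadic : ∃ K : ℝ, 0 < K ∧ ∀ j : ℕ,
    ∑ p ∈ (Finset.Ico (2 ^ j) (2 ^ (j + 1))).filter Nat.Prime,
      ∑ h ∈ (Finset.Icc 1 p).filter (fun h => (p + h).Prime),
        (Real.log p / p) * (Real.log ((p + h : ℕ) : ℝ) / h) ≤ K * (j + 2) := by
  obtain ⟨C1, hC1, hs⟩ := sieve_two'
  obtain ⟨C2, hC2, hg⟩ := sumGG
  refine ⟨32 * C1 * C2, by positivity, fun j => ?_⟩
  have hl2 := Real.log_two_gt_d9
  have hl2' := Real.log_two_lt_d9
  set M := 2 ^ (j + 1) with hM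
  have hMr : (M : ℝ) = 2 ^ (j + 1) := by rw [hM]; push_cast; rfl
  have hM2 : 2 ≤ M := by
    rw [hM]
    calc 2 = 2 ^ 1 := by norm_num
      _ ≤ 2 ^ (j + 1) := Nat.pow_le_pow_right (by norm_num) (by omega)
  have hlogM : Real.log M = (j + 1) * Real.log 2 := by
    rw [hMr, Real.log_pow]; push_cast; ring
  have h2j : (0 : ℝ) < 2 ^ j := by positivity
  -- termwise bound
  have hterm : ∀ p ∈ (Finset.Ico (2 ^ j) M).filter Nat.Prime,
      ∑ h ∈ (Finset.Icc 1 p).filter (fun h => (p + h).Prime),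
        (Real.log p / p) * (Real.log ((p + h : ℕ) : ℝ) / h) ≤
      ∑ h ∈ Finset.Icc 1 M, ((j + 2 : ℝ) ^ 2 / 2 ^ j) * ((h : ℝ)⁻¹ * if (p + h).Prime then 1 else 0) := by
    intro p hp
    rw [Finset.mem_filter, Finset.mem_Ico] at hp
    have hpj : (2 : ℝ) ^ j ≤ p := by exact_mod_cast hp.1.1
    have hpM : (p : ℝ) ≤ 2 ^ (j + 1) := by rw [← hMr]; exact_mod_cast hp.1.2.le
    have hp0 : (0 : ℝ) < p := by linarith
    have hlp : Real.log p ≤ j + 2 := by
      calc Real.log p ≤ Real.log (2 ^ (j + 1)) := Real.log_le_log hp0 hpM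
        _ = (j + 1) * Real.log 2 := by rw [Real.log_pow]; push_cast; ring
        _ ≤ (j + 1) * 1 := by gcongr; linarith
        _ ≤ j + 2 := by linarith
    have hlp0 : 0 ≤ Real.log p := Real.log_natCast_nonneg p
    calc ∑ h ∈ (Finset.Icc 1 p).filter (fun h => (p + h).Prime),
        (Real.log p / p) * (Real.log ((p + h : ℕ) : ℝ) / h) ≤
        ∑ h ∈ (Finset.Icc 1 p).filter (fun h => (p + h).Prime),
          ((j + 2 : ℝ) ^ 2 / 2 ^ j) * ((h : ℝ)⁻¹ * if (p + h).Prime then 1 else 0) := by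
          refine Finset.sum_le_sum fun h hh => ?_
          rw [Finset.mem_filter, Finset.mem_Icc] at hh
          have hh0 : (0 : ℝ) < h := by exact_mod_cast hh.1.1
          have hhp : (h : ℝ) ≤ p := by exact_mod_cast hh.1.2
          have hlq : Real.log ((p + h : ℕ) : ℝ) ≤ j + 2 := by
            calc Real.log ((p + h : ℕ) : ℝ) ≤ Real.log (2 ^ (j + 2)) := by
                  refine Real.log_le_log (by push_cast; linarith) ?_
                  push_cast
                  calc (p : ℝ) + h ≤ 2 * 2 ^ (j + 1) := by linarith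
                    _ = 2 ^ (j + 2) := by ring
              _ = (j + 2) * Real.log 2 := by rw [Real.log_pow]; push_cast; ring
              _ ≤ (j + 2) * 1 := by gcongr; linarith
              _ = j + 2 := by ring
          have hlq0 : 0 ≤ Real.log ((p + h : ℕ) : ℝ) := Real.log_natCast_nonneg _
          rw [if_pos hh.2, mul_one]
          calc (Real.log p / p) * (Real.log ((p + h : ℕ) : ℝ) / h) ≤
              ((j + 2) / 2 ^ j) * ((j + 2) / h) := by gcongr
            _ = ((j + 2 : ℝ) ^ 2 / 2 ^ j) * (h : ℝ)⁻¹ := by field_simp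
      _ ≤ _ := by
          refine Finset.sum_le_sum_of_subset_of_nonneg ?_ ?_
          · intro h hh
            rw [Finset.mem_filter, Finset.mem_Icc] at hh
            rw [Finset.mem_Icc]
            exact ⟨hh.1.1, hh.1.2.trans hp.1.2.le⟩
          · intro h _ _
            split_ifs <;> positivity
  calc _ ≤ ∑ p ∈ (Finset.Ico (2 ^ j) M).filter Nat.Prime, ∑ h ∈ Finset.Icc 1 M,
        ((j + 2 : ℝ) ^ 2 / 2 ^ j) * ((h : ℝ)⁻¹ * if (p + h).Prime then 1 else 0) :=
        Finset.sum_le_sum hterm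
    _ = ((j + 2 : ℝ) ^ 2 / 2 ^ j) * ∑ h ∈ Finset.Icc 1 M, (h : ℝ)⁻¹ *
        ∑ p ∈ (Finset.Ico (2 ^ j) M).filter Nat.Prime, (if (p + h).Prime then (1 : ℝ) else 0) := by
        rw [Finset.sum_comm, Finset.mul_sum]
        refine Finset.sum_congr rfl fun h _ => ?_
        rw [Finset.mul_sum, Finset.mul_sum]
    _ ≤ ((j + 2 : ℝ) ^ 2 / 2 ^ j) * ∑ h ∈ Finset.Icc 1 M, (h : ℝ)⁻¹ *
        (C1 * GG h ^ 2 * M / (Real.log M) ^ 2) := by
        refine mul_le_mul_of_nonneg_left (Finset.sum_le_sum fun h hh => ?_) (by positivity)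
        rw [Finset.mem_Icc] at hh
        refine mul_le_mul_of_nonneg_left ?_ (by positivity)
        have h1 := hs 1 0 1 h M one_pos one_pos (by norm_num) (by norm_num) (by omega) hM2
        have e : (1 * 1 * (((1 * h : ℕ) : ℤ) - ((1 * 0 : ℕ) : ℤ)).natAbs) = h := by simp
        rw [e] at h1
        refine le_trans ?_ h1
        rw [← Finset.sum_filter, Finset.filter_filter, Finset.sum_const, nsmul_eq_mul, mul_one]
        have hsub : (Finset.Ico (2 ^ j) M).filter (fun p => p.Prime ∧ (p + h).Prime) ⊆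
            (Finset.Icc 1 M).filter (fun n => (1 * n + 0).Prime ∧ (1 * n + h).Prime) := by
          intro p hp
          rw [Finset.mem_filter, Finset.mem_Ico] at hp
          rw [Finset.mem_filter, Finset.mem_Icc]
          refine ⟨⟨hp.2.1.one_lt.le, hp.1.2.le⟩, ?_, ?_⟩
          · simpa using hp.2.1
          · simpa using hp.2.2
        exact_mod_cast Finset.card_le_card hsub
    _ = ((j + 2 : ℝ) ^ 2 / 2 ^ j) * (C1 * M / (Real.log M) ^ 2) *
        ∑ h ∈ Finset.Icc 1 M, GG h ^ 2 * (h : ℝ)⁻¹ := by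
        have e0 : ∑ h ∈ Finset.Icc 1 M, (h : ℝ)⁻¹ * (C1 * GG h ^ 2 * M / (Real.log M) ^ 2) =
            (C1 * M / (Real.log M) ^ 2) * ∑ h ∈ Finset.Icc 1 M, GG h ^ 2 * (h : ℝ)⁻¹ := by
          rw [Finset.mul_sum]
          refine Finset.sum_congr rfl fun h _ => ?_
          ring
        rw [e0]
        ring
    _ ≤ ((j + 2 : ℝ) ^ 2 / 2 ^ j) * (C1 * M / (Real.log M) ^ 2) * (C2 * (j + 2)) := by
        refine mul_le_mul_of_nonneg_left ?_ (by positivity)
        refine (hg M).trans (mul_le_mul_of_nonneg_left ?_ hC2.le)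
        rw [hlogM]
        have : (0 : ℝ) ≤ j := Nat.cast_nonneg j
        nlinarith
    _ ≤ (16 * 2) * C1 * (C2 * (j + 2)) := by
        refine mul_le_mul_of_nonneg_right ?_ (by positivity)
        rw [hlogM, hMr]
        have hden : (j + 2 : ℝ) ^ 2 / 16 ≤ ((j + 1) * Real.log 2) ^ 2 := by
          have h1 : (j + 2 : ℝ) / 4 ≤ (j + 1) * Real.log 2 := by
            have : (0 : ℝ) ≤ j := Nat.cast_nonneg j
            nlinarith
          calc (j + 2 : ℝ) ^ 2 / 16 = ((j + 2) / 4) ^ 2 := by ring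
            _ ≤ _ := by gcongr
        have hpos : (0 : ℝ) < ((j + 1) * Real.log 2) ^ 2 := by
          have : (0 : ℝ) < (j + 2 : ℝ) ^ 2 / 16 := by positivity
          linarith
        have e : ((j + 2 : ℝ) ^ 2 / 2 ^ j) * (C1 * 2 ^ (j + 1) / ((j + 1) * Real.log 2) ^ 2) =
            2 * C1 * ((j + 2 : ℝ) ^ 2 / ((j + 1) * Real.log 2) ^ 2) := by
          have e2 : (2 : ℝ) ^ (j + 1) = 2 * 2 ^ j := by ring
          rw [e2]
          field_simp
        rw [e]
        have h2 : (j + 2 : ℝ) ^ 2 / ((j + 1) * Real.log 2) ^ 2 ≤ 16 := by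
          rw [div_le_iff₀ hpos]
          linarith
        nlinarith
    _ = _ := by ring

/-- close pairs of primes, `q ≤ 2 p` -/
lemma close_pairs : ∃ K : ℝ, 0 < K ∧ ∀ᶠ n : ℕ in atTop,
    ∑ p ∈ (Finset.Icc 1 n).filter Nat.Prime,
      ∑ h ∈ (Finset.Icc 1 p).filter (fun h => (p + h).Prime),
        (Real.log p / p) * (Real.log ((p + h : ℕ) : ℝ) / h) ≤ K * (Real.log n) ^ 2 := by
  obtain ⟨K, hK, hd⟩ := dyadic
  refine ⟨36 * K, by positivity, ?_⟩
  filter_upwards [log_nat_tendsto.eventually_ge_atTop 1, eventually_ge_atTop 1] with n hn hn1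
  set F : ℕ → ℝ := fun p => ∑ h ∈ (Finset.Icc 1 p).filter (fun h => (p + h).Prime),
        (Real.log p / p) * (Real.log ((p + h : ℕ) : ℝ) / h) with hF
  have hF0 : ∀ p, 0 ≤ F p := by
    intro p
    refine Finset.sum_nonneg fun h _ => ?_
    have h1 := Real.log_natCast_nonneg p
    have h2 := Real.log_natCast_nonneg (p + h)
    positivity
  set J := Nat.log 2 n + 1 with hJ
  have hmaps : ∀ p ∈ (Finset.Icc 1 n).filter Nat.Prime, Nat.log 2 p ∈ Finset.range J := by
    intro p hp
    rw [Finset.mem_filter, Finset.mem_Icc] at hp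
    rw [Finset.mem_range, hJ]
    exact Nat.lt_succ_of_le (Nat.log_mono_right hp.1.2)
  rw [← Finset.sum_fiberwise_of_maps_to hmaps]
  have h1 : ∀ j ∈ Finset.range J, ∑ p ∈ ((Finset.Icc 1 n).filter Nat.Prime).filter
      (fun p => Nat.log 2 p = j), F p ≤ K * (j + 2) := by
    intro j _
    refine le_trans (Finset.sum_le_sum_of_subset_of_nonneg ?_ fun p _ _ => hF0 p) (hd j)
    intro p hp
    rw [Finset.mem_filter, Finset.mem_filter, Finset.mem_Icc] at hp
    rw [Finset.mem_filter, Finset.mem_Ico]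
    refine ⟨⟨?_, ?_⟩, hp.1.2⟩
    · rw [← hp.2]; exact Nat.pow_log_le_self 2 (by omega)
    · rw [← hp.2]; exact Nat.lt_pow_succ_log_self (by norm_num) p
  refine (Finset.sum_le_sum h1).trans ?_
  have h2 : ∑ j ∈ Finset.range J, K * ((j : ℝ) + 2) ≤ K * (J * (J + 1)) := by
    rw [← Finset.mul_sum]
    refine mul_le_mul_of_nonneg_left ?_ hK.le
    calc ∑ j ∈ Finset.range J, ((j : ℝ) + 2) ≤ ∑ j ∈ Finset.range J, ((J : ℝ) + 1) := by
          refine Finset.sum_le_sum fun j hj => ?_
          rw [Finset.mem_range] at hj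
          have : (j : ℝ) + 1 ≤ J := by exact_mod_cast hj
          linarith
      _ = J * (J + 1) := by rw [Finset.sum_const, Finset.card_range, nsmul_eq_mul]
  refine h2.trans ?_
  have hn0 : (0 : ℝ) < n := by exact_mod_cast hn1
  have hJle : (J : ℝ) ≤ 3 * Real.log n := by
    have h3 : ((2 : ℕ) : ℝ) ^ (Nat.log 2 n) ≤ n := by exact_mod_cast Nat.pow_log_le_self 2 (by omega)
    have h4 := Real.log_le_log (by positivity) h3
    rw [Real.log_pow] at h4
    have hl2 := Real.log_two_gt_d9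
    push_cast at h4
    rw [hJ]
    push_cast
    have h5 : (0 : ℝ) ≤ (Nat.log 2 n : ℝ) := Nat.cast_nonneg _
    nlinarith
  have hJ0 : (0 : ℝ) ≤ J := Nat.cast_nonneg J
  calc K * ((J : ℝ) * (J + 1)) ≤ K * ((3 * Real.log n) * (3 * Real.log n + 1)) := by gcongr
    _ ≤ K * (36 * (Real.log n) ^ 2) := by
        refine mul_le_mul_of_nonneg_left ?_ hK.le
        nlinarith
    _ = _ := by ring

/-- the number of primes close to `p` -/
lemma near_count {B : ℝ} (hB : 0 < B) : ∃ K : ℝ, 0 < K ∧ ∃ P : ℕ, ∀ p ≥ P, ∀ n : ℕ,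
    ((((Finset.Icc 1 n).filter Nat.Prime).filter
      (fun q => p < q ∧ (q : ℝ) - p < B * (Real.log q * Real.log (Real.log q)))).card : ℝ) ≤
      K * Real.log p := by
  obtain ⟨C0, hC01, hBT⟩ := Pool.Agent.Helper601.brun_titchmarsh
  refine ⟨8 * C0 * B, by positivity, ?_⟩
  -- B log q loglog q ≤ q / 2
  have hsmall : ∀ᶠ q : ℕ in atTop, B * (Real.log q * Real.log (Real.log q)) ≤ q / 2 := by
    have h1 : ∀ᶠ x : ℝ in atTop, B * (Real.log x * Real.log (Real.log x)) ≤ x / 2 := by
      have h2 : ∀ᶠ x : ℝ in atTop, (Real.log x) ^ 2 ≤ 1 / (2 * B) * x := by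
        have h3 := (Real.isLittleO_pow_log_id_atTop (n := 2)).bound (show (0 : ℝ) < 1 / (2 * B) by positivity)
        filter_upwards [h3, eventually_gt_atTop 0] with x hx hx0
        rw [Real.norm_eq_abs, Real.norm_eq_abs, abs_of_nonneg (by positivity)] at hx
        simpa [abs_of_pos hx0] using hx
      filter_upwards [h2, Real.tendsto_log_atTop.eventually_ge_atTop 1, eventually_gt_atTop 0]
        with x hx hx1 hx0
      have h4 : Real.log (Real.log x) ≤ Real.log x := by
        have := Real.log_le_sub_one_of_pos (show 0 < Real.log x by linarith)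
        linarith
      have h5 : 0 ≤ Real.log (Real.log x) := Real.log_nonneg hx1
      calc B * (Real.log x * Real.log (Real.log x)) ≤ B * (Real.log x * Real.log x) := by gcongr
        _ = B * (Real.log x) ^ 2 := by ring
        _ ≤ B * (1 / (2 * B) * x) := by gcongr
        _ = x / 2 := by field_simp
    exact tendsto_natCast_atTop_atTop.eventually h1
  have hll : ∀ᶠ q : ℕ in atTop, max 1 (1 / B) ≤ Real.log (Real.log q) :=
    (Real.tendsto_log_atTop.comp log_nat_tendsto).eventually_ge_atTop _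
  obtain ⟨P, hP⟩ := eventually_atTop.1 (hsmall.and (hll.and (log_nat_tendsto.eventually_ge_atTop 1)))
  refine ⟨max P 2, fun p hp n => ?_⟩
  have hpP : P ≤ p := (le_max_left _ _).trans hp
  obtain ⟨_, h2, h3⟩ := hP p hpP
  have hp2 : (2 : ℝ) ≤ p := by exact_mod_cast (le_max_right P 2).trans hp
  have hll1 : 1 ≤ Real.log (Real.log p) := (le_max_left _ _).trans h2
  have hllB : 1 / B ≤ Real.log (Real.log p) := (le_max_right _ _).trans h2
  set G := 4 * B * (Real.log p * Real.log (Real.log p)) with hG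
  have hGlog : Real.log p ≤ G := by
    have h4 : 1 ≤ B * Real.log (Real.log p) := by
      rw [div_le_iff₀ hB] at hllB
      linarith
    rw [hG]
    nlinarith
  have hG1 : 1 ≤ G := by linarith
  have hsub : ((Finset.Icc 1 n).filter Nat.Prime).filter
      (fun q => p < q ∧ (q : ℝ) - p < B * (Real.log q * Real.log (Real.log q))) ⊆
      ((Finset.range (⌊G⌋₊ + 1)).filter (fun k => (p + k * 1).Prime)).image (fun k => p + k) := by
    intro q hq
    rw [Finset.mem_filter, Finset.mem_filter] at hq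
    obtain ⟨⟨_, hqp⟩, hpq, hlt⟩ := hq
    obtain ⟨h4, h5, h6⟩ := hP q (by omega)
    have hpq' : (p : ℝ) < q := by exact_mod_cast hpq
    have hq2p : (q : ℝ) < 2 * p := by linarith
    have hlq : Real.log q ≤ 2 * Real.log p := by
      calc Real.log q ≤ Real.log (p * p) := Real.log_le_log (by linarith) (by nlinarith)
        _ = 2 * Real.log p := by rw [Real.log_mul (by linarith) (by linarith)]; ring
    have hllq : Real.log (Real.log q) ≤ 2 * Real.log (Real.log p) := by
      calc Real.log (Real.log q) ≤ Real.log (2 * Real.log p) := Real.log_le_log (by linarith) hlq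
        _ = Real.log 2 + Real.log (Real.log p) := Real.log_mul (by norm_num) (by linarith)
        _ ≤ _ := by have := Real.log_two_lt_d9; linarith
    have hllq0 : 0 ≤ Real.log (Real.log q) := by
      have := (le_max_left (1 : ℝ) (1 / B)).trans h5
      linarith
    have hqpG : (q : ℝ) - p < G := by
      refine hlt.trans_le ?_
      rw [hG]
      calc B * (Real.log q * Real.log (Real.log q)) ≤
          B * ((2 * Real.log p) * (2 * Real.log (Real.log p))) := by gcongr
        _ = _ := by ring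
    rw [Finset.mem_image]
    refine ⟨q - p, ?_, by omega⟩
    rw [Finset.mem_filter, Finset.mem_range]
    constructor
    · rw [Nat.lt_succ_iff, Nat.le_floor_iff (by linarith), Nat.cast_sub hpq.le]
      exact hqpG.le
    · have : p + (q - p) * 1 = q := by omega
      rw [this]; exact hqp
  have hcard := (Finset.card_le_card hsub).trans Finset.card_image_le
  have hN2 : 2 ≤ ⌊G⌋₊ + 1 := by
    have : 1 ≤ ⌊G⌋₊ := by rw [Nat.one_le_floor_iff]; exact hG1
    omega
  have hbt := hBT p 1 (⌊G⌋₊ + 1) hN2 (Or.inl rfl)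
  have hNle : ((⌊G⌋₊ + 1 : ℕ) : ℝ) ≤ 2 * G := by
    push_cast
    have := Nat.floor_le (show 0 ≤ G by linarith)
    linarith
  have hNge : Real.log (Real.log p) ≤ Real.log ((⌊G⌋₊ + 1 : ℕ) : ℝ) := by
    refine Real.log_le_log (by linarith) ?_
    push_cast
    have := Nat.lt_floor_add_one G
    linarith
  calc _ ≤ (((Finset.range (⌊G⌋₊ + 1)).filter (fun k => (p + k * 1).Prime)).card : ℝ) := by
        exact_mod_cast hcard
    _ ≤ C0 * ((⌊G⌋₊ + 1 : ℕ) : ℝ) / Real.log ((⌊G⌋₊ + 1 : ℕ) : ℝ) := hbt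
    _ ≤ C0 * (2 * G) / Real.log (Real.log p) := by
        refine div_le_div₀ (by positivity) ?_ (by linarith) hNge
        gcongr
    _ = 8 * C0 * B * Real.log p := by
        rw [hG]
        have : Real.log (Real.log p) ≠ 0 := by linarith
        field_simp
        ring

end Pool.Agent.H447R2.ML
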