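import Mathlib
import Pool.Agent.H447R2.ML.P4

set_option autoImplicit false

/-!
# The mean of a one-parameter family
-/

namespace Pool.Agent.H447R2.ML

open Filter Topology MeasureTheory
open Pool.Agent.H305R2 (roughPart ff measurable_ff ff_nonneg ff_le_one integrableOn_ff NN
  mem_Ioc_log bounds mertens_ratio log_nat_tendsto window_asymp LL_cont LL_nonneg integrableOn_LL
  FF_sub FF_mono)

lemma integral_LL_scaled {s t : ℝ} (hst : s ≤ t) {p : ℕ} (hp : 0 < p) :
    ∫ v in Set.Ioc (s * p) (t * p), Pool.Agent.H305R2.LL p v =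
      p * ∫ a in Set.Ioc s t, Pool.Agent.H305R2.LL p (a * p) := by
  have hp0 : (0 : ℝ) < p := by exact_mod_cast hp
  rw [← intervalIntegral.integral_of_le hst,
    ← intervalIntegral.integral_of_le (mul_le_mul_of_nonneg_right hst hp0.le),
    intervalIntegral.integral_comp_mul_right (fun x => Pool.Agent.H305R2.LL p x) hp0.ne',
    smul_eq_mul]
  field_simp

lemma mean_linear {s t : ℝ} (hs : 0 < s) (hst : s < t) :
    Tendsto (fun p : ℕ => (∫ v in Set.Ioc (s * p) (t * p), ff p v) / Real.log p) atTop
      (𝓝 (Real.exp Real.eulerMascheroniConstant * (Real.log t - Real.log s))) := by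
  set G := Real.exp Real.eulerMascheroniConstant with hG
  obtain ⟨K, hK, hev⟩ := bounds (c := s / 2) (by positivity)
  have hlog1 : ∀ᶠ p : ℕ in atTop, 1 ≤ Real.log p := log_nat_tendsto.eventually_ge_atTop 1
  -- dominated convergence
  have hdom : Tendsto (fun p : ℕ => ∫ a in Set.Ioc s t,
      Pool.Agent.H305R2.LL p (a * p) * (p / Real.log p)) atTop (𝓝 (∫ a in Set.Ioc s t, G / a)) := by
    refine tendsto_integral_filter_of_dominated_convergence (fun _ => K) ?_ ?_ ?_ ?_
    · exact Eventually.of_forall fun p =>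
        (((LL_cont p).comp (continuous_mul_right (p : ℝ))).mul continuous_const).aestronglyMeasurable
    · filter_upwards [hev, hlog1, eventually_gt_atTop 0] with p hp hl hp0
      have hp0' : (0 : ℝ) < p := by exact_mod_cast hp0
      refine ae_restrict_of_forall_mem measurableSet_Ioc fun a ha => ?_
      have h1 := hp.1 (a * p) (by nlinarith [ha.1])
      have h2 := LL_nonneg p (a * p)
      have h3 : 0 ≤ (p : ℝ) / Real.log p := by positivity
      rw [Real.norm_eq_abs, abs_of_nonneg (mul_nonneg h2 h3)]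
      calc Pool.Agent.H305R2.LL p (a * p) * (p / Real.log p) ≤
          (K * (Real.log p / p)) * (p / Real.log p) := mul_le_mul_of_nonneg_right h1 h3
        _ = K := by field_simp
    · exact integrableOn_const (by simp)
    · refine ae_restrict_of_forall_mem measurableSet_Ioc fun a ha => ?_
      have ha0 : 0 < a := lt_trans hs ha.1
      refine window_asymp ha0 (y := fun p : ℕ => a * p) ?_
      refine tendsto_const_nhds.congr' ?_
      filter_upwards [eventually_gt_atTop 0] with p hp
      have hp0' : (0 : ℝ) < p := by exact_mod_cast hp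
      field_simp
  have hint : ∫ a in Set.Ioc s t, G / a = G * (Real.log t - Real.log s) := by
    rw [← intervalIntegral.integral_of_le hst.le]
    simp only [div_eq_mul_inv]
    rw [intervalIntegral.integral_const_mul, integral_inv_of_pos hs (hs.trans hst),
      Real.log_div (hs.trans hst).ne' hs.ne']
  rw [hint] at hdom
  -- error term
  have herr : Tendsto (fun p : ℕ => (∫ v in Set.Ioc (s * p) (t * p), Pool.Agent.H305R2.gg p v) /
      Real.log p) atTop (𝓝 0) := by
    have h0 : Tendsto (fun p : ℕ => K / (p : ℝ)) atTop (𝓝 0) :=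
      tendsto_const_div_atTop_nhds_zero_nat K
    refine squeeze_zero_norm' ?_ h0
    have hlarge : ∀ᶠ p : ℕ in atTop, 2 / s < p := tendsto_natCast_atTop_atTop.eventually_gt_atTop _
    filter_upwards [hev, hlog1, eventually_gt_atTop 0, hlarge] with p hp hl hp0 hpl
    have hp0' : (0 : ℝ) < p := by exact_mod_cast hp0
    rw [div_lt_iff₀ hs] at hpl
    have h1 := hp.2.2.1 (s * p) (t * p) (by nlinarith) (mul_le_mul_of_nonneg_right hst.le hp0'.le)
    rw [Real.norm_eq_abs, abs_div, abs_of_pos (show 0 < Real.log p by linarith),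
      div_le_div_iff₀ (by linarith) hp0']
    calc _ ≤ (K * (Real.log p / p)) * p := mul_le_mul_of_nonneg_right h1 hp0'.le
      _ = K * Real.log p := by field_simp
  have hsum := hdom.add herr
  rw [add_zero] at hsum
  refine hsum.congr' ?_
  filter_upwards [hlog1, eventually_gt_atTop 0] with p hl hp0
  have hp0' : (0 : ℝ) < p := by exact_mod_cast hp0
  have e1 : ∫ v in Set.Ioc (s * p) (t * p), Pool.Agent.H305R2.gg p v =
      (∫ v in Set.Ioc (s * p) (t * p), ff p v) -
      ∫ v in Set.Ioc (s * p) (t * p), Pool.Agent.H305R2.LL p v :=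
    integral_sub (integrableOn_ff p _ _) (integrableOn_LL p _ _)
  have e2 : ∫ a in Set.Ioc s t, Pool.Agent.H305R2.LL p (a * p) * (p / Real.log p) =
      (∫ v in Set.Ioc (s * p) (t * p), Pool.Agent.H305R2.LL p v) / Real.log p := by
    rw [integral_mul_const, integral_LL_scaled hst.le hp0]
    ring
  rw [e1, e2]
  ring

lemma mean_family {a0 a1 D : ℝ} (ha0 : 0 < a0) (hD : 0 ≤ D) {y y' : ℕ → ℝ → ℝ}
    (hL : ∀ᶠ p : ℕ in atTop, Loc a0 a1 D p (y p) (y' p)) {s t : ℝ} (hs : a0 ≤ s) (hst : s < t)
    (ht : t ≤ a1) :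
    Tendsto (fun p : ℕ => (∫ x in Set.Ioc s t, ff p (y p x)) * (p / Real.log p)) atTop
      (𝓝 (Real.exp Real.eulerMascheroniConstant * (Real.log t - Real.log s))) := by
  set G := Real.exp Real.eulerMascheroniConstant with hG
  set L := G * (Real.log t - Real.log s) with hLdef
  have hs0 : 0 < s := by linarith
  obtain ⟨K, hK, hev⟩ := bounds (c := a0 / 2) (by positivity)
  have hlog1 : ∀ᶠ p : ℕ in atTop, 1 ≤ Real.log p := log_nat_tendsto.eventually_ge_atTop 1
  have hlarge : ∀ᶠ p : ℕ in atTop, 3 * D + (D + 1) * 2 / a0 + 1 < p :=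
    tendsto_natCast_atTop_atTop.eventually_gt_atTop _
  have hlin := mean_linear hs0 hst
  -- comparison of primitives
  have hcmp : ∀ᶠ p : ℕ in atTop, ∀ u v : ℝ, a0 / 2 * p + 1 ≤ u → a0 / 2 * p + 1 ≤ v → |u - v| ≤ D →
      |Pool.Agent.H305R2.FF p u - Pool.Agent.H305R2.FF p v| ≤ K * (D + 1) * (Real.log p / p) := by
    filter_upwards [hev, hlog1, eventually_gt_atTop 0] with p hp hl hp0 u v hu hv huv
    have hp0' : (1 : ℝ) ≤ p := by exact_mod_cast hp0
    have hlp : 0 ≤ Real.log p / p := by positivity
    have h1p : 1 / (p : ℝ) ≤ 1 := by rw [div_le_one (by linarith)]; exact hp0'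
    have key : ∀ u v : ℝ, a0 / 2 * p + 1 ≤ u → u ≤ v → v - u ≤ D →
        |Pool.Agent.H305R2.FF p v - Pool.Agent.H305R2.FF p u| ≤ K * (D + 1) * (Real.log p / p) := by
      intro u v hu huv hD'
      have h1 := FF_mono p huv
      rw [abs_of_nonneg (by linarith), FF_sub p huv]
      refine (hp.2.1 u v hu huv).trans ?_
      gcongr
    rcases le_total u v with h | h
    · rw [abs_sub_comm]
      exact key u v hu h (by rw [abs_sub_comm, abs_of_nonneg (by linarith)] at huv; exact huv)
    · exact key v u hv h (by rw [abs_of_nonneg (by linarith)] at huv; exact huv)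
  set Y : ℕ → ℝ := fun p => ∫ u in Set.Ioc (y p s) (y p t), ff p u with hY
  have hYlim : Tendsto (fun p : ℕ => Y p / Real.log p) atTop (𝓝 L) := by
    have h0 : Tendsto (fun p : ℕ => 2 * (K * (D + 1)) / (p : ℝ)) atTop (𝓝 0) :=
      tendsto_const_div_atTop_nhds_zero_nat _
    have hdiff : Tendsto (fun p : ℕ => (Y p - ∫ v in Set.Ioc (s * p) (t * p), ff p v) / Real.log p)
        atTop (𝓝 0) := by
      refine squeeze_zero_norm' ?_ h0
      filter_upwards [hcmp, hlog1, hlarge, hL] with p hc hl hpl hLp
      have hq0' : 0 ≤ (D + 1) * 2 / a0 := by positivity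
      have hp3 : 3 * D < p := by linarith
      have hp0 : (0 : ℝ) < p := by linarith
      have hp1 : (D + 1) * 2 / a0 < p := by linarith
      rw [div_lt_iff₀ ha0] at hp1
      have hsI : s ∈ Set.Icc a0 a1 := ⟨hs, by linarith⟩
      have htI : t ∈ Set.Icc a0 a1 := ⟨by linarith, ht⟩
      have hns := hLp.near s hsI
      have hnt := hLp.near t htI
      have hmono := hLp.strict hp3 hD
      have hst' : y p s ≤ y p t := (hmono hsI htI hst).le
      have hps : s * p ≤ t * p := mul_le_mul_of_nonneg_right hst.le hp0.le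
      have h1 : a0 * p ≤ s * p := mul_le_mul_of_nonneg_right hs hp0.le
      have hlow1 : a0 / 2 * p + 1 ≤ y p s := by
        have := (abs_le.1 hns).1
        nlinarith
      have hlow2 : a0 / 2 * p + 1 ≤ s * p := by nlinarith
      have c1 := hc (y p t) (t * p) (by linarith) (by linarith) (by rw [mul_comm t]; exact hnt)
      have c2 := hc (y p s) (s * p) hlow1 hlow2 (by rw [mul_comm s]; exact hns)
      have e : Y p - ∫ v in Set.Ioc (s * p) (t * p), ff p v =
          (Pool.Agent.H305R2.FF p (y p t) - Pool.Agent.H305R2.FF p (t * p)) -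
          (Pool.Agent.H305R2.FF p (y p s) - Pool.Agent.H305R2.FF p (s * p)) := by
        simp only [hY]
        rw [← FF_sub p hst', ← FF_sub p hps]
        ring
      rw [Real.norm_eq_abs, abs_div, abs_of_pos (show 0 < Real.log p by linarith), e,
        div_le_div_iff₀ (by linarith) hp0]
      have h2 := abs_sub (Pool.Agent.H305R2.FF p (y p t) - Pool.Agent.H305R2.FF p (t * p))
        (Pool.Agent.H305R2.FF p (y p s) - Pool.Agent.H305R2.FF p (s * p))
      calc _ ≤ (2 * (K * (D + 1) * (Real.log p / p))) * p := by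
            refine mul_le_mul_of_nonneg_right ?_ hp0.le
            linarith
        _ = 2 * (K * (D + 1)) * Real.log p := by field_simp
    have := hdiff.add hlin
    rw [zero_add] at this
    refine this.congr fun p => ?_
    ring
  -- sandwich
  have hr1 : Tendsto (fun p : ℕ => (p : ℝ) / (p + D)) atTop (𝓝 1) := by
    have h1 : Tendsto (fun p : ℕ => 1 - D / ((p : ℝ) + D)) atTop (𝓝 (1 - 0)) := by
      refine tendsto_const_nhds.sub (Tendsto.const_div_atTop ?_ D)
      exact tendsto_atTop_add_const_right _ _ tendsto_natCast_atTop_atTop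
    rw [sub_zero] at h1
    refine h1.congr' ?_
    filter_upwards [eventually_gt_atTop 0] with p hp
    have hp0' : (0 : ℝ) < p := by exact_mod_cast hp
    have : (p : ℝ) + D ≠ 0 := by linarith
    field_simp
    ring
  have hr2 : Tendsto (fun p : ℕ => (p : ℝ) / (p - D)) atTop (𝓝 1) := by
    have h1 : Tendsto (fun p : ℕ => 1 + D / ((p : ℝ) - D)) atTop (𝓝 (1 + 0)) := by
      refine tendsto_const_nhds.add (Tendsto.const_div_atTop ?_ D)
      exact tendsto_atTop_add_const_right _ (-D) tendsto_natCast_atTop_atTop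
    rw [add_zero] at h1
    refine h1.congr' ?_
    filter_upwards [hlarge] with p hp
    have hq0' : 0 ≤ (D + 1) * 2 / a0 := by positivity
    have : (p : ℝ) - D ≠ 0 := by linarith
    field_simp
    ring
  have hlo := hYlim.mul hr1
  have hhi := hYlim.mul hr2
  rw [mul_one] at hlo hhi
  refine tendsto_of_tendsto_of_tendsto_of_le_of_le' hlo hhi ?_ ?_
  · filter_upwards [hlog1, hlarge, hL] with p hl hpl hLp
    have hq0' : 0 ≤ (D + 1) * 2 / a0 := by positivity
    have hp3 : 3 * D < p := by linarith
    have hp0 : (0 : ℝ) < p := by linarith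
    have hc := (hLp.cov hp3 hD hs hst.le ht (measurable_ff p) (ff_nonneg p) (ff_le_one p)).2
    have hpD : 0 < (p : ℝ) + D := by linarith
    rw [div_mul_div_comm, div_le_iff₀ (by positivity)]
    have e : (∫ x in Set.Ioc s t, ff p (y p x)) * (p / Real.log p) * (Real.log p * (p + D)) =
        ((p + D) * ∫ x in Set.Ioc s t, ff p (y p x)) * p := by
      field_simp
    rw [e]
    exact mul_le_mul_of_nonneg_right hc hp0.le
  · filter_upwards [hlog1, hlarge, hL] with p hl hpl hLp
    have hq0' : 0 ≤ (D + 1) * 2 / a0 := by positivity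
    have hp3 : 3 * D < p := by linarith
    have hp0 : (0 : ℝ) < p := by linarith
    have hc := (hLp.cov hp3 hD hs hst.le ht (measurable_ff p) (ff_nonneg p) (ff_le_one p)).1
    have hpD : 0 < (p : ℝ) - D := by linarith
    rw [div_mul_div_comm, le_div_iff₀ (by positivity)]
    have e : (∫ x in Set.Ioc s t, ff p (y p x)) * (p / Real.log p) * (Real.log p * (p - D)) =
        ((p - D) * ∫ x in Set.Ioc s t, ff p (y p x)) * p := by
      field_simp
    rw [e]
    exact mul_le_mul_of_nonneg_right hc hp0.le

end Pool.Agent.H447R2.ML
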