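import Mathlib
import Pool.Agent.H447R2.ML.P6
import Pool.Agent.H447R2.ML.P7

set_option autoImplicit false

/-!
# The almost everywhere theorem for one-parameter families
-/

namespace Pool.Agent.H447R2.ML

open Filter Topology MeasureTheory
open Pool.Agent.H305R2 (roughPart ff measurable_ff ff_nonneg ff_le_one integrableOn_ff NN
  mem_Ioc_log bounds mertens_ratio log_nat_tendsto cesaro)

/-- a set which misses a fixed proportion of every interval is null -/
lemma null_of_density {B : Set ℝ} (hB : MeasurableSet B) {b0 b1 κ : ℝ} (hκ : 0 < κ)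
    (hsub : B ⊆ Set.Ioo b0 b1)
    (h : ∀ s t : ℝ, b0 < s → s < t → t < b1 →
      volume.real (B ∩ Set.Ioc s t) ≤ (1 - κ) * (t - s)) : volume B = 0 := by
  by_contra hne
  have hB1 := Besicovitch.ae_tendsto_measure_inter_div volume B
  rw [ae_restrict_iff' hB] at hB1
  have hex : ∃ x ∈ B, Tendsto (fun r => volume (B ∩ Metric.closedBall x r) /
      volume (Metric.closedBall x r)) (𝓝[>] 0) (𝓝 1) := by
    by_contra hcon
    push Not at hcon
    apply hne
    rw [ae_iff] at hB1
    refine measure_mono_null (fun x hx => ?_) hB1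
    simp only [Set.mem_ofPred_eq, Classical.not_imp]
    exact ⟨hx, hcon x hx⟩
  obtain ⟨x, hx, hlim⟩ := hex
  have hxI := hsub hx
  have hlt : ∀ᶠ r in 𝓝[>] (0 : ℝ), ENNReal.ofReal (1 - κ) < volume (B ∩ Metric.closedBall x r) /
      volume (Metric.closedBall x r) := by
    refine hlim.eventually_const_lt ?_
    rw [ENNReal.ofReal_lt_one]
    linarith
  have hsmall : ∀ᶠ r in 𝓝[>] (0 : ℝ), r < min (x - b0) (b1 - x) := by
    refine nhdsWithin_le_nhds (Iio_mem_nhds ?_)
    exact lt_min (by linarith [hxI.1]) (by linarith [hxI.2])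
  have hpos : ∀ᶠ r in 𝓝[>] (0 : ℝ), 0 < r := self_mem_nhdsWithin
  obtain ⟨r, hr1, hr2, hr3⟩ := (hlt.and (hsmall.and hpos)).exists
  have h2r : 0 < 2 * r := by linarith
  have hr4 := lt_min_iff.1 hr2
  have e1 : Metric.closedBall x r = Set.Icc (x - r) (x + r) := Real.closedBall_eq_Icc
  have hvol : volume (Metric.closedBall x r) = ENNReal.ofReal (2 * r) := by
    rw [e1, Real.volume_Icc]; congr 1; ring
  have hae : volume (B ∩ Metric.closedBall x r) = volume (B ∩ Set.Ioc (x - r) (x + r)) := by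
    rw [e1]
    refine measure_congr ?_
    exact (ae_eq_refl B).inter Ioc_ae_eq_Icc.symm
  have hh := h (x - r) (x + r) (by linarith) (by linarith) (by linarith)
  have hfin : volume (B ∩ Set.Ioc (x - r) (x + r)) ≠ ⊤ :=
    ne_top_of_le_ne_top (by simp) (measure_mono Set.inter_subset_right)
  have hv2 : volume (B ∩ Set.Ioc (x - r) (x + r)) ≤ ENNReal.ofReal ((1 - κ) * (2 * r)) := by
    rw [← ENNReal.ofReal_toReal hfin]
    refine ENNReal.ofReal_le_ofReal ?_
    refine hh.trans (le_of_eq ?_)
    ring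
  rw [hvol, hae] at hr1
  rw [ENNReal.lt_div_iff_mul_lt (Or.inl (by simpa using hr3))
    (Or.inl ENNReal.ofReal_ne_top)] at hr1
  rcases le_or_gt 0 (1 - κ) with h1 | h1
  · rw [← ENNReal.ofReal_mul h1] at hr1
    exact absurd hv2 (not_le.2 hr1)
  · have h3 : (1 - κ) * (2 * r) ≤ 0 := by nlinarith
    rw [ENNReal.ofReal_of_nonpos h3] at hv2
    have h4 : volume (B ∩ Set.Ioc (x - r) (x + r)) = 0 := le_antisymm hv2 bot_le
    rw [h4] at hr1
    exact absurd hr1 (not_lt.2 bot_le)

/-- the counting function of a one-parameter family -/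
noncomputable def C1 (y : ℕ → ℝ → ℝ) (t : ℝ) (n : ℕ) : ℝ :=
  ∑ p ∈ (Finset.Icc 1 n).filter Nat.Prime, ff p (y p t)

lemma measurable_C1 {y : ℕ → ℝ → ℝ} (hy : ∀ p, Measurable (y p)) (n : ℕ) :
    Measurable fun t => C1 y t n :=
  Finset.measurable_sum _ fun p _ => (measurable_ff p).comp (hy p)

lemma C1_nonneg (y : ℕ → ℝ → ℝ) (t : ℝ) (n : ℕ) : 0 ≤ C1 y t n :=
  Finset.sum_nonneg fun p _ => ff_nonneg p _

lemma int_ff {y : ℕ → ℝ → ℝ} (hy : ∀ p, Measurable (y p)) (p : ℕ) (s t : ℝ) :
    IntegrableOn (fun x => ff p (y p x)) (Set.Ioc s t) := by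
  refine Measure.integrableOn_of_bounded (M := 1) (by simp)
    ((measurable_ff p).comp (hy p)).aestronglyMeasurable ?_
  exact Eventually.of_forall fun x => by
    rw [Real.norm_eq_abs, abs_of_nonneg (ff_nonneg p _)]; exact ff_le_one p _

lemma int_sum {y : ℕ → ℝ → ℝ} (hy : ∀ p, Measurable (y p)) (S : Finset ℕ) (s t : ℝ) :
    IntegrableOn (fun x => ∑ p ∈ S, ff p (y p x)) (Set.Ioc s t) :=
  integrable_finsetSum _ fun p _ => int_ff hy p s t

/-- the mean of the counting function over an interval -/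
lemma mean_C1 {a0 a1 D : ℝ} (ha0 : 0 < a0) (hD : 0 ≤ D) {y y' : ℕ → ℝ → ℝ}
    (hy : ∀ p, Measurable (y p))
    (hL : ∀ᶠ p : ℕ in atTop, Loc a0 a1 D p (y p) (y' p)) {s t : ℝ} (hs : a0 ≤ s) (hst : s < t)
    (ht : t ≤ a1) :
    Tendsto (fun n : ℕ => (∫ x in Set.Ioc s t, C1 y x n) / Real.log n) atTop
      (𝓝 (Real.exp Real.eulerMascheroniConstant * (Real.log t - Real.log s))) := by
  have h := cesaro _ _ (mean_family ha0 hD hL hs hst ht)
  refine h.congr fun n => ?_
  congr 1
  unfold C1
  rw [integral_finsetSum _ fun p _ => int_ff hy p s t]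

/-- the upper half: the counting function is frequently not too large -/
lemma upper_null {a0 a1 D : ℝ} (ha0 : 0 < a0) (hD : 0 ≤ D) {y y' : ℕ → ℝ → ℝ}
    (hy : ∀ p, Measurable (y p)) (hL : ∀ᶠ p : ℕ in atTop, Loc a0 a1 D p (y p) (y' p))
    {c : ℝ} (hc : Real.exp Real.eulerMascheroniConstant / a0 < c) (n0 : ℕ) :
    volume (Set.Ioo a0 a1 ∩ ⋂ n ∈ Set.Ici n0, {t | c * Real.log n ≤ C1 y t n}) = 0 := by
  set G := Real.exp Real.eulerMascheroniConstant with hG
  have hG0 : 0 < G := Real.exp_pos _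
  have hc0 : 0 < c := lt_trans (by positivity) hc
  set B := Set.Ioo a0 a1 ∩ ⋂ n ∈ Set.Ici n0, {t | c * Real.log n ≤ C1 y t n} with hB
  have hBm : MeasurableSet B := by
    refine measurableSet_Ioo.inter (MeasurableSet.biInter (Set.to_countable _) fun n _ => ?_)
    exact measurableSet_le measurable_const (measurable_C1 hy n)
  set κ := (1 - G / a0 / c) / 2 with hκ
  have hκ0 : 0 < κ := by
    rw [hκ]
    have : G / a0 / c < 1 := by rw [div_lt_one hc0]; exact hc
    linarith
  refine null_of_density hBm hκ0 Set.inter_subset_left fun s t hs hst ht => ?_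
  have hmean := mean_C1 ha0 hD hy hL hs.le hst ht.le
  have hs0 : 0 < s := by linarith
  have ht0 : 0 < t := by linarith
  have hLle : G * (Real.log t - Real.log s) ≤ G / a0 * (t - s) := by
    have h1 : Real.log t - Real.log s ≤ (t - s) / s := by
      rw [← Real.log_div (by linarith) hs0.ne']
      have := Real.log_le_sub_one_of_pos (show 0 < t / s by positivity)
      have e : t / s - 1 = (t - s) / s := by field_simp
      linarith
    have h2 : (t - s) / s ≤ (t - s) / a0 := div_le_div_of_nonneg_left (by linarith) ha0 hs.le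
    calc G * (Real.log t - Real.log s) ≤ G * ((t - s) / a0) := by gcongr; linarith
      _ = _ := by ring
  have hlt : G * (Real.log t - Real.log s) < (1 - κ) * (t - s) * c := by
    refine lt_of_le_of_lt hLle ?_
    have h1 : G / a0 < (1 - κ) * c := by
      have h2 : (1 - κ) * c = (c + G / a0) / 2 := by rw [hκ]; field_simp; ring
      rw [h2]; linarith
    have : 0 < t - s := by linarith
    nlinarith
  obtain ⟨n, hn1, hn2, hn3⟩ := ((hmean.eventually_lt_const hlt).and
    ((eventually_ge_atTop n0).and (log_nat_tendsto.eventually_ge_atTop 1))).exists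
  have hln : 0 < Real.log n := by linarith
  rw [div_lt_iff₀ hln] at hn1
  have hBI : MeasurableSet (B ∩ Set.Ioc s t) := hBm.inter measurableSet_Ioc
  have hint : IntegrableOn (fun x => C1 y x n) (Set.Ioc s t) := int_sum hy _ s t
  have h1 : volume.real (B ∩ Set.Ioc s t) * (c * Real.log n) ≤ ∫ x in B ∩ Set.Ioc s t, C1 y x n := by
    rw [← smul_eq_mul, ← setIntegral_const]
    refine setIntegral_mono_on (integrableOn_const
      (ne_top_of_le_ne_top (by simp : volume (Set.Ioc s t) ≠ ⊤) (measure_mono Set.inter_subset_right)))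
      (hint.mono_set Set.inter_subset_right) hBI fun x hx => ?_
    have := hx.1.2
    simp only [Set.mem_iInter, Set.mem_ofPred_eq] at this
    exact this n hn2
  have h2 : ∫ x in B ∩ Set.Ioc s t, C1 y x n ≤ ∫ x in Set.Ioc s t, C1 y x n :=
    setIntegral_mono_set hint (Eventually.of_forall fun x => C1_nonneg y x n)
      Set.inter_subset_right.eventuallyLE
  have h3 : volume.real (B ∩ Set.Ioc s t) * (c * Real.log n) ≤
      ((1 - κ) * (t - s)) * (c * Real.log n) := by
    calc _ ≤ _ := h1.trans (h2.trans hn1.le)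
      _ = _ := by ring
  exact le_of_mul_le_mul_right h3 (by positivity)

/-- the lower half: the counting function is frequently large -/
lemma lower_null {a0 a1 D b0 b1 : ℝ} (ha0 : 0 < a0) (hD : 0 ≤ D) (hb0 : a0 < b0) (hb1 : b1 < a1)
    {y y' : ℕ → ℝ → ℝ} (hy : ∀ p, Measurable (y p))
    (hL : ∀ᶠ p : ℕ in atTop, Loc a0 a1 D p (y p) (y' p))
    {c : ℝ} (hc0 : 0 ≤ c) (hc : c < Real.exp Real.eulerMascheroniConstant / b1) (_hb01 : b0 < b1)
    (n0 : ℕ) :
    volume (Set.Ioo b0 b1 ∩ ⋂ n ∈ Set.Ici n0, {t | C1 y t n ≤ c * Real.log n}) = 0 := by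
  set G := Real.exp Real.eulerMascheroniConstant with hG
  have hG0 : 0 < G := Real.exp_pos _
  set B := Set.Ioo b0 b1 ∩ ⋂ n ∈ Set.Ici n0, {t | C1 y t n ≤ c * Real.log n} with hB
  have hBm : MeasurableSet B := by
    refine measurableSet_Ioo.inter (MeasurableSet.biInter (Set.to_countable _) fun n _ => ?_)
    exact measurableSet_le (measurable_C1 hy n) measurable_const
  obtain ⟨K, hK, hsec⟩ := second ha0 hD hb0 hb1 hL
  set Δ := G / b1 - c with hΔ
  have hΔ0 : 0 < Δ := by rw [hΔ]; linarith
  set κ := (Δ / 2) ^ 2 / K with hκ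
  have hκ0 : 0 < κ := by positivity
  refine null_of_density hBm hκ0 Set.inter_subset_left fun s t hs hst ht => ?_
  have hts : 0 < t - s := by linarith
  have hs0 : 0 < s := by linarith
  have ht0 : 0 < t := by linarith
  have hb1' : 0 < b1 := by linarith
  obtain ⟨P, hP⟩ := hsec s t hs.le hst ht.le
  have hmean := mean_C1 ha0 hD hy hL (by linarith : a0 ≤ s) hst (by linarith : t ≤ a1)
  have hLge : G / b1 * (t - s) ≤ G * (Real.log t - Real.log s) := by
    have h1 : (t - s) / t ≤ Real.log t - Real.log s := by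
      rw [← Real.log_div ht0.ne' hs0.ne']
      have := Real.one_sub_inv_le_log_of_pos (show 0 < t / s by positivity)
      have e : 1 - (t / s)⁻¹ = (t - s) / t := by field_simp
      linarith
    have h2 : (t - s) / b1 ≤ (t - s) / t := div_le_div_of_nonneg_left hts.le ht0 ht.le
    calc G / b1 * (t - s) = G * ((t - s) / b1) := by ring
      _ ≤ G * (Real.log t - Real.log s) := by gcongr; linarith
  have hlt : (c + 3 / 4 * Δ) * (t - s) < G * (Real.log t - Real.log s) := by
    refine lt_of_lt_of_le ?_ hLge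
    have : c + 3 / 4 * Δ < G / b1 := by rw [hΔ]; linarith
    nlinarith
  have hlarge : ∀ᶠ n : ℕ in atTop, 1 + P / (1 / 4 * Δ) ≤ Real.log n :=
    log_nat_tendsto.eventually_ge_atTop _
  obtain ⟨n, hn1, hn2, hn3, hn4, hn5⟩ := ((hmean.eventually_const_lt hlt).and
    ((eventually_ge_atTop n0).and (hlarge.and (hP.and (eventually_ge_atTop (P + 1)))))).exists
  have hPd : 0 ≤ (P : ℝ) / (1 / 4 * Δ) := by positivity
  have hln : 0 < Real.log n := by linarith
  rw [lt_div_iff₀ hln] at hn1
  set S : ℝ → ℝ := fun x => ∑ p ∈ (Finset.Icc P n).filter Nat.Prime, ff p (y p x) with hS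
  have hS0 : ∀ x, 0 ≤ S x := fun x => Finset.sum_nonneg fun p _ => ff_nonneg p _
  have hSC : ∀ x, S x ≤ C1 y x n := by
    intro x
    refine Finset.sum_le_sum_of_subset_of_nonneg ?_ fun p _ _ => ff_nonneg p _
    intro p hp
    rw [Finset.mem_filter, Finset.mem_Icc] at hp ⊢
    exact ⟨⟨hp.2.one_lt.le, hp.1.2⟩, hp.2⟩
  have hCS : ∀ x, C1 y x n ≤ S x + P := by
    intro x
    unfold C1
    have h1 : ∑ p ∈ (Finset.Icc 1 n).filter Nat.Prime, ff p (y p x) ≤
        S x + ∑ p ∈ Finset.range P, (1 : ℝ) := by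
      rw [← Finset.sum_filter_add_sum_filter_not ((Finset.Icc 1 n).filter Nat.Prime) (fun p => P ≤ p)]
      refine add_le_add ?_ ?_
      · refine Finset.sum_le_sum_of_subset_of_nonneg ?_ fun p _ _ => ff_nonneg p _
        intro p hp
        rw [Finset.mem_filter, Finset.mem_filter, Finset.mem_Icc] at hp
        rw [Finset.mem_filter, Finset.mem_Icc]
        exact ⟨⟨hp.2, hp.1.1.2⟩, hp.1.2⟩
      · refine (Finset.sum_le_sum (g := fun _ => (1 : ℝ)) fun p _ => ff_le_one p _).trans ?_
        refine Finset.sum_le_sum_of_subset_of_nonneg ?_ fun p _ _ => zero_le_one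
        intro p hp
        rw [Finset.mem_filter] at hp
        rw [Finset.mem_range]
        omega
    simpa using h1
  have hSint : IntegrableOn S (Set.Ioc s t) := int_sum hy _ s t
  have hCint : IntegrableOn (fun x => C1 y x n) (Set.Ioc s t) := int_sum hy _ s t
  -- lower bound for the integral of S
  have hSlow : (c + Δ / 2) * (t - s) * Real.log n ≤ ∫ x in Set.Ioc s t, S x := by
    have h1 : ∫ x in Set.Ioc s t, C1 y x n ≤ ∫ x in Set.Ioc s t, (S x + P) := by
      refine setIntegral_mono_on hCint (hSint.add (integrableOn_const (by simp))) measurableSet_Ioc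
        fun x _ => hCS x
    rw [integral_add hSint (integrableOn_const (by simp)), setIntegral_const,
      Real.volume_real_Ioc_of_le hst.le, smul_eq_mul] at h1
    have h2 : (P : ℝ) ≤ 1 / 4 * Δ * Real.log n := by
      have h3 : (P : ℝ) / (1 / 4 * Δ) ≤ Real.log n := by linarith
      rw [div_le_iff₀ (by positivity)] at h3
      linarith
    nlinarith
  -- split
  have hBI : MeasurableSet (B ∩ Set.Ioc s t) := hBm.inter measurableSet_Ioc
  have hsplit : ∫ x in Set.Ioc s t, S x =
      (∫ x in B ∩ Set.Ioc s t, S x) + ∫ x in Set.Ioc s t \ B, S x := by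
    have := integral_inter_add_sdiff (μ := volume) (f := S) (s := Set.Ioc s t) hBm hSint
    rw [Set.inter_comm] at this
    exact this.symm
  set m := volume.real (B ∩ Set.Ioc s t) with hm
  have hmle : m ≤ t - s := by
    rw [hm, ← Real.volume_real_Ioc_of_le hst.le]
    exact measureReal_mono Set.inter_subset_right (by simp)
  have hm0 : 0 ≤ m := measureReal_nonneg
  have hB1 : ∫ x in B ∩ Set.Ioc s t, S x ≤ m * (c * Real.log n) := by
    rw [hm, ← smul_eq_mul, ← setIntegral_const]
    refine setIntegral_mono_on (hSint.mono_set Set.inter_subset_right) (integrableOn_const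
      (ne_top_of_le_ne_top (by simp : volume (Set.Ioc s t) ≠ ⊤) (measure_mono Set.inter_subset_right)))
      hBI fun x hx => ?_
    have := hx.1.2
    simp only [Set.mem_iInter, Set.mem_ofPred_eq] at this
    exact (hSC x).trans (this n hn2)
  have hB2 : Δ / 2 * (t - s) * Real.log n ≤ ∫ x in Set.Ioc s t \ B, S x := by
    have h1 : m * (c * Real.log n) ≤ (t - s) * (c * Real.log n) :=
      mul_le_mul_of_nonneg_right hmle (by positivity)
    nlinarith
  -- Cauchy-Schwarz
  have hm' : volume.real (Set.Ioc s t \ B) = (t - s) - m := by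
    have h1 := measureReal_inter_add_sdiff (μ := volume) (s := Set.Ioc s t) hBm (by simp)
    rw [Real.volume_real_Ioc_of_le hst.le, Set.inter_comm] at h1
    linarith
  have hSm : Measurable S := Finset.measurable_sum _ fun p _ => (measurable_ff p).comp (hy p)
  have hSbd : ∀ x, S x ≤ n + 1 := by
    intro x
    calc S x ≤ ∑ p ∈ (Finset.Icc P n).filter Nat.Prime, (1 : ℝ) :=
          Finset.sum_le_sum fun p _ => ff_le_one p _
      _ = (((Finset.Icc P n).filter Nat.Prime).card : ℝ) := by simp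
      _ ≤ n + 1 := by
          have h1 := (Finset.card_filter_le (Finset.Icc P n) Nat.Prime)
          rw [Nat.card_Icc] at h1
          have h2 : ((Finset.Icc P n).filter Nat.Prime).card ≤ n + 1 := by omega
          exact_mod_cast h2
  have hS2int : IntegrableOn (fun x => S x ^ 2) (Set.Ioc s t) := by
    refine Measure.integrableOn_of_bounded (M := ((n : ℝ) + 1) ^ 2) (by simp)
      (hSm.pow_const 2).aestronglyMeasurable ?_
    exact Eventually.of_forall fun x => by
      rw [Real.norm_eq_abs, abs_of_nonneg (by positivity)]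
      exact pow_le_pow_left₀ (hS0 x) (hSbd x) 2
  set E := Set.Ioc s t \ B with hE
  have hEm : MeasurableSet E := measurableSet_Ioc.diff hBm
  have hEfin : volume E ≠ ⊤ :=
    ne_top_of_le_ne_top (by simp : volume (Set.Ioc s t) ≠ ⊤) (measure_mono Set.sdiff_subset)
  have hEs : ∫ x in E, S x ^ 2 ≤ K * (t - s) * (Real.log n) ^ 2 := by
    refine le_trans ?_ hn4
    exact setIntegral_mono_set hS2int (Eventually.of_forall fun x => sq_nonneg _)
      Set.sdiff_subset.eventuallyLE
  -- quadratic inequality instead of Cauchy-Schwarz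
  have hquad : ∀ lam : ℝ, 0 < lam → ∫ x in E, S x ≤
      (lam * (∫ x in E, S x ^ 2) + (1 / lam) * volume.real E) / 2 := by
    intro lam hlam
    have h1 : ∫ x in E, S x ≤ ∫ x in E, (lam / 2 * S x ^ 2 + 1 / (2 * lam)) := by
      refine setIntegral_mono_on (hSint.mono_set Set.sdiff_subset)
        (((hS2int.mono_set Set.sdiff_subset).const_mul _).add (integrableOn_const hEfin)) hEm
        fun x _ => ?_
      have h2 : 0 ≤ (lam * S x - 1) ^ 2 / (2 * lam) := by positivity
      have h3 : (lam * S x - 1) ^ 2 / (2 * lam) = lam / 2 * S x ^ 2 + 1 / (2 * lam) - S x := by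
        field_simp; ring
      linarith
    rw [integral_add ((hS2int.mono_set Set.sdiff_subset).const_mul _) (integrableOn_const hEfin),
      integral_const_mul, setIntegral_const, smul_eq_mul, ← hE] at h1
    refine h1.trans (le_of_eq ?_)
    field_simp
  -- choose lam
  by_contra hcon
  push Not at hcon
  have hEv : volume.real E < κ * (t - s) := by
    rw [hm']; linarith
  have hE0 : 0 ≤ volume.real E := measureReal_nonneg
  set lam := Δ / (2 * K * Real.log n) with hlam
  have hlam0 : 0 < lam := by positivity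
  have hq := hquad lam hlam0
  have h5 : lam * (∫ x in E, S x ^ 2) ≤ Δ / 2 * (t - s) * Real.log n := by
    calc lam * (∫ x in E, S x ^ 2) ≤ lam * (K * (t - s) * (Real.log n) ^ 2) :=
          mul_le_mul_of_nonneg_left hEs hlam0.le
      _ = _ := by rw [hlam]; field_simp
  have h6 : (1 / lam) * volume.real E < Δ / 2 * (t - s) * Real.log n := by
    calc (1 / lam) * volume.real E < (1 / lam) * (κ * (t - s)) :=
          mul_lt_mul_of_pos_left hEv (by positivity)
      _ = _ := by rw [hlam, hκ]; field_simp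
  linarith

/-- **The almost everywhere theorem for one-parameter families.** -/
theorem one_param {y y' : ℕ → ℝ → ℝ} (hy : ∀ p, Measurable (y p))
    (hfam : ∀ a0 a1 : ℝ, 0 < a0 → a0 < a1 → ∃ D : ℝ, 0 ≤ D ∧
      ∀ᶠ p : ℕ in atTop, Loc a0 a1 D p (y p) (y' p)) :
    ∀ᵐ t : ℝ, 0 < t →
      (∀ c : ℝ, c < Real.exp Real.eulerMascheroniConstant / t →
        ∃ᶠ n : ℕ in atTop, c * Real.log n < C1 y t n) ∧
      (∀ c : ℝ, Real.exp Real.eulerMascheroniConstant / t < c →
        ∃ᶠ n : ℕ in atTop, C1 y t n < c * Real.log n) := by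
  set G := Real.exp Real.eulerMascheroniConstant with hG
  have hG0 : 0 < G := Real.exp_pos _
  have hU : ∀ᵐ t : ℝ, ∀ (a b c : ℚ) (n0 : ℕ), 0 < (a : ℝ) → (a : ℝ) < b → G / a < c →
      ¬ (t ∈ Set.Ioo (a : ℝ) b ∩ ⋂ n ∈ Set.Ici n0, {t | (c : ℝ) * Real.log n ≤ C1 y t n}) := by
    simp only [ae_all_iff]
    intro a b c n0 ha hab hc
    obtain ⟨D, hD, hL⟩ := hfam a b ha hab
    have := upper_null ha hD hy hL hc n0
    rw [ae_iff]
    refine measure_mono_null (fun t ht => ?_) this
    simp only [Set.mem_ofPred_eq, not_not] at ht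
    exact ht
  have hLo : ∀ᵐ t : ℝ, ∀ (a b c : ℚ) (n0 : ℕ), 0 < (a : ℝ) → (a : ℝ) < b → 0 ≤ (c : ℝ) → c < G / b →
      ¬ (t ∈ Set.Ioo (a : ℝ) b ∩ ⋂ n ∈ Set.Ici n0, {t | C1 y t n ≤ (c : ℝ) * Real.log n}) := by
    simp only [ae_all_iff]
    intro a b c n0 ha hab hc0 hc
    obtain ⟨D, hD, hL⟩ := hfam (a / 2) (b + 1) (by positivity) (by linarith)
    have := lower_null (b0 := a) (b1 := b) (by positivity) hD (by linarith) (by linarith) hy hL hc0 hc
      hab n0
    rw [ae_iff]
    refine measure_mono_null (fun t ht => ?_) this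
    simp only [Set.mem_ofPred_eq, not_not] at ht
    exact ht
  filter_upwards [hU, hLo] with t h1 h2 ht
  constructor
  · intro c hc
    rw [Filter.frequently_iff_forall_eventually_exists_and]
    intro P hP
    obtain ⟨n0, hn0⟩ := eventually_atTop.1 hP
    -- choose rational data
    have hmax : max c 0 < G / t := max_lt hc (by positivity)
    obtain ⟨c', hc1, hc2⟩ := exists_rat_btwn hmax
    have hc'0 : (0 : ℝ) < c' := lt_of_le_of_lt (le_max_right _ _) hc1
    obtain ⟨a, ha1, ha2⟩ := exists_rat_btwn ht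
    have hb : t < G / c' := by
      rw [lt_div_iff₀ hc'0]
      rw [lt_div_iff₀ ht] at hc2
      linarith
    obtain ⟨b, hb1, hb2⟩ := exists_rat_btwn hb
    have hb0 : (0 : ℝ) < b := lt_trans ht hb1
    have hnot := h2 a b c' n0 ha1 (ha2.trans hb1) hc'0.le (by
      rw [lt_div_iff₀ hb0]
      rw [lt_div_iff₀ hc'0] at hb2
      linarith)
    simp only [Set.mem_inter_iff, Set.mem_Ioo, Set.mem_iInter, Set.mem_ofPred_eq, Set.mem_Ici,
      not_and, not_forall, not_le] at hnot
    obtain ⟨n, hn, hlt⟩ := hnot ⟨ha2, hb1⟩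
    refine ⟨n, lt_of_le_of_lt ?_ hlt, hn0 n hn⟩
    exact mul_le_mul_of_nonneg_right ((le_max_left _ _).trans hc1.le) (Real.log_natCast_nonneg n)
  · intro c hc
    rw [Filter.frequently_iff_forall_eventually_exists_and]
    intro P hP
    obtain ⟨n0, hn0⟩ := eventually_atTop.1 hP
    have hc0 : 0 < c := lt_trans (by positivity) hc
    obtain ⟨c', hc1, hc2⟩ := exists_rat_btwn hc
    have hc'0 : (0 : ℝ) < c' := lt_trans (by positivity) hc1
    have ha : G / c' < t := by
      rw [div_lt_iff₀ hc'0]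
      rw [div_lt_iff₀ ht] at hc1
      linarith
    obtain ⟨a, ha1, ha2⟩ := exists_rat_btwn ha
    have ha0 : (0 : ℝ) < a := lt_trans (by positivity) ha1
    obtain ⟨b, hb1, _⟩ := exists_rat_btwn (show t < t + 1 by linarith)
    have hnot := h1 a b c' n0 ha0 (ha2.trans hb1) (by
      rw [div_lt_iff₀ ha0]
      rw [div_lt_iff₀ hc'0] at ha1
      linarith)
    simp only [Set.mem_inter_iff, Set.mem_Ioo, Set.mem_iInter, Set.mem_ofPred_eq, Set.mem_Ici,
      not_and, not_forall, not_le] at hnot
    obtain ⟨n, hn, hlt⟩ := hnot ⟨ha2, hb1⟩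
    refine ⟨n, lt_of_lt_of_le hlt ?_, hn0 n hn⟩
    exact mul_le_mul_of_nonneg_right hc2.le (Real.log_natCast_nonneg n)

end Pool.Agent.H447R2.ML
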