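import Mathlib
import Pool.Agent.H447R2.ML.P8

set_option autoImplicit false

/-!
# Integer parts of the values of a one-parameter family
-/

namespace Pool.Agent.H447R2.ML

open Filter Topology MeasureTheory
open Pool.Agent.H305R2 (roughPart ff measurable_ff ff_nonneg ff_le_one integrableOn_ff NN
  mem_Ioc_log bounds mertens_ratio log_nat_tendsto cesaro)

/-- number of primes `p ≤ n` such that the `p`-rough part of `⌊val p x⌋` is prime -/
noncomputable def cv (val : ℕ → ℝ → ℝ) (x : ℝ) (n : ℕ) : ℕ :=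
  ((Finset.range (n + 1)).filter (fun p => p.Prime ∧ (roughPart p ⌊val p x⌋₊).Prime)).card

/-- the coordinate change -/
lemma ae_exp1 {P : ℝ → Prop} (h : ∀ᵐ t : ℝ, P (Real.exp t)) : ∀ᵐ x : ℝ, 0 < x → P x := by
  rw [ae_iff] at h ⊢
  have h1 : volume (Real.exp '' {t : ℝ | ¬ P (Real.exp t)}) = 0 :=
    addHaar_image_eq_zero_of_differentiableOn_of_addHaar_eq_zero volume
      Real.differentiable_exp.differentiableOn h
  refine measure_mono_null ?_ h1
  intro x hx
  simp only [Set.mem_ofPred_eq, Classical.not_imp] at hx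
  refine ⟨Real.log x, ?_, Real.exp_log hx.1⟩
  simp only [Set.mem_ofPred_eq]
  rw [Real.exp_log hx.1]
  exact hx.2

lemma ff_eq_floor {p : ℕ} {v : ℝ} (hv : 0 < v) (hn : ∀ m : ℕ, v ≠ m) :
    ff p (Real.log v) = if (roughPart p ⌊v⌋₊).Prime then 1 else 0 := by
  unfold ff NN
  rw [Real.exp_log hv]
  have h2 : ⌈v⌉₊ = ⌊v⌋₊ + 1 := by
    rw [Nat.ceil_eq_iff (Nat.succ_ne_zero _)]
    constructor
    · rw [Nat.succ_sub_one]
      exact lt_of_le_of_ne (Nat.floor_le hv.le) fun h => hn _ h.symm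
    · push_cast
      exact (Nat.lt_floor_add_one _).le
  rw [h2, Nat.add_sub_cancel]

/-- comparison of the two counting functions -/
lemma compare_counts (val : ℕ → ℝ → ℝ) (x : ℝ) (y : ℕ → ℝ → ℝ) (t : ℝ) {P : ℕ}
    (h : ∀ p, P ≤ p → p.Prime → ff p (y p t) = if (roughPart p ⌊val p x⌋₊).Prime then 1 else 0)
    (n : ℕ) : C1 y t n ≤ cv val x n + P ∧ (cv val x n : ℝ) ≤ C1 y t n + P := by
  have e : (cv val x n : ℝ) = ∑ p ∈ (Finset.Icc 1 n).filter Nat.Prime,
      if (roughPart p ⌊val p x⌋₊).Prime then (1 : ℝ) else 0 := by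
    unfold cv
    rw [← Finset.sum_filter, Finset.sum_const, nsmul_eq_mul, mul_one, Finset.filter_filter]
    congr 2
    ext p
    simp only [Finset.mem_filter, Finset.mem_range, Finset.mem_Icc]
    constructor
    · rintro ⟨h1, h2, h3⟩
      exact ⟨⟨h2.one_lt.le, by omega⟩, h2, h3⟩
    · rintro ⟨h1, h2, h3⟩
      exact ⟨by omega, h2, h3⟩
  have key : ∀ (f g : ℕ → ℝ), (∀ p, f p ≤ 1) → (∀ p, 0 ≤ g p) →
      (∀ p, P ≤ p → p.Prime → f p = g p) →
      ∑ p ∈ (Finset.Icc 1 n).filter Nat.Prime, f p ≤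
        ∑ p ∈ (Finset.Icc 1 n).filter Nat.Prime, g p + P := by
    intro f g hf hg hfg
    have h1 : ∀ p ∈ (Finset.Icc 1 n).filter Nat.Prime, f p ≤ g p + if p < P then 1 else 0 := by
      intro p hp
      rw [Finset.mem_filter] at hp
      split_ifs with h2
      · have := hf p; have := hg p; linarith
      · rw [add_zero]; exact (hfg p (not_lt.1 h2) hp.2).le
    refine (Finset.sum_le_sum h1).trans ?_
    rw [Finset.sum_add_distrib]
    refine add_le_add le_rfl ?_
    rw [← Finset.sum_filter, Finset.sum_const, nsmul_eq_mul, mul_one]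
    have h2 : ((Finset.Icc 1 n).filter Nat.Prime).filter (fun p => p < P) ⊆ Finset.range P := by
      intro p hp
      rw [Finset.mem_filter] at hp
      exact Finset.mem_range.2 hp.2
    have h3 := Finset.card_le_card h2
    rw [Finset.card_range] at h3
    exact_mod_cast h3
  rw [e]
  unfold C1
  constructor
  · refine key _ _ (fun p => ff_le_one p _) (fun p => ?_) h
    split_ifs <;> norm_num
  · refine key _ _ (fun p => ?_) (fun p => ff_nonneg p _) fun p h1 h2 => (h p h1 h2).symm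
    split_ifs <;> norm_num

/-- transfer of the two frequently-statements -/
lemma transfer {G : ℝ} {F H : ℕ → ℝ} {P : ℝ} (hFH : ∀ n, F n ≤ H n + P) (hHF : ∀ n, H n ≤ F n + P)
    (h1 : ∀ c : ℝ, c < G → ∃ᶠ n : ℕ in atTop, c * Real.log n < F n)
    (h2 : ∀ c : ℝ, G < c → ∃ᶠ n : ℕ in atTop, F n < c * Real.log n) :
    (∀ c : ℝ, c < G → ∃ᶠ n : ℕ in atTop, c * Real.log n < H n) ∧
    (∀ c : ℝ, G < c → ∃ᶠ n : ℕ in atTop, H n < c * Real.log n) := by
  constructor
  · intro c hc
    obtain ⟨c', hc1, hc2⟩ := exists_between hc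
    have hd : 0 < c' - c := by linarith
    have hlarge : ∀ᶠ n : ℕ in atTop, P / (c' - c) ≤ Real.log n := log_nat_tendsto.eventually_ge_atTop _
    refine ((h1 c' hc2).and_eventually hlarge).mono fun n hn => ?_
    have h3 := hn.2
    rw [div_le_iff₀ hd] at h3
    have := hFH n
    nlinarith [hn.1]
  · intro c hc
    obtain ⟨c', hc1, hc2⟩ := exists_between hc
    have hd : 0 < c - c' := by linarith
    have hlarge : ∀ᶠ n : ℕ in atTop, P / (c - c') ≤ Real.log n := log_nat_tendsto.eventually_ge_atTop _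
    refine ((h2 c' hc1).and_eventually hlarge).mono fun n hn => ?_
    have h3 := hn.2
    rw [div_le_iff₀ hd] at h3
    have := hHF n
    nlinarith [hn.1]

theorem one_param_val {val y' : ℕ → ℝ → ℝ} (hval : ∀ p, Measurable (val p))
    (hpos : ∀ p : ℕ, 1 ≤ p → ∀ x : ℝ, 1 < x → 0 < val p x)
    (hfam : ∀ a0 a1 : ℝ, 0 < a0 → a0 < a1 → ∃ D : ℝ, 0 ≤ D ∧
      ∀ᶠ p : ℕ in atTop, Loc a0 a1 D p (fun t => Real.log (val p (Real.exp t))) (y' p)) :
    ∀ᵐ x : ℝ, 1 < x →
      (∀ c : ℝ, c < Real.exp Real.eulerMascheroniConstant / Real.log x →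
        ∃ᶠ n : ℕ in atTop, c * Real.log n < cv val x n) ∧
      (∀ c : ℝ, Real.exp Real.eulerMascheroniConstant / Real.log x < c →
        ∃ᶠ n : ℕ in atTop, (cv val x n : ℝ) < c * Real.log n) := by
  set y : ℕ → ℝ → ℝ := fun p t => Real.log (val p (Real.exp t)) with hy
  have hym : ∀ p, Measurable (y p) := fun p =>
    Real.measurable_log.comp ((hval p).comp Real.measurable_exp)
  have h1 := one_param hym hfam
  -- integer values are rare
  have h2 : ∀ᵐ t : ℝ, ∀ a b : ℚ, 0 < (a : ℝ) → (a : ℝ) < b → t ∈ Set.Icc (a : ℝ) b →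
      ∃ P : ℕ, ∀ p, P ≤ p → ∀ m : ℕ, val p (Real.exp t) ≠ m := by
    simp only [ae_all_iff]
    intro a b ha hab
    obtain ⟨D, hD, hev⟩ := hfam a b ha hab
    have hlarge : ∀ᶠ p : ℕ in atTop, 3 * D < p := tendsto_natCast_atTop_atTop.eventually_gt_atTop _
    obtain ⟨P, hP⟩ := eventually_atTop.1 (hev.and (hlarge.and (eventually_ge_atTop 1)))
    have hnull : volume (⋃ p ∈ Set.Ici P, ⋃ m : ℕ,
        {t | t ∈ Set.Icc (a : ℝ) b ∧ val p (Real.exp t) = m}) = 0 := by
      refine Set.Countable.measure_zero ?_ volume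
      refine Set.Countable.biUnion (Set.to_countable _) fun p hp => Set.countable_iUnion fun m => ?_
      refine Set.Subsingleton.countable ?_
      rintro s ⟨hs1, hs2⟩ t ⟨ht1, ht2⟩
      obtain ⟨hL, hp3, _⟩ := hP p hp
      refine (hL.strict hp3 hD).injOn hs1 ht1 ?_
      show Real.log (val p (Real.exp s)) = Real.log (val p (Real.exp t))
      rw [hs2, ht2]
    have hae : ∀ᵐ t : ℝ, t ∉ ⋃ p ∈ Set.Ici P, ⋃ m : ℕ,
        {t | t ∈ Set.Icc (a : ℝ) b ∧ val p (Real.exp t) = m} := by
      rw [ae_iff]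
      refine measure_mono_null (fun t ht => ?_) hnull
      simpa only [Set.mem_ofPred_eq, not_not] using ht
    filter_upwards [hae] with t ht htI
    refine ⟨P, fun p hp m hm => ht ?_⟩
    simp only [Set.mem_iUnion]
    exact ⟨p, hp, m, htI, hm⟩
  have h3 : ∀ᵐ t : ℝ, 0 < t →
      (∀ c : ℝ, c < Real.exp Real.eulerMascheroniConstant / t →
        ∃ᶠ n : ℕ in atTop, c * Real.log n < cv val (Real.exp t) n) ∧
      (∀ c : ℝ, Real.exp Real.eulerMascheroniConstant / t < c →
        ∃ᶠ n : ℕ in atTop, (cv val (Real.exp t) n : ℝ) < c * Real.log n) := by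
    filter_upwards [h1, h2] with t ht1 ht2 ht0
    obtain ⟨k1, k2⟩ := ht1 ht0
    obtain ⟨a, ha1, ha2⟩ := exists_rat_btwn ht0
    obtain ⟨b, hb1, _⟩ := exists_rat_btwn (show t < t + 1 by linarith)
    obtain ⟨P, hP⟩ := ht2 a b ha1 (ha2.trans hb1) ⟨ha2.le, hb1.le⟩
    have hcomp : ∀ p, P ≤ p → p.Prime → ff p (y p t) =
        if (roughPart p ⌊val p (Real.exp t)⌋₊).Prime then 1 else 0 := by
      intro p hp hpp
      exact ff_eq_floor (hpos p hpp.one_lt.le _ (Real.one_lt_exp_iff.2 ht0)) (hP p hp)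
    exact transfer (F := C1 y t) (H := fun n => (cv val (Real.exp t) n : ℝ)) (P := P)
      (fun n => (compare_counts val (Real.exp t) y t hcomp n).1)
      (fun n => (compare_counts val (Real.exp t) y t hcomp n).2) k1 k2
  have h4 := ae_exp1 (P := fun x => 1 < x →
      (∀ c : ℝ, c < Real.exp Real.eulerMascheroniConstant / Real.log x →
        ∃ᶠ n : ℕ in atTop, c * Real.log n < cv val x n) ∧
      (∀ c : ℝ, Real.exp Real.eulerMascheroniConstant / Real.log x < c →
        ∃ᶠ n : ℕ in atTop, (cv val x n : ℝ) < c * Real.log n)) (by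
    filter_upwards [h3] with t ht hx
    rw [Real.log_exp]
    exact ht (Real.one_lt_exp_iff.1 hx))
  filter_upwards [h4] with x hx hx1
  exact hx (by linarith) hx1

/-- the phase functions `log ((e ^ (p t) + ε) h)` -/
lemma fam_of {ε : ℝ} (hε : |ε| ≤ 1) {H H' : ℝ → ℝ} (hH : ∀ t : ℝ, 0 < t → HasDerivAt H (H' t) t)
    (hc : ContinuousOn H' (Set.Ioi 0)) {y : ℕ → ℝ → ℝ}
    (hy : ∀ p : ℕ, 1 ≤ p → ∀ t : ℝ, 0 < t → y p t = Real.log (Real.exp (p * t) + ε) + H t) :
    ∀ a0 a1 : ℝ, 0 < a0 → a0 < a1 → ∃ D : ℝ, 0 ≤ D ∧ ∀ᶠ p : ℕ in atTop,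
      Loc a0 a1 D p (y p) (fun t => p * Real.exp (p * t) / (Real.exp (p * t) + ε) + H' t) := by
  intro a0 a1 ha0 ha
  have hε' := abs_le.1 hε
  have hsub : Set.Icc a0 a1 ⊆ Set.Ioi 0 := fun t ht => lt_of_lt_of_le ha0 ht.1
  have hHc : ContinuousOn H (Set.Icc a0 a1) := fun t ht =>
    (hH t (hsub ht)).continuousAt.continuousWithinAt
  obtain ⟨M, hM⟩ := isCompact_Icc.exists_bound_of_continuousOn hHc
  obtain ⟨M', hM'⟩ := isCompact_Icc.exists_bound_of_continuousOn (hc.mono hsub)
  have hM0 : 0 ≤ M := (norm_nonneg _).trans (hM a0 ⟨le_rfl, ha.le⟩)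
  have hM'0 : 0 ≤ M' := (norm_nonneg _).trans (hM' a0 ⟨le_rfl, ha.le⟩)
  refine ⟨1 + 1 / a0 + M + M', by positivity, ?_⟩
  have hlarge : ∀ᶠ p : ℕ in atTop, 1 / a0 ≤ p := tendsto_natCast_atTop_atTop.eventually_ge_atTop _
  filter_upwards [hlarge, eventually_ge_atTop 1] with p hp hp1
  have hp1' : (1 : ℝ) ≤ p := by exact_mod_cast hp1
  have h1a : 0 < 1 / a0 := by positivity
  have hexp : ∀ t ∈ Set.Icc a0 a1, 1 + p * t ≤ Real.exp (p * t) ∧ 1 ≤ p * t := by
    intro t ht
    constructor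
    · have := Real.add_one_le_exp ((p : ℝ) * t); linarith
    · rw [div_le_iff₀ ha0] at hp
      have : (p : ℝ) * a0 ≤ p * t := mul_le_mul_of_nonneg_left ht.1 (by linarith)
      linarith
  refine ⟨fun t ht => ?_, fun t ht => ?_, fun t ht => ?_⟩
  · obtain ⟨h1, h2⟩ := hexp t ht
    rw [hy p hp1 t (hsub ht)]
    have h3 : |Real.log (Real.exp (p * t) + ε) - p * t| ≤ 1 := by
      have hl2 := Real.log_two_lt_d9
      have hpos : 0 < Real.exp (p * t) + ε := by linarith
      rw [abs_le]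
      constructor
      · have : p * t - Real.log 2 ≤ Real.log (Real.exp (p * t) + ε) := by
          rw [Real.le_log_iff_exp_le hpos, Real.exp_sub, Real.exp_log two_pos]
          linarith
        linarith
      · have : Real.log (Real.exp (p * t) + ε) ≤ p * t + Real.log 2 := by
          rw [Real.log_le_iff_le_exp hpos, Real.exp_add, Real.exp_log two_pos]
          linarith
        linarith
    have h4 := hM t ht
    rw [Real.norm_eq_abs] at h4
    have h5 : Real.log (Real.exp (p * t) + ε) + H t - p * t =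
        (Real.log (Real.exp (p * t) + ε) - p * t) + H t := by ring
    rw [h5]
    refine (abs_add_le _ _).trans ?_
    linarith
  · obtain ⟨h1, h2⟩ := hexp t ht
    have hpos : Real.exp (p * t) + ε ≠ 0 := by
      have : 0 < Real.exp (p * t) + ε := by linarith
      exact this.ne'
    have hd : HasDerivAt (fun t => Real.log (Real.exp (p * t) + ε) + H t)
        (p * Real.exp (p * t) / (Real.exp (p * t) + ε) + H' t) t := by
      have h3 : HasDerivAt (fun t : ℝ => Real.exp (p * t) + ε) (Real.exp (p * t) * (p * 1)) t :=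
        (((hasDerivAt_id t).const_mul (p : ℝ)).exp).add_const ε
      exact ((h3.log hpos).add (hH t (hsub ht))).congr_deriv (by ring)
    refine hd.congr_of_eventuallyEq ?_
    filter_upwards [Ioi_mem_nhds (hsub ht)] with u hu
    exact hy p hp1 u hu
  · obtain ⟨h1, h2⟩ := hexp t ht
    have hpos : 0 < Real.exp (p * t) + ε := by linarith
    have ht0 : 0 < t := hsub ht
    have h3 : |p * Real.exp (p * t) / (Real.exp (p * t) + ε) - p| ≤ 1 / a0 := by
      have e : p * Real.exp (p * t) / (Real.exp (p * t) + ε) - p =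
          -(p * ε) / (Real.exp (p * t) + ε) := by
        field_simp; ring
      rw [e, abs_div, abs_neg, abs_mul, abs_of_pos hpos, abs_of_pos (by linarith : (0 : ℝ) < p),
        div_le_div_iff₀ hpos ha0, one_mul]
      calc (p : ℝ) * |ε| * a0 ≤ p * 1 * a0 := by gcongr
        _ ≤ p * t := by
            have := mul_le_mul_of_nonneg_left ht.1 (show (0 : ℝ) ≤ p by linarith)
            linarith
        _ ≤ Real.exp (p * t) + ε := by linarith
    have h4 := hM' t ht
    rw [Real.norm_eq_abs] at h4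
    have h5 : p * Real.exp (p * t) / (Real.exp (p * t) + ε) + H' t - p =
        (p * Real.exp (p * t) / (Real.exp (p * t) + ε) - p) + H' t := by ring
    rw [h5]
    refine (abs_add_le _ _).trans ?_
    linarith

end Pool.Agent.H447R2.ML
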