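import Mathlib

set_option autoImplicit false

/-!
# Prime factors of `(a ^ p - b ^ p) / (a - b)`
-/

namespace Pool.Agent.H447R2.ML

lemma lt_of_dvd_quot {a b : ℤ} (hab : IsCoprime a b) {p q : ℕ} (hp : p.Prime)
    (hpd : ¬ (p : ℤ) ∣ a - b) (hq : q.Prime)
    (h : (q : ℤ) ∣ ∑ i ∈ Finset.range p, a ^ i * b ^ (p - 1 - i)) : p < q := by
  have : Fact q.Prime := ⟨hq⟩
  have : Fact p.Prime := ⟨hp⟩
  have hqZ : Prime (q : ℤ) := Nat.prime_iff_prime_int.1 hq
  have hgeom : (∑ i ∈ Finset.range p, a ^ i * b ^ (p - 1 - i)) * (a - b) = a ^ p - b ^ p :=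
    (Commute.all a b).geom_sum₂_mul p
  have hpow : (q : ℤ) ∣ a ^ p - b ^ p := hgeom ▸ h.mul_right _
  -- `q` does not divide `b`
  have hqb : ¬ (q : ℤ) ∣ b := by
    intro hb
    have h1 : (q : ℤ) ∣ b ^ p := dvd_pow hb hp.ne_zero
    have h2 : (q : ℤ) ∣ a ^ p := by
      have := dvd_add hpow h1
      simpa using this
    have h3 := hqZ.dvd_of_dvd_pow h2
    obtain ⟨u, v, huv⟩ := hab
    have h4 : (q : ℤ) ∣ 1 := by
      rw [← huv]
      exact dvd_add (h3.mul_left _) (hb.mul_left _)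
    exact hqZ.not_unit (isUnit_of_dvd_one h4)
  have hb0 : (b : ZMod q) ≠ 0 := by
    intro h1
    exact hqb ((ZMod.intCast_zmod_eq_zero_iff_dvd b q).1 h1)
  have hx : ((a : ZMod q) / b) ^ p = 1 := by
    rw [div_pow, div_eq_one_iff_eq (pow_ne_zero _ hb0), ← sub_eq_zero]
    have := (ZMod.intCast_zmod_eq_zero_iff_dvd (a ^ p - b ^ p) q).2 hpow
    push_cast at this
    exact this
  by_cases hd : (q : ℤ) ∣ a - b
  · -- then `q = p`
    exfalso
    have hab' : (a : ZMod q) = b := by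
      rw [← sub_eq_zero]
      have := (ZMod.intCast_zmod_eq_zero_iff_dvd (a - b) q).2 hd
      push_cast at this
      exact this
    have h1 := (ZMod.intCast_zmod_eq_zero_iff_dvd _ q).2 h
    push_cast at h1
    rw [hab'] at h1
    have h2 : ∑ i ∈ Finset.range p, (b : ZMod q) ^ i * (b : ZMod q) ^ (p - 1 - i) =
        p * (b : ZMod q) ^ (p - 1) := by
      rw [Finset.sum_congr rfl (g := fun _ => (b : ZMod q) ^ (p - 1))]
      · rw [Finset.sum_const, Finset.card_range, nsmul_eq_mul]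
      · intro i hi
        rw [← pow_add]
        congr 1
        have := Finset.mem_range.1 hi
        omega
    rw [h2] at h1
    rcases mul_eq_zero.1 h1 with h3 | h3
    · have h4 : q ∣ p := (ZMod.natCast_eq_zero_iff _ _).1 h3
      have h5 := (Nat.prime_dvd_prime_iff_eq hq hp).1 h4
      exact hpd (h5 ▸ hd)
    · exact pow_ne_zero _ hb0 h3
  · have hx1 : (a : ZMod q) / b ≠ 1 := by
      intro h1
      rw [div_eq_one_iff_eq hb0, ← sub_eq_zero] at h1
      apply hd
      rw [← ZMod.intCast_zmod_eq_zero_iff_dvd]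
      push_cast
      exact h1
    have hord : orderOf ((a : ZMod q) / b) = p := orderOf_eq_prime hx hx1
    have hx0 : (a : ZMod q) / b ≠ 0 := by
      intro h1
      rw [h1, zero_pow hp.ne_zero] at hx
      exact zero_ne_one hx
    have h6 : ((a : ZMod q) / b) ^ (q - 1) = 1 := ZMod.pow_card_sub_one_eq_one hx0
    have h7 : p ∣ q - 1 := by
      rw [← hord]
      exact orderOf_dvd_of_pow_eq_one h6
    have h8 : 0 < q - 1 := Nat.sub_pos_of_lt hq.one_lt
    have h9 := Nat.le_of_dvd h8 h7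
    omega

end Pool.Agent.H447R2.ML
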