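import Mathlib
import Pool.Agent.H447R2.ML.Law
import Pool.Agent.H447R2.ML.Quot
import Pool.Agent.H447R2.ML.Luc

set_option autoImplicit false

/-!
# The special points
-/

namespace Pool.Agent.H447R2.ML

open Pool.Agent.H305R2 (roughPart)

lemma geom_pos {a b : ℤ} (h1 : -a < b) (h2 : b < a) {p : ℕ} (hp : p ≠ 0) :
    0 < ∑ i ∈ Finset.range p, a ^ i * b ^ (p - 1 - i) := by
  have hgeom : (∑ i ∈ Finset.range p, a ^ i * b ^ (p - 1 - i)) * (a - b) = a ^ p - b ^ p :=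
    (Commute.all a b).geom_sum₂_mul p
  have h3 : b ^ p < a ^ p := by
    calc b ^ p ≤ |b| ^ p := by
          rw [← abs_pow]; exact le_abs_self _
      _ < a ^ p := pow_lt_pow_left₀ (abs_lt.2 ⟨h1, h2⟩) (abs_nonneg _) hp
  have h4 : 0 < a - b := by linarith
  by_contra h5
  push Not at h5
  have := mul_nonpos_of_nonpos_of_nonneg h5 h4.le
  linarith

lemma quot_real {a b : ℤ} (h2 : b < a) (p : ℕ) :
    ((∑ i ∈ Finset.range p, a ^ i * b ^ (p - 1 - i) : ℤ) : ℝ) =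
      1 / ((a : ℝ) - b) * (a : ℝ) ^ p - (b : ℝ) ^ p / ((a : ℝ) - b) := by
  have hgeom : (∑ i ∈ Finset.range p, a ^ i * b ^ (p - 1 - i)) * (a - b) = a ^ p - b ^ p :=
    (Commute.all a b).geom_sum₂_mul p
  have h3 : ((∑ i ∈ Finset.range p, a ^ i * b ^ (p - 1 - i) : ℤ) : ℝ) * ((a : ℝ) - b) =
      (a : ℝ) ^ p - (b : ℝ) ^ p := by
    exact_mod_cast hgeom
  have h4 : (a : ℝ) - b ≠ 0 := by
    have : (b : ℝ) < a := by exact_mod_cast h2
    linarith
  field_simp
  exact h3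

/-- the special point of the family of `(a ^ p - b ^ p) / (a - b)` -/
theorem rough_quot {a b : ℤ} (hab : IsCoprime a b) (h1 : -a < b) (h2 : b < a) {p : ℕ}
    (hp : p.Prime) (hpd : ¬ (p : ℤ) ∣ a - b) {x : ℝ}
    (hx : x = 1 / ((a : ℝ) - b) * (a : ℝ) ^ p - (b : ℝ) ^ p / ((a : ℝ) - b)) :
    ((roughPart p ⌊x⌋₊ : ℕ) : ℤ) = ∑ i ∈ Finset.range p, a ^ i * b ^ (p - 1 - i) := by
  have hpos := geom_pos h1 h2 hp.ne_zero
  obtain ⟨N, hN⟩ := Int.eq_ofNat_of_zero_le hpos.le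
  rw [← quot_real h2, hN] at hx
  have hfl : ⌊x⌋₊ = N := by
    rw [hx]
    simp
  rw [hfl, hN]
  rw [roughPart_eq_self]
  · intro h0
    rw [hN, h0] at hpos
    simp at hpos
  · intro q hq hqN
    refine lt_of_dvd_quot hab hp hpd hq ?_
    rw [hN]
    exact_mod_cast hqN

/-- Closed forms of the Lucas sequences. -/
lemma closed (P : ℕ) {s α ψ : ℝ} (hs : s ^ 2 = (P : ℝ) ^ 2 + 4) (hα : α = (P + s) / 2)
    (hψ : ψ = (P - s) / 2) : ∀ n : ℕ, (U P n : ℝ) * s = α ^ n - ψ ^ n ∧ (V P n : ℝ) = α ^ n + ψ ^ n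
  | 0 => by
      rw [U_zero, show V P 0 = 2 from rfl]
      simp
      norm_num
  | 1 => by
      rw [U_one, show V P 1 = P from rfl, pow_one, pow_one, hα, hψ]
      constructor
      · push_cast; ring
      · ring
  | (n + 2) => by
      obtain ⟨h1, h2⟩ := closed P hs hα hψ n
      obtain ⟨h3, h4⟩ := closed P hs hα hψ (n + 1)
      have e1 : α ^ 2 = P * α + 1 := by rw [hα]; nlinarith
      have e2 : ψ ^ 2 = P * ψ + 1 := by rw [hψ]; nlinarith
      rw [U_add_two, V_add_two]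
      push_cast
      constructor
      · have : ((P : ℝ) * U P (n + 1) + U P n) * s = P * (α ^ (n + 1) - ψ ^ (n + 1)) + (α ^ n - ψ ^ n) := by
          rw [← h3, ← h1]; ring
        rw [this, pow_add α n 2, pow_add ψ n 2, e1, e2]
        ring
      · rw [h4, h2, pow_add α n 2, pow_add ψ n 2, e1, e2]
        ring

lemma U_pos (P : ℕ) : ∀ n : ℕ, 0 < P → 0 < U P (n + 1)
  | 0, _ => by rw [U_one]; exact one_pos
  | 1, h => by rw [U_two]; exact h
  | (n + 2), h => by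
      rw [U_add_two]
      have := U_pos P n h
      omega

lemma V_pos (P : ℕ) (n : ℕ) (h : 0 < P) : 0 < V P n := by
  rcases n with _ | n
  · exact two_pos
  · rw [V_eq, U_add_two]
    have := U_pos P n h
    have h2 : 0 < P * U P (n + 1) := Nat.mul_pos h this
    omega

/-- the special point for the terms of prime index of the Lucas sequence -/
theorem rough_U (P : ℕ) (hP : 0 < P) {p : ℕ} (hp : p.Prime) (h5 : 5 ≤ p) (hd : ¬ p ∣ P ^ 2 + 4)
    {x : ℝ} (hx : x = U P p) : roughPart p ⌊x⌋₊ = U P p := by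
  rw [hx, Nat.floor_natCast]
  refine roughPart_eq_self ?_ fun q hq h => lt_of_dvd_U P hp h5 hd hq h
  obtain ⟨n, rfl⟩ := Nat.exists_eq_succ_of_ne_zero hp.ne_zero
  exact (U_pos P n hP).ne'

end Pool.Agent.H447R2.ML
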