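import Mathlib
import Pool.Agent.H447R2.ML.Spec

set_option autoImplicit false

/-!
# The solutions of the negative Pell equation
-/

namespace Pool.Agent.H447R2.ML

open Pool.Agent.H305R2 (roughPart)

lemma V_two_mod : ∀ n : ℕ, V 2 n % 4 = 2
  | 0 => rfl
  | 1 => rfl
  | (n + 2) => by
      have h1 := V_two_mod n
      have h2 := V_two_mod (n + 1)
      rw [V_add_two]
      omega

lemma sqrt8 : (2 * √2 : ℝ) ^ 2 = ((2 : ℕ) : ℝ) ^ 2 + 4 := by
  rw [mul_pow, Real.sq_sqrt (by norm_num)]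
  norm_num

lemma closed2 (n : ℕ) : (U 2 n : ℝ) * (2 * √2) = (1 + √2) ^ n - (1 - √2) ^ n ∧
    (V 2 n : ℝ) = (1 + √2) ^ n + (1 - √2) ^ n :=
  closed 2 (s := 2 * √2) sqrt8 (by push_cast; ring) (by push_cast; ring) n

/-- comparison of rational and irrational parts -/
lemma parts {p r u v : ℕ} (h : (p : ℝ) + r * √2 = u + v * √2) : p = u ∧ r = v := by
  have hirr : Irrational (√2) := irrational_sqrt_two
  have h1 : ((p : ℝ) - u) = (v - r) * √2 := by linarith
  by_cases hv : (v : ℤ) - r = 0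
  · have h2 : (v : ℝ) - r = 0 := by exact_mod_cast hv
    rw [h2, zero_mul] at h1
    constructor
    · have : (p : ℝ) = u := by linarith
      exact_mod_cast this
    · omega
  · exfalso
    have h2 : (v : ℝ) - r ≠ 0 := by exact_mod_cast hv
    have h3 : √2 = ((p : ℝ) - u) / (v - r) := by
      field_simp
      linarith
    apply hirr
    refine ⟨((p : ℚ) - u) / (v - r), ?_⟩
    rw [h3]
    push_cast
    ring

/-- the coordinates of the powers of `1 + √2` -/
lemma pow_eq (n : ℕ) : ((V 2 n / 2 : ℕ) : ℝ) + (U 2 n : ℕ) * √2 = (1 + √2) ^ n := by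
  obtain ⟨h1, h2⟩ := closed2 n
  have h3 : 2 * (V 2 n / 2) = V 2 n := by
    have := V_two_mod n
    omega
  have h4 : 2 * ((V 2 n / 2 : ℕ) : ℝ) = V 2 n := by exact_mod_cast h3
  have h5 : (2 : ℝ) * (((V 2 n / 2 : ℕ) : ℝ) + (U 2 n : ℕ) * √2) = 2 * (1 + √2) ^ n := by
    rw [mul_add, h4, h2]
    linarith
  linarith

/-- The special point for `p`. -/
theorem rough_pell_p {n : ℕ} (hn : n.Prime) (h5 : 5 ≤ n) {p r : ℕ}
    (h : (p : ℝ) + r * √2 = (1 + √2) ^ n) :
    roughPart n ⌊1 / 2 * (1 + √2) ^ n + (1 - √2) ^ n / 2⌋₊ = p := by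
  obtain ⟨h1, h2⟩ := parts (h.trans (pow_eq n).symm)
  have h3 : (V 2 n / 2 : ℕ) * 2 = V 2 n := by
    have := V_two_mod n
    omega
  have h4 : ((V 2 n / 2 : ℕ) : ℝ) = 1 / 2 * (1 + √2) ^ n + (1 - √2) ^ n / 2 := by
    have h5 : ((V 2 n / 2 : ℕ) : ℝ) * 2 = V 2 n := by exact_mod_cast h3
    rw [(closed2 n).2] at h5
    linarith
  rw [← h4, Nat.floor_natCast, ← h1]
  have hpos : p ≠ 0 := by
    have := V_two_mod n
    omega
  refine roughPart_eq_self hpos fun q hq hqp => ?_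
  have hqV : q ∣ V 2 n := by
    rw [← h3, ← h1]; exact hqp.mul_right _
  refine lt_of_dvd_V 2 hn h5 (fun hd => ?_) hq (fun hd => ?_) hqV
  · have := Nat.le_of_dvd (by norm_num) hd
    omega
  · have hq2 : q = 2 := by
      have := Nat.le_of_dvd (by norm_num) hd
      have := hq.two_le
      omega
    subst hq2
    rw [h1] at hqp
    have := V_two_mod n
    omega

/-- The special point for `r`. -/
theorem rough_pell_r {n : ℕ} (hn : n.Prime) (h5 : 5 ≤ n) {p r : ℕ}
    (h : (p : ℝ) + r * √2 = (1 + √2) ^ n) :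
    roughPart n ⌊1 / (2 * √2) * (1 + √2) ^ n - (1 - √2) ^ n / (2 * √2)⌋₊ = r := by
  obtain ⟨h1, h2⟩ := parts (h.trans (pow_eq n).symm)
  rw [h2]
  refine rough_U 2 two_pos hn h5 (fun hd => ?_) ?_
  · have := Nat.le_of_dvd (by norm_num) hd
    interval_cases n <;> revert hd <;> norm_num
    all_goals exact absurd hn (by norm_num)
  · rw [eq_comm, ← mul_right_cancel_iff_of_pos (show (0 : ℝ) < 2 * √2 by positivity), (closed2 n).1]
    have : (√2 : ℝ) ≠ 0 := by positivity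
    field_simp

lemma abs_psi_le (n : ℕ) : |(1 - √2) ^ n| ≤ 1 := by
  have h1 : 1 ≤ √2 := Real.le_sqrt_of_sq_le (by norm_num)
  have h3 : √2 ≤ 2 := Real.sqrt_le_iff.2 ⟨by norm_num, by norm_num⟩
  have h2 : |1 - √2| ≤ 1 := by
    rw [abs_le]; constructor <;> linarith
  rw [abs_pow]
  exact pow_le_one₀ (abs_nonneg _) h2

end Pool.Agent.H447R2.ML
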