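import Mathlib
import Pool.Agent.H305R2.W1b
import Pool.Agent.H447R2.ML.Q1

set_option autoImplicit false

/-!
# Windows of arbitrary length

Adapted from `Pool.Agent.H305R2.W1` and `Pool.Agent.H305R2.W1b` (the case `l = 1`).
-/

namespace Pool.Agent.H447R2.ML

open Finset Filter Topology MeasureTheory
open Pool.Agent.H305R2 (pr pr_nonneg SMz mem_SMz SM_pos SM roughPart sum_rough_eq window_upper
  window_lower ff VV ZZ sum_le_VV tail_le VV_le VV_tendsto ZZ_nonneg ZZ_le_exp error_tendsto)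

/-- sum of the reciprocals of the `m` in the window with prime `p`-rough part -/
noncomputable def TL (l : ℝ) (p : ℕ) (y : ℝ) : ℝ :=
  ∑ m ∈ (Finset.Ioc ⌊Real.exp y⌋₊ ⌊Real.exp (y + l)⌋₊).filter (fun m => (roughPart p m).Prime),
    1 / (m : ℝ)

lemma RL_le_three {l : ℝ} (hl1 : l ≤ 1) {x : ℝ} (hx : 0 < x) : RL l x ≤ 3 := by
  unfold RL
  have he : Real.exp l ≤ 3 := by
    have := Real.exp_one_lt_d9
    have := Real.exp_le_exp.2 hl1
    linarith
  calc ∑ k ∈ Finset.Ioc ⌊x⌋₊ ⌊Real.exp l * x⌋₊, (k : ℝ)⁻¹ * pr k ≤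
      ∑ k ∈ Finset.Ioc ⌊x⌋₊ ⌊Real.exp l * x⌋₊, x⁻¹ := by
        refine Finset.sum_le_sum fun k hk => ?_
        rw [Finset.mem_Ioc, Nat.floor_lt hx.le] at hk
        have h1 : (k : ℝ)⁻¹ ≤ x⁻¹ := inv_anti₀ hx hk.1.le
        have h2 : pr k ≤ 1 := by unfold pr; split_ifs <;> norm_num
        have h3 : 0 ≤ (k : ℝ)⁻¹ := by positivity
        nlinarith [pr_nonneg k]
    _ = ((⌊Real.exp l * x⌋₊ - ⌊x⌋₊ : ℕ) : ℝ) * x⁻¹ := by
        rw [Finset.sum_const, Nat.card_Ioc, nsmul_eq_mul]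
    _ ≤ (Real.exp l * x) * x⁻¹ := by
        refine mul_le_mul_of_nonneg_right ?_ (by positivity)
        calc ((⌊Real.exp l * x⌋₊ - ⌊x⌋₊ : ℕ) : ℝ) ≤ (⌊Real.exp l * x⌋₊ : ℝ) := by
              exact_mod_cast Nat.sub_le _ _
          _ ≤ _ := Nat.floor_le (by positivity)
    _ = Real.exp l := by field_simp
    _ ≤ 3 := he

lemma RL_scaled (l y : ℝ) (s : ℕ) : RL l (Real.exp y / s) =
    ∑ k ∈ Finset.Ioc (⌊Real.exp y⌋₊ / s) (⌊Real.exp (y + l)⌋₊ / s), (k : ℝ)⁻¹ * pr k := by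
  unfold RL
  have e : Real.exp l * (Real.exp y / s) = Real.exp (y + l) / s := by
    rw [Real.exp_add]; ring
  rw [e, Nat.floor_div_natCast, Nat.floor_div_natCast]

lemma TL_eq (l : ℝ) (p : ℕ) (y : ℝ) : TL l p y =
    ∑ s ∈ SMz p (⌊Real.exp (y + l)⌋₊ : ℝ), (s : ℝ)⁻¹ *
      ∑ q ∈ (Finset.Ioc (⌊Real.exp y⌋₊ / s) (⌊Real.exp (y + l)⌋₊ / s)).filter
        (fun q => q.Prime ∧ p < q), (q : ℝ)⁻¹ := by
  unfold TL
  rw [sum_rough_eq]
  refine Finset.sum_congr rfl fun s _ => ?_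
  rw [Finset.mul_sum]
  refine Finset.sum_congr rfl fun q _ => ?_
  push_cast
  rw [one_div, mul_inv]

lemma TL_le (l : ℝ) (p : ℕ) (y : ℝ) : TL l p y ≤
    ∑ s ∈ SMz p (⌊Real.exp (y + l)⌋₊ : ℝ), (s : ℝ)⁻¹ * RL l (Real.exp y / s) := by
  rw [TL_eq]
  refine Finset.sum_le_sum fun s _ => mul_le_mul_of_nonneg_left ?_ (by positivity)
  rw [RL_scaled, Finset.sum_filter]
  refine Finset.sum_le_sum fun k _ => ?_
  unfold pr
  split_ifs with h1 h2 h2
  · simp
  · exact absurd h1.1 h2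
  · positivity
  · simp

lemma le_TL {l : ℝ} (hl : 0 ≤ l) {p : ℕ} {y z : ℝ} (hz : 0 < z) (hzy : z * (p + 1) ≤ Real.exp y) :
    ∑ s ∈ SMz p z, (s : ℝ)⁻¹ * RL l (Real.exp y / s) ≤ TL l p y := by
  rw [TL_eq]
  have hz1 : z ≤ Real.exp y := by
    have : (0 : ℝ) ≤ p := by positivity
    nlinarith
  have hsub : SMz p z ⊆ SMz p (⌊Real.exp (y + l)⌋₊ : ℝ) := by
    intro s hs
    rw [mem_SMz hz.le] at hs
    rw [mem_SMz (by positivity)]
    refine ⟨hs.1, ?_⟩
    have h1 : s ≤ ⌊Real.exp (y + l)⌋₊ := by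
      rw [Nat.le_floor_iff (Real.exp_pos _).le]
      exact hs.2.trans (hz1.trans (Real.exp_le_exp.2 (by linarith)))
    exact_mod_cast h1
  refine le_trans ?_ (Finset.sum_le_sum_of_subset_of_nonneg hsub fun s _ _ => by positivity)
  refine Finset.sum_le_sum fun s hs => mul_le_mul_of_nonneg_left ?_ (by positivity)
  rw [mem_SMz hz.le] at hs
  have hs0 : (0 : ℝ) < s := by exact_mod_cast SM_pos hs.1
  rw [RL_scaled, Finset.sum_filter]
  refine Finset.sum_le_sum fun k hk => ?_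
  have hpk : p < k := by
    rw [Finset.mem_Ioc] at hk
    refine lt_of_le_of_lt ?_ hk.1
    rw [← Nat.floor_div_natCast, Nat.le_floor_iff (by positivity), le_div_iff₀ hs0]
    nlinarith [hs.2]
  unfold pr
  split_ifs with h1 h2 h2
  · simp
  · exact absurd ⟨h1, hpk⟩ h2
  · exact absurd h2.1 h1
  · simp

lemma window_le_TL {l : ℝ} (hl : 0 ≤ l) {p : ℕ} {y : ℝ} (hy : 0 ≤ y) :
    ∫ t in Set.Ioc y (y + l), ff p t ≤ TL l p y + 2 * Real.exp (-y) := by
  have hA : 1 ≤ ⌊Real.exp y⌋₊ := Nat.floor_pos.2 (Real.one_le_exp hy)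
  have hA' : Real.exp y / 2 ≤ (⌊Real.exp y⌋₊ : ℝ) := by
    have h1 : (1 : ℝ) ≤ ⌊Real.exp y⌋₊ := by exact_mod_cast hA
    have h2 := Nat.lt_floor_add_one (Real.exp y)
    linarith
  refine (window_upper hy).trans ?_
  unfold TL
  have hAB : ⌊Real.exp y⌋₊ ≤ ⌊Real.exp (y + l)⌋₊ :=
    Nat.floor_mono (Real.exp_le_exp.2 (by linarith))
  have h1 : (Finset.Icc ⌊Real.exp y⌋₊ ⌊Real.exp (y + l)⌋₊) =
      insert ⌊Real.exp y⌋₊ (Finset.Ioc ⌊Real.exp y⌋₊ ⌊Real.exp (y + l)⌋₊) := by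
    ext x
    simp only [Finset.mem_Icc, Finset.mem_insert, Finset.mem_Ioc]
    omega
  rw [h1, Finset.sum_filter, Finset.sum_filter, Finset.sum_insert (by simp)]
  have h2 : (if (roughPart p ⌊Real.exp y⌋₊).Prime then 1 / (⌊Real.exp y⌋₊ : ℝ) else 0) ≤
      2 * Real.exp (-y) := by
    have h3 : 1 / (⌊Real.exp y⌋₊ : ℝ) ≤ 2 * Real.exp (-y) := by
      calc 1 / (⌊Real.exp y⌋₊ : ℝ) ≤ 1 / (Real.exp y / 2) :=
            one_div_le_one_div_of_le (by positivity) hA'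
        _ = 2 * Real.exp (-y) := by rw [Real.exp_neg]; field_simp
    split_ifs
    · exact h3
    · positivity
  linarith

lemma TL_le_window {l : ℝ} (hl : 0 ≤ l) {p : ℕ} {y : ℝ} (hy : 0 ≤ y) :
    TL l p y - 4 * Real.exp (-y) ≤ ∫ t in Set.Ioc y (y + l), ff p t := by
  have hA : 1 ≤ ⌊Real.exp y⌋₊ := Nat.floor_pos.2 (Real.one_le_exp hy)
  have hA' : Real.exp y / 2 ≤ (⌊Real.exp y⌋₊ : ℝ) := by
    have h1 : (1 : ℝ) ≤ ⌊Real.exp y⌋₊ := by exact_mod_cast hA
    have h2 := Nat.lt_floor_add_one (Real.exp y)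
    linarith
  refine le_trans ?_ (window_lower hy)
  unfold TL
  set A := ⌊Real.exp y⌋₊ with hAdef
  set B := ⌊Real.exp (y + l)⌋₊ with hBdef
  have hAB : A ≤ B := Nat.floor_mono (Real.exp_le_exp.2 (by linarith))
  have hA0 : (0 : ℝ) < A := by exact_mod_cast hA
  have hinv : 1 / (A : ℝ) ≤ 2 * Real.exp (-y) := by
    calc 1 / (A : ℝ) ≤ 1 / (Real.exp y / 2) := one_div_le_one_div_of_le (by positivity) hA'
      _ = 2 * Real.exp (-y) := by rw [Real.exp_neg]; field_simp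
  -- telescoping sum
  have htel : ∀ N : ℕ, A ≤ N → ∑ m ∈ Finset.Ioc A N, (1 / (m : ℝ) - 1 / ((m : ℝ) + 1)) ≤ 1 / (A : ℝ) := by
    intro N hN
    have : ∑ m ∈ Finset.Ioc A N, (1 / (m : ℝ) - 1 / ((m : ℝ) + 1)) = 1 / ((A : ℝ) + 1) - 1 / ((N : ℝ) + 1) := by
      induction N, hN using Nat.le_induction with
      | base => simp
      | succ N hN ih =>
        rw [← Finset.insert_Ioc_right_eq_Ioc_add_one hN, Finset.sum_insert (by simp), ih]
        push_cast
        ring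
    rw [this]
    have h1 : 1 / ((A : ℝ) + 1) ≤ 1 / (A : ℝ) := one_div_le_one_div_of_le hA0 (by linarith)
    have h2 : 0 ≤ 1 / ((N : ℝ) + 1) := by positivity
    linarith
  rcases Nat.lt_or_ge A B with hlt | hge
  · have hB1 : A ≤ B - 1 := by omega
    have hIoc : Finset.Ioc A B = insert B (Finset.Ioc A (B - 1)) := by
      ext x
      simp only [Finset.mem_insert, Finset.mem_Ioc]
      omega
    have hBnot : B ∉ Finset.Ioc A (B - 1) := by
      simp only [Finset.mem_Ioc]; omega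
    rw [hIoc, Finset.sum_filter, Finset.sum_filter, Finset.sum_insert hBnot]
    have h2 : (if (roughPart p B).Prime then 1 / (B : ℝ) else 0) ≤ 1 / (A : ℝ) := by
      have h3 : 1 / (B : ℝ) ≤ 1 / (A : ℝ) := one_div_le_one_div_of_le hA0 (by exact_mod_cast hAB)
      split_ifs
      · exact h3
      · positivity
    have h4 : ∑ m ∈ Finset.Ioc A (B - 1), (if (roughPart p m).Prime then 1 / (m : ℝ) else 0) -
        ∑ m ∈ Finset.Ioc A (B - 1), (if (roughPart p m).Prime then 1 / ((m : ℝ) + 1) else 0) ≤ 1 / (A : ℝ) := by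
      rw [← Finset.sum_sub_distrib]
      refine le_trans (Finset.sum_le_sum fun m hm => ?_) (htel (B - 1) hB1)
      have hm0 : (0 : ℝ) < m := by
        rw [Finset.mem_Ioc] at hm
        exact_mod_cast (by omega : 0 < m)
      have : 1 / ((m : ℝ) + 1) ≤ 1 / (m : ℝ) := one_div_le_one_div_of_le hm0 (by linarith)
      split_ifs
      · exact le_rfl
      · linarith
    linarith
  · have hBA : B = A := le_antisymm hge hAB
    rw [hBA]
    simp only [Finset.Ioc_self, Finset.filter_empty, Finset.sum_empty]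
    have h5 : Finset.Ioc A (A - 1) = ∅ := by
      ext x; simp only [Finset.mem_Ioc, Finset.notMem_empty, iff_false]; omega
    rw [h5]
    simp
    positivity


/-- upper bound for the reciprocal sum over the window -/
lemma TL_upper {l M : ℝ} (hl1 : l ≤ 1) (hM : 0 ≤ M) {p : ℕ} {y δ X : ℝ} (_hδ : 0 < δ) (hδ1 : δ < 1) (_hX : 1 < X)
    (hRR : ∀ x, X ≤ x → RL l x * Real.log x ≤ M) (hy : X ≤ Real.exp ((1 - δ) * y)) (hy0 : 0 < y) :
    TL l p y ≤ M / ((1 - δ) * y) * VV p + 3 * (Real.exp (-(δ * y / 2)) * ZZ p) := by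
  refine (TL_le l p y).trans ?_
  set z := Real.exp (δ * y) with hz
  have hz0 : 0 < z := Real.exp_pos _
  rw [← Finset.sum_filter_add_sum_filter_not _ (fun s : ℕ => (s : ℝ) ≤ z)]
  refine add_le_add ?_ ?_
  · calc ∑ s ∈ (SMz p (⌊Real.exp (y + l)⌋₊ : ℝ)).filter (fun s : ℕ => (s : ℝ) ≤ z),
          (s : ℝ)⁻¹ * RL l (Real.exp y / s) ≤
        ∑ s ∈ (SMz p (⌊Real.exp (y + l)⌋₊ : ℝ)).filter (fun s : ℕ => (s : ℝ) ≤ z),
          (s : ℝ)⁻¹ * (M / ((1 - δ) * y)) := by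
          refine Finset.sum_le_sum fun s hs => mul_le_mul_of_nonneg_left ?_ (by positivity)
          rw [Finset.mem_filter, mem_SMz (by positivity)] at hs
          have hs0 : (0 : ℝ) < s := by exact_mod_cast SM_pos hs.1.1
          have h1 : Real.exp ((1 - δ) * y) ≤ Real.exp y / s := by
            rw [le_div_iff₀ hs0]
            calc Real.exp ((1 - δ) * y) * s ≤ Real.exp ((1 - δ) * y) * z :=
                  mul_le_mul_of_nonneg_left hs.2 (Real.exp_pos _).le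
              _ = Real.exp y := by rw [hz, ← Real.exp_add]; congr 1; ring
          have h2 := hRR _ (hy.trans h1)
          have h3 : (1 - δ) * y ≤ Real.log (Real.exp y / s) := by
            rw [← Real.log_exp ((1 - δ) * y)]
            exact Real.log_le_log (Real.exp_pos _) h1
          have h4 : 0 < (1 - δ) * y := mul_pos (by linarith) hy0
          rw [le_div_iff₀ h4]
          exact (mul_le_mul_of_nonneg_left h3 (RL_nonneg l _)).trans h2
      _ = M / ((1 - δ) * y) *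
          ∑ s ∈ (SMz p (⌊Real.exp (y + l)⌋₊ : ℝ)).filter (fun s : ℕ => (s : ℝ) ≤ z), (s : ℝ)⁻¹ := by
          rw [Finset.mul_sum]
          exact Finset.sum_congr rfl fun s _ => by ring
      _ ≤ _ := by
          have h4 : 0 < (1 - δ) * y := mul_pos (by linarith) hy0
          refine mul_le_mul_of_nonneg_left (sum_le_VV p _ fun s hs => ?_) (by positivity)
          rw [Finset.mem_filter, mem_SMz (by positivity)] at hs
          exact hs.1.1
  · calc ∑ s ∈ (SMz p (⌊Real.exp (y + l)⌋₊ : ℝ)).filter (fun s : ℕ => ¬ (s : ℝ) ≤ z),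
          (s : ℝ)⁻¹ * RL l (Real.exp y / s) ≤
        ∑ s ∈ (SMz p (⌊Real.exp (y + l)⌋₊ : ℝ)).filter (fun s : ℕ => ¬ (s : ℝ) ≤ z), (s : ℝ)⁻¹ * 3 := by
          refine Finset.sum_le_sum fun s hs => mul_le_mul_of_nonneg_left ?_ (by positivity)
          rw [Finset.mem_filter, mem_SMz (by positivity)] at hs
          have hs0 : (0 : ℝ) < s := by exact_mod_cast SM_pos hs.1.1
          exact RL_le_three hl1 (by positivity)
      _ = 3 * ∑ s ∈ (SMz p (⌊Real.exp (y + l)⌋₊ : ℝ)).filter (fun s : ℕ => ¬ (s : ℝ) ≤ z), (s : ℝ)⁻¹ := by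
          rw [Finset.mul_sum]
          exact Finset.sum_congr rfl fun s _ => by ring
      _ ≤ 3 * (z ^ (-(1 / 2) : ℝ) * ZZ p) := by
          refine mul_le_mul_of_nonneg_left (tail_le p hz0 _ fun s hs => ?_) (by norm_num)
          rw [Finset.mem_filter, mem_SMz (by positivity)] at hs
          exact ⟨hs.1.1, (not_le.1 hs.2).le⟩
      _ = _ := by
          rw [hz, ← Real.exp_mul]
          congr 3
          ring_nf

/-- lower bound for the reciprocal sum over the window -/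
lemma TL_lower {l m : ℝ} (hl : 0 ≤ l) (hm : 0 ≤ m) (hm1 : m ≤ 1) {p : ℕ} {y δ X : ℝ} (_hδ : 0 < δ) (_hδ1 : δ < 1) (_hX : 1 < X)
    (hRR : ∀ x, X ≤ x → m ≤ RL l x * Real.log x) (hy : X ≤ Real.exp ((1 - δ) * y)) (hy0 : 0 < y)
    (hyp : Real.exp (δ * y) * (p + 1) ≤ Real.exp y) :
    m / y * VV p - 1 / y * (Real.exp (-(δ * y / 2)) * ZZ p) ≤ TL l p y := by
  refine le_trans ?_ (le_TL hl (Real.exp_pos _) hyp)
  set z := Real.exp (δ * y) with hz
  have hz0 : 0 < z := Real.exp_pos _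
  have h1 : m / y * ∑ s ∈ SMz p z, (s : ℝ)⁻¹ ≤ ∑ s ∈ SMz p z, (s : ℝ)⁻¹ * RL l (Real.exp y / s) := by
    rw [Finset.mul_sum]
    refine Finset.sum_le_sum fun s hs => ?_
    rw [mem_SMz hz0.le] at hs
    have hs0 : (0 : ℝ) < s := by exact_mod_cast SM_pos hs.1
    have hs1 : (1 : ℝ) ≤ s := by exact_mod_cast SM_pos hs.1
    rw [mul_comm]
    refine mul_le_mul_of_nonneg_left ?_ (by positivity)
    have h1 : Real.exp ((1 - δ) * y) ≤ Real.exp y / s := by
      rw [le_div_iff₀ hs0]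
      calc Real.exp ((1 - δ) * y) * s ≤ Real.exp ((1 - δ) * y) * z :=
            mul_le_mul_of_nonneg_left hs.2 (Real.exp_pos _).le
        _ = Real.exp y := by rw [hz, ← Real.exp_add]; congr 1; ring
    have h2 := hRR _ (hy.trans h1)
    have h3 : Real.log (Real.exp y / s) ≤ y := by
      rw [Real.log_div (Real.exp_pos _).ne' hs0.ne', Real.log_exp]
      have := Real.log_nonneg hs1
      linarith
    rw [div_le_iff₀ hy0]
    exact h2.trans (mul_le_mul_of_nonneg_left h3 (RL_nonneg l _))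
  have h2 := VV_le p hz0
  have h3 : z ^ (-(1 / 2) : ℝ) = Real.exp (-(δ * y / 2)) := by
    rw [hz, ← Real.exp_mul]
    congr 1
    ring
  rw [h3] at h2
  have h4 : m / y * VV p ≤ m / y * (∑ n ∈ SMz p z, (n : ℝ)⁻¹ + Real.exp (-(δ * y / 2)) * ZZ p) :=
    mul_le_mul_of_nonneg_left h2 (by positivity)
  have h5 : m / y * (Real.exp (-(δ * y / 2)) * ZZ p) ≤ 1 / y * (Real.exp (-(δ * y / 2)) * ZZ p) := by
    refine mul_le_mul_of_nonneg_right ?_ (mul_nonneg (Real.exp_pos _).le (ZZ_nonneg p))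
    exact div_le_div_of_nonneg_right (by linarith) hy0.le
  rw [mul_add] at h4
  linarith

end Pool.Agent.H447R2.ML
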