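import Mathlib
import Pool.Agent.H447R2.ML.Q2

set_option autoImplicit false

namespace Pool.Agent.H447R2.ML

open Finset Filter Topology MeasureTheory
open Pool.Agent.H305R2 (pr pr_nonneg SMz mem_SMz SM_pos SM roughPart sum_rough_eq window_upper
  window_lower ff VV ZZ sum_le_VV tail_le VV_le VV_tendsto ZZ_nonneg ZZ_le_exp error_tendsto
  VV_nonneg)

/-- **Window asymptotics.** If `y_p / p → a > 0` then the measure of the set of `t ∈ (y_p, y_p+1]`
for which the largest integer below `exp t` has prime `p`-rough part is `~ e^γ log p / (a p)`. -/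
theorem window_asymp_l {a l : ℝ} (ha : 0 < a) (hl : 0 < l) (hl1 : l ≤ 1) {y : ℕ → ℝ}
    (hy : Tendsto (fun p : ℕ => y p / p) atTop (𝓝 a)) :
    Tendsto (fun p : ℕ => (∫ t in Set.Ioc (y p) (y p + l), ff p t) * (p / Real.log p)) atTop
      (𝓝 (Real.exp Real.eulerMascheroniConstant * l / a)) := by
  set G := Real.exp Real.eulerMascheroniConstant with hG
  have hytop : Tendsto y atTop atTop := by
    have h1 : Tendsto (fun p : ℕ => y p / p * p) atTop atTop :=
      hy.pos_mul_atTop ha (tendsto_natCast_atTop_atTop (R := ℝ))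
    refine h1.congr' ?_
    filter_upwards [eventually_ge_atTop 1] with p hp
    have hp0 : (0 : ℝ) < p := by exact_mod_cast hp
    field_simp
  rw [Metric.tendsto_atTop]
  intro ε hε
  -- choose δ
  have hδ : ∃ δ : ℝ, 0 < δ ∧ δ < l ∧ G * ((l + δ) / (1 - δ)) / a < G * l / a + ε / 2 ∧
      G * l / a - ε / 2 < G * (l - δ) / a := by
    have h1 : Tendsto (fun δ : ℝ => G * ((l + δ) / (1 - δ)) / a) (𝓝[>] 0) (𝓝 (G * l / a)) := by
      have : ContinuousAt (fun δ : ℝ => G * ((l + δ) / (1 - δ)) / a) 0 := by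
        refine ContinuousAt.div_const (ContinuousAt.mul continuousAt_const
          (ContinuousAt.div (by fun_prop) (by fun_prop) (by norm_num))) _
      have h2 := this.tendsto.mono_left (nhdsWithin_le_nhds (s := Set.Ioi 0))
      simpa using h2
    have h2 : Tendsto (fun δ : ℝ => G * (l - δ) / a) (𝓝[>] 0) (𝓝 (G * l / a)) := by
      have : ContinuousAt (fun δ : ℝ => G * (l - δ) / a) 0 := by fun_prop
      have h2 := this.tendsto.mono_left (nhdsWithin_le_nhds (s := Set.Ioi 0))
      simpa using h2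
    have h3 := h1.eventually_lt_const (show G * l / a < G * l / a + ε / 2 by linarith)
    have h4 := h2.eventually_const_lt (show G * l / a - ε / 2 < G * l / a by linarith)
    have h5 : ∀ᶠ δ : ℝ in 𝓝[>] 0, δ < l :=
      (eventually_lt_nhds hl).filter_mono nhdsWithin_le_nhds
    obtain ⟨δ, hδ⟩ := ((self_mem_nhdsWithin (a := (0 : ℝ)) (s := Set.Ioi 0)) |>
      fun h => (h3.and (h4.and (h5.and h))).exists)
    exact ⟨δ, hδ.2.2.2, hδ.2.2.1, hδ.1, hδ.2.1⟩
  obtain ⟨δ, hδ0, hδl, hup, hlow⟩ := hδ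
  have hδ1 : δ < 1 := lt_of_lt_of_le hδl hl1
  -- RR asymptotics
  obtain ⟨X, hX⟩ : ∃ X : ℝ, ∀ x, X ≤ x → |RL l x * Real.log x - l| < δ := by
    have := (Metric.tendsto_nhds.1 (RL_tendsto hl)) δ hδ0
    simp only [Real.dist_eq] at this
    exact this.exists_forall_of_atTop
  set X' := max X 2 with hX'
  have hX1 : 1 < X' := lt_of_lt_of_le (by norm_num) (le_max_right _ _)
  have hRRu : ∀ x, X' ≤ x → RL l x * Real.log x ≤ l + δ := fun x hx => by
    have := abs_lt.1 (hX x ((le_max_left _ _).trans hx)); linarith [this.2]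
  have hRRl : ∀ x, X' ≤ x → l - δ ≤ RL l x * Real.log x := fun x hx => by
    have := abs_lt.1 (hX x ((le_max_left _ _).trans hx)); linarith [this.1]
  -- limits of the bounds
  have hVy : Tendsto (fun p : ℕ => VV p / Real.log p * (p / y p)) atTop (𝓝 (G * a⁻¹)) := by
    refine VV_tendsto.mul ?_
    refine (hy.inv₀ ha.ne').congr fun p => ?_
    rw [inv_div]
  have herr := error_tendsto ha hy hδ0
  have hU : Tendsto (fun p : ℕ => (l + δ) / (1 - δ) * (VV p / Real.log p * (p / y p)) +
      (p : ℝ) * (3 * (Real.exp (-(δ * y p / 2)) * ZZ p) + 4 * Real.exp (-(y p)))) atTop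
      (𝓝 ((l + δ) / (1 - δ) * (G * a⁻¹) + 0)) := (hVy.const_mul _).add herr
  have hL : Tendsto (fun p : ℕ => (l - δ) * (VV p / Real.log p * (p / y p)) -
      (p : ℝ) * (3 * (Real.exp (-(δ * y p / 2)) * ZZ p) + 4 * Real.exp (-(y p)))) atTop
      (𝓝 ((l - δ) * (G * a⁻¹) - 0)) := (hVy.const_mul _).sub herr
  have hU' := hU.eventually_lt_const (show (l + δ) / (1 - δ) * (G * a⁻¹) + 0 < G * l / a + ε / 2 by
    have : (l + δ) / (1 - δ) * (G * a⁻¹) + 0 = G * ((l + δ) / (1 - δ)) / a := by ring
    rw [this]; exact hup)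
  have hL' := hL.eventually_const_lt (show G * l / a - ε / 2 < (l - δ) * (G * a⁻¹) - 0 by
    have : (l - δ) * (G * a⁻¹) - 0 = G * (l - δ) / a := by ring
    rw [this]; exact hlow)
  -- the technical eventual conditions
  have hcond1 : ∀ᶠ p : ℕ in atTop, X' ≤ Real.exp ((1 - δ) * y p) :=
    (Real.tendsto_exp_atTop.comp (hytop.const_mul_atTop (by linarith : 0 < 1 - δ))).eventually_ge_atTop X'
  have hcond2 : ∀ᶠ p : ℕ in atTop, (1 : ℝ) < y p := hytop.eventually_gt_atTop 1
  have hcond3 : ∀ᶠ p : ℕ in atTop, Real.exp (δ * y p) * (p + 1) ≤ Real.exp (y p) := by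
    have h1 : Tendsto (fun p : ℕ => ((p : ℝ) + 1) / Real.exp ((1 - δ) * y p)) atTop (𝓝 0) := by
      have hyge : ∀ᶠ p : ℕ in atTop, a / 2 * p ≤ y p := by
        have h1 := hy.eventually_const_lt (show a / 2 < a by linarith)
        filter_upwards [h1, eventually_ge_atTop 1] with p hp hp1
        have hp0 : (0 : ℝ) < p := by exact_mod_cast hp1
        rw [lt_div_iff₀ hp0] at hp
        exact hp.le
      set c := (1 - δ) * (a / 2) with hc
      have hc0 : 0 < c := mul_pos (by linarith) (by linarith)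
      have h2 : Tendsto (fun x : ℝ => 2 * (x ^ (1 : ℕ) * Real.exp (-(c * x)))) atTop (𝓝 0) := by
        have := Real.tendsto_pow_mul_exp_neg_atTop_nhds_zero 1
        have h2 := (this.comp (tendsto_id.const_mul_atTop hc0)).const_mul (2 * c⁻¹)
        rw [mul_zero] at h2
        refine h2.congr fun x => ?_
        simp only [Function.comp, id]
        field_simp
      have h3 := h2.comp (tendsto_natCast_atTop_atTop (R := ℝ))
      refine squeeze_zero' (Eventually.of_forall fun p => by positivity) ?_ h3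
      filter_upwards [hyge, eventually_ge_atTop 1] with p hp hp1
      have hp1' : (1 : ℝ) ≤ p := by exact_mod_cast hp1
      simp only [Function.comp]
      rw [div_eq_mul_inv, ← Real.exp_neg, pow_one, ← mul_assoc]
      refine mul_le_mul (by linarith) (Real.exp_le_exp.2 ?_) (Real.exp_pos _).le (by positivity)
      rw [hc]
      have := mul_le_mul_of_nonneg_left hp (by linarith : 0 ≤ 1 - δ)
      nlinarith
    have h2 := h1.eventually_lt_const one_pos
    filter_upwards [h2] with p hp
    rw [div_lt_one (Real.exp_pos _)] at hp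
    calc Real.exp (δ * y p) * (p + 1) ≤ Real.exp (δ * y p) * Real.exp ((1 - δ) * y p) :=
          mul_le_mul_of_nonneg_left hp.le (Real.exp_pos _).le
      _ = Real.exp (y p) := by rw [← Real.exp_add]; congr 1; ring
  obtain ⟨P, hP⟩ := (hU'.and (hL'.and (hcond1.and (hcond2.and (hcond3.and
    (eventually_ge_atTop 3)))))).exists_forall_of_atTop
  refine ⟨P, fun p hp => ?_⟩
  obtain ⟨h1, h2, h3, h4, h5, h6⟩ := hP p hp
  have hp3 : (3 : ℝ) ≤ p := by exact_mod_cast h6
  have hp0 : (0 : ℝ) < p := by linarith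
  have hy0 : 0 < y p := by linarith
  have hlog : 1 ≤ Real.log p := by
    rw [Real.le_log_iff_exp_le hp0]
    have := Real.exp_one_lt_d9
    linarith
  have hlog0 : 0 < Real.log p := by linarith
  have hpl : (p : ℝ) / Real.log p ≤ p := div_le_self hp0.le hlog
  have hpl0 : 0 < (p : ℝ) / Real.log p := by positivity
  have hTu := TL_upper (p := p) hl1 (by linarith : 0 ≤ l + δ) hδ0 hδ1 hX1 hRRu h3 hy0
  have hTl := TL_lower (p := p) hl.le (by linarith : 0 ≤ l - δ) (by linarith) hδ0 hδ1 hX1 hRRl h3 hy0 h5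
  have hWu := window_le_TL (p := p) hl.le hy0.le
  have hWl := TL_le_window (p := p) hl.le hy0.le
  have hZ := ZZ_nonneg p
  have hE1 : 0 ≤ Real.exp (-(δ * y p / 2)) * ZZ p := by positivity
  have hE2 : 0 ≤ Real.exp (-(y p)) := (Real.exp_pos _).le
  rw [Real.dist_eq, abs_lt]
  constructor
  · have e : (∫ t in Set.Ioc (y p) (y p + l), ff p t) ≥ (l - δ) / y p * VV p -
      (3 * (Real.exp (-(δ * y p / 2)) * ZZ p) + 4 * Real.exp (-(y p))) := by
      have : 1 / y p * (Real.exp (-(δ * y p / 2)) * ZZ p) ≤ 3 * (Real.exp (-(δ * y p / 2)) * ZZ p) := by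
        refine mul_le_mul_of_nonneg_right ?_ hE1
        rw [div_le_iff₀ hy0]; linarith
      linarith
    have e2 := mul_le_mul_of_nonneg_right e hpl0.le
    have e3 : (3 * (Real.exp (-(δ * y p / 2)) * ZZ p) + 4 * Real.exp (-(y p))) * (p / Real.log p) ≤
        (p : ℝ) * (3 * (Real.exp (-(δ * y p / 2)) * ZZ p) + 4 * Real.exp (-(y p))) := by
      rw [mul_comm]
      exact mul_le_mul_of_nonneg_right hpl (by positivity)
    have e4 : (l - δ) / y p * VV p * (p / Real.log p) = (l - δ) * (VV p / Real.log p * (p / y p)) := by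
      field_simp
    rw [sub_mul, e4] at e2
    linarith
  · have e : (∫ t in Set.Ioc (y p) (y p + l), ff p t) ≤ (l + δ) / ((1 - δ) * y p) * VV p +
      (3 * (Real.exp (-(δ * y p / 2)) * ZZ p) + 4 * Real.exp (-(y p))) := by
      linarith
    have e2 := mul_le_mul_of_nonneg_right e hpl0.le
    have e3 : (3 * (Real.exp (-(δ * y p / 2)) * ZZ p) + 4 * Real.exp (-(y p))) * (p / Real.log p) ≤
        (p : ℝ) * (3 * (Real.exp (-(δ * y p / 2)) * ZZ p) + 4 * Real.exp (-(y p))) := by
      rw [mul_comm]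
      exact mul_le_mul_of_nonneg_right hpl (by positivity)
    have h1δ : (0 : ℝ) < 1 - δ := by linarith
    have e4 : (l + δ) / ((1 - δ) * y p) * VV p * (p / Real.log p) =
        (l + δ) / (1 - δ) * (VV p / Real.log p * (p / y p)) := by
      field_simp
    rw [add_mul, e4] at e2
    linarith

end Pool.Agent.H447R2.ML
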