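import Mathlib
import Pool.Agent.H447R2.ML.P6
import Pool.Agent.H447R2.ML.R1

set_option autoImplicit false

/-!
# The second moment of a shift family
-/

namespace Pool.Agent.H447R2.ML

open Filter Topology MeasureTheory
open Pool.Agent.H305R2 (roughPart ff measurable_ff ff_nonneg ff_le_one integrableOn_ff NN
  mem_Ioc_log bounds mertens_ratio log_nat_tendsto)

theorem second_sh {a a0 a1 b0 b1 : ℝ} (ha : 0 < a) (hb0 : a0 < b0) (hb1 : b1 < a1)
    {y y' : ℕ → ℝ → ℝ} (hL : ∀ᶠ p : ℕ in atTop, Sh a a0 a1 p (y p) (y' p)) :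
    ∃ K : ℝ, 0 < K ∧ ∀ s t : ℝ, b0 ≤ s → s < t → t ≤ b1 → ∃ P : ℕ, ∀ᶠ n : ℕ in atTop,
    ∫ x in Set.Ioc s t, (∑ p ∈ (Finset.Icc P n).filter Nat.Prime, ff p (y p x)) ^ 2 ≤
      K * (t - s) * (Real.log n) ^ 2 := by
  classical
  obtain ⟨K1, hK1, P1, h1⟩ := pair_bound_sh ha hb0 hb1
  obtain ⟨K2, hK2, P2, h2⟩ := single_upper_sh ha a0
  obtain ⟨K3, hK3, P3, h3⟩ := near_sum (B := 64 / a) (by positivity)
  obtain ⟨K4, hK4, h4⟩ := pair_sum
  obtain ⟨P4, hP4⟩ := eventually_atTop.1 hL
  refine ⟨4 * (K2 * K3 + K1 * K4 + K2), by positivity, fun s t hs hst ht => ?_⟩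
  have hts : 0 < t - s := by linarith
  obtain ⟨P5, hP5⟩ := exists_nat_gt (1 / (t - s))
  set P := P1 + P2 + P3 + P4 + P5 + 1 with hP
  refine ⟨P, ?_⟩
  filter_upwards [h3, h4, weight_sum, log_nat_tendsto.eventually_ge_atTop 1] with n h3n h4n hwn hln
  set S := (Finset.Icc P n).filter Nat.Prime with hS
  have hSmem : ∀ p ∈ S, p.Prime ∧ P ≤ p ∧ p ≤ n := by
    intro p hp
    rw [hS, Finset.mem_filter, Finset.mem_Icc] at hp
    exact ⟨hp.2, hp.1.1, hp.1.2⟩
  have hloc : ∀ p ∈ S, Sh a a0 a1 p (y p) (y' p) := fun p hp => hP4 p (by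
    have := (hSmem p hp).2.1; omega)
  have hinv : ∀ p ∈ S, t - s + 1 / (p : ℝ) ≤ 2 * (t - s) := by
    intro p hp
    have h5 : (P5 : ℝ) ≤ p := by
      have : P5 ≤ p := by have := (hSmem p hp).2.1; omega
      exact_mod_cast this
    have h6 : 1 / (t - s) < p := lt_of_lt_of_le hP5 h5
    have hp0 : (0 : ℝ) < p := lt_trans (by positivity) h6
    have h7 : 1 / (p : ℝ) ≤ t - s := by
      rw [div_le_iff₀ hp0]
      rw [div_lt_iff₀ hts] at h6
      linarith
    linarith
  have hsubI : Set.Ioc s t ⊆ Set.Icc a0 a1 := fun x hx => ⟨by linarith [hx.1], by linarith [hx.2]⟩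
  have hIint : ∀ p ∈ S, ∀ q ∈ S, IntegrableOn (fun x => ff p (y p x) * ff q (y q x)) (Set.Ioc s t) :=
    fun p hp q hq => (prod_integrable_sh (hloc p hp) (hloc q hq)).mono_set hsubI
  have hFint : ∀ p ∈ S, IntegrableOn (fun x => ff p (y p x)) (Set.Ioc s t) :=
    fun p hp => (one_integrable_sh (hloc p hp)).mono_set hsubI
  -- expand the square
  have hexp : ∫ x in Set.Ioc s t, (∑ p ∈ S, ff p (y p x)) ^ 2 =
      ∑ p ∈ S, ∑ q ∈ S, ∫ x in Set.Ioc s t, ff p (y p x) * ff q (y q x) := by
    have e : ∀ x, (∑ p ∈ S, ff p (y p x)) ^ 2 = ∑ p ∈ S, ∑ q ∈ S, ff p (y p x) * ff q (y q x) := by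
      intro x
      rw [sq, Finset.sum_mul_sum]
    simp only [e]
    rw [integral_finset_sum _ (fun p hp => integrable_finset_sum _ (fun q hq => hIint p hp q hq))]
    refine Finset.sum_congr rfl fun p hp => ?_
    rw [integral_finset_sum _ (fun q hq => hIint p hp q hq)]
  rw [hexp]
  -- bounds
  have hsing : ∀ p ∈ S, ∫ x in Set.Ioc s t, ff p (y p x) ≤ 2 * (t - s) * K2 * (Real.log p / p) := by
    intro p hp
    have h5 := h2 p (by have := (hSmem p hp).2.1; omega) a1 (y p) (y' p) (hloc p hp) s t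
      (by linarith) hst.le (by linarith)
    have hlp := Real.log_natCast_nonneg p
    calc _ ≤ K2 * (t - s + 1 / p) * (Real.log p / p) := h5
      _ ≤ K2 * (2 * (t - s)) * (Real.log p / p) := by
          have := hinv p hp
          gcongr
      _ = _ := by ring
  have hprod : ∀ p ∈ S, ∀ q ∈ S, ∫ x in Set.Ioc s t, ff p (y p x) * ff q (y q x) ≤
      2 * (t - s) * K2 * (Real.log p / p) := by
    intro p hp q hq
    refine le_trans (setIntegral_mono_on (hIint p hp q hq) (hFint p hp) measurableSet_Ioc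
      fun x _ => ?_) (hsing p hp)
    have := ff_nonneg p (y p x)
    have := ff_le_one q (y q x)
    nlinarith
  set near : ℕ → ℕ → Prop := fun p q =>
    p < q ∧ (q : ℝ) - p < 64 / a * (Real.log q * Real.log (Real.log q)) with hnear
  set A : ℕ → ℕ → ℝ := fun p q => (if near p q then 2 * (t - s) * K2 * (Real.log p / p) else 0) +
    (if p < q then 2 * (t - s) * K1 * ((Real.log p / p) * (Real.log q / (q - p))) else 0) with hA
  have hA0 : ∀ p q : ℕ, 0 ≤ A p q := by
    intro p q
    have hlp := Real.log_natCast_nonneg p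
    have hlq := Real.log_natCast_nonneg q
    rw [hA]
    refine add_nonneg ?_ ?_
    · split_ifs
      · positivity
      · exact le_rfl
    · split_ifs with h
      · have : (0 : ℝ) < q - p := by
          have : (p : ℝ) < q := by exact_mod_cast h
          linarith
        positivity
      · exact le_rfl
  have hlt : ∀ p ∈ S, ∀ q ∈ S, p < q →
      ∫ x in Set.Ioc s t, ff p (y p x) * ff q (y q x) ≤ A p q := by
    intro p hp q hq hpq
    have hlp := Real.log_natCast_nonneg p
    have hlq := Real.log_natCast_nonneg q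
    have hpq' : (0 : ℝ) < q - p := by
      have : (p : ℝ) < q := by exact_mod_cast hpq
      linarith
    rw [hA]
    simp only [if_pos hpq]
    by_cases hn : near p q
    · rw [if_pos hn]
      have := hprod p hp q hq
      have h5 : 0 ≤ 2 * (t - s) * K1 * ((Real.log p / p) * (Real.log q / (q - p))) := by positivity
      linarith
    · rw [if_neg hn, zero_add]
      have hgap : 64 / a * (Real.log q * Real.log (Real.log q)) ≤ q - p := by
        by_contra hc
        push Not at hc
        exact hn ⟨hpq, hc⟩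
      have h5 := h1 p q (by have := (hSmem p hp).2.1; omega) hpq (y p) (y' p) (y q) (y' q)
        (hloc p hp) (hloc q hq) hgap s t hs hst.le ht
      calc _ ≤ K1 * (t - s + 1 / p) * (Real.log p / p) * (Real.log q / (q - p)) := h5
        _ ≤ K1 * (2 * (t - s)) * (Real.log p / p) * (Real.log q / (q - p)) := by
            have := hinv p hp
            gcongr
        _ = _ := by ring
  have hall : ∀ p ∈ S, ∀ q ∈ S, ∫ x in Set.Ioc s t, ff p (y p x) * ff q (y q x) ≤
      A p q + A q p + (if p = q then 2 * (t - s) * K2 * (Real.log p / p) else 0) := by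
    intro p hp q hq
    rcases lt_trichotomy p q with h | h | h
    · rw [if_neg h.ne, add_zero]
      have := hlt p hp q hq h
      have := hA0 q p
      linarith
    · rw [if_pos h]
      have := hprod p hp q hq
      have := hA0 q p
      have := hA0 p q
      linarith
    · rw [if_neg h.ne', add_zero]
      have h5 := hlt q hq p hp h
      have h6 : ∫ x in Set.Ioc s t, ff p (y p x) * ff q (y q x) =
          ∫ x in Set.Ioc s t, ff q (y q x) * ff p (y p x) := by
        congr 1
        ext x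
        ring
      rw [h6]
      have := hA0 p q
      linarith
  have hAsum : ∑ p ∈ S, ∑ q ∈ S, A p q ≤ 2 * (t - s) * (K2 * K3 + K1 * K4) * (Real.log n) ^ 2 := by
    have e1 : ∑ p ∈ S, ∑ q ∈ S, A p q =
        2 * (t - s) * K2 * (∑ p ∈ S, (Real.log p / p) * ((S.filter (near p)).card : ℝ)) +
        2 * (t - s) * K1 * (∑ p ∈ S, ∑ q ∈ S.filter (fun q => p < q),
          (Real.log p / p) * (Real.log q / (q - p))) := by
      rw [Finset.mul_sum, Finset.mul_sum, ← Finset.sum_add_distrib]
      refine Finset.sum_congr rfl fun p _ => ?_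
      rw [hA]
      simp only
      rw [Finset.sum_add_distrib, ← Finset.sum_filter, ← Finset.sum_filter, Finset.sum_const,
        nsmul_eq_mul, Finset.mul_sum]
      ring
    rw [e1]
    have h5 := h3n S fun p hp => ⟨(hSmem p hp).1, by have := (hSmem p hp).2.1; omega, (hSmem p hp).2.2⟩
    have h6 := h4n S fun p hp => ⟨(hSmem p hp).1, (hSmem p hp).2.2⟩
    calc _ ≤ 2 * (t - s) * K2 * (K3 * (Real.log n) ^ 2) + 2 * (t - s) * K1 * (K4 * (Real.log n) ^ 2) :=
          add_le_add (mul_le_mul_of_nonneg_left h5 (by positivity))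
            (mul_le_mul_of_nonneg_left h6 (by positivity))
      _ = _ := by ring
  have hdiag : ∑ p ∈ S, 2 * (t - s) * K2 * (Real.log p / p) ≤
      2 * (t - s) * K2 * (2 * (Real.log n) ^ 2) := by
    rw [← Finset.mul_sum]
    refine mul_le_mul_of_nonneg_left ?_ (by positivity)
    have := hwn S fun p hp => ⟨(hSmem p hp).1, (hSmem p hp).2.2⟩
    nlinarith
  calc ∑ p ∈ S, ∑ q ∈ S, ∫ x in Set.Ioc s t, ff p (y p x) * ff q (y q x) ≤
      ∑ p ∈ S, ∑ q ∈ S, (A p q + A q p +
        (if p = q then 2 * (t - s) * K2 * (Real.log p / p) else 0)) :=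
        Finset.sum_le_sum fun p hp => Finset.sum_le_sum fun q hq => hall p hp q hq
    _ = ∑ p ∈ S, ∑ q ∈ S, A p q + ∑ p ∈ S, ∑ q ∈ S, A q p +
        ∑ p ∈ S, 2 * (t - s) * K2 * (Real.log p / p) := by
        rw [← Finset.sum_add_distrib, ← Finset.sum_add_distrib]
        refine Finset.sum_congr rfl fun p hp => ?_
        rw [Finset.sum_add_distrib, Finset.sum_add_distrib, Finset.sum_ite_eq, if_pos hp]
    _ = 2 * ∑ p ∈ S, ∑ q ∈ S, A p q + ∑ p ∈ S, 2 * (t - s) * K2 * (Real.log p / p) := by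
        rw [Finset.sum_comm (s := S) (t := S) (f := fun p q => A q p)]
        ring
    _ ≤ 2 * (2 * (t - s) * (K2 * K3 + K1 * K4) * (Real.log n) ^ 2) +
        2 * (t - s) * K2 * (2 * (Real.log n) ^ 2) := by
        linarith
    _ = _ := by ring

end Pool.Agent.H447R2.ML
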