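import Mathlib
import Pool.Agent.H447R2.ML.P8
import Pool.Agent.H447R2.ML.Q3
import Pool.Agent.H447R2.ML.R2

set_option autoImplicit false

/-!
# The almost everywhere theorem for shift families
-/

namespace Pool.Agent.H447R2.ML

open Filter Topology MeasureTheory
open Pool.Agent.H305R2 (roughPart ff measurable_ff ff_nonneg ff_le_one integrableOn_ff NN
  mem_Ioc_log bounds mertens_ratio log_nat_tendsto cesaro FF_sub FF_mono)

lemma mean_shift {a a0 a1 : ℝ} (ha : 0 < a) {y y' : ℕ → ℝ → ℝ}
    (hL : ∀ᶠ p : ℕ in atTop, Sh a a0 a1 p (y p) (y' p)) {s t : ℝ} (hs : a0 ≤ s) (hst : s < t)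
    (ht : t ≤ a1) (hle : t - s ≤ 1) :
    Tendsto (fun p : ℕ => (∫ x in Set.Ioc s t, ff p (y p x)) * (p / Real.log p)) atTop
      (𝓝 (Real.exp Real.eulerMascheroniConstant * (t - s) / a)) := by
  set G := Real.exp Real.eulerMascheroniConstant with hG
  obtain ⟨K, hK, hev⟩ := bounds (c := a / 2) (by positivity)
  have hlog1 : ∀ᶠ p : ℕ in atTop, 1 ≤ Real.log p := log_nat_tendsto.eventually_ge_atTop 1
  have hlarge : ∀ᶠ p : ℕ in atTop, (|s| + |t| + 3) * 2 / a < p :=
    tendsto_natCast_atTop_atTop.eventually_gt_atTop _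
  -- the window
  have hw0 : Tendsto (fun p : ℕ => (a * p + s) / (p : ℝ)) atTop (𝓝 a) := by
    have h1 : Tendsto (fun p : ℕ => a + s / (p : ℝ)) atTop (𝓝 (a + 0)) :=
      tendsto_const_nhds.add (tendsto_const_div_atTop_nhds_zero_nat s)
    rw [add_zero] at h1
    refine h1.congr' ?_
    filter_upwards [eventually_gt_atTop 0] with p hp
    have hp0 : (0 : ℝ) < p := by exact_mod_cast hp
    field_simp
  have hwin := window_asymp_l ha (sub_pos.2 hst) hle (y := fun p : ℕ => a * p + s) hw0
  -- comparison of primitives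
  have hcmp : ∀ᶠ p : ℕ in atTop, ∀ u v : ℝ, a / 2 * p + 1 ≤ u → a / 2 * p + 1 ≤ v →
      |u - v| ≤ 1 / p →
      |Pool.Agent.H305R2.FF p u - Pool.Agent.H305R2.FF p v| ≤ K * (2 * (1 / p)) * (Real.log p / p) := by
    filter_upwards [hev, hlog1, eventually_gt_atTop 0] with p hp hl hp0 u v hu hv huv
    have hp0' : (1 : ℝ) ≤ p := by exact_mod_cast hp0
    have hlp : 0 ≤ Real.log p / p := by positivity
    have key : ∀ u v : ℝ, a / 2 * p + 1 ≤ u → u ≤ v → v - u ≤ 1 / p →
        |Pool.Agent.H305R2.FF p v - Pool.Agent.H305R2.FF p u| ≤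
          K * (2 * (1 / p)) * (Real.log p / p) := by
      intro u v hu huv hD'
      have h1 := FF_mono p huv
      rw [abs_of_nonneg (by linarith), FF_sub p huv]
      refine (hp.2.1 u v hu huv).trans ?_
      gcongr
      linarith
    rcases le_total u v with h | h
    · rw [abs_sub_comm]
      exact key u v hu h (by rw [abs_sub_comm, abs_of_nonneg (by linarith)] at huv; exact huv)
    · exact key v u hv h (by rw [abs_of_nonneg (by linarith)] at huv; exact huv)
  set Y : ℕ → ℝ := fun p => ∫ u in Set.Ioc (y p s) (y p t), ff p u with hY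
  have hYlim : Tendsto (fun p : ℕ => Y p * (p / Real.log p)) atTop (𝓝 (G * (t - s) / a)) := by
    have h0 : Tendsto (fun p : ℕ => 4 * K / (p : ℝ)) atTop (𝓝 0) :=
      tendsto_const_div_atTop_nhds_zero_nat _
    have hdiff : Tendsto (fun p : ℕ => (Y p - ∫ v in Set.Ioc (a * p + s) (a * p + s + (t - s)), ff p v)
        * (p / Real.log p)) atTop (𝓝 0) := by
      refine squeeze_zero_norm' ?_ h0
      filter_upwards [hcmp, hlog1, hlarge, hL, eventually_ge_atTop 3] with p hc hl hpl hLp hp3
      have hp3' : (3 : ℝ) ≤ p := by exact_mod_cast hp3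
      have hp0 : (0 : ℝ) < p := by linarith
      rw [div_lt_iff₀ ha] at hpl
      have hsI : s ∈ Set.Icc a0 a1 := ⟨hs, by linarith⟩
      have htI : t ∈ Set.Icc a0 a1 := ⟨by linarith, ht⟩
      have hns := hLp.near s hsI
      have hnt := hLp.near t htI
      have h13 := inv_le_third hp3
      have hst' : y p s ≤ y p t := (hLp.strict hp3 hsI htI hst).le
      have hs1 := neg_abs_le s
      have ht1 := neg_abs_le t
      have hs2 := abs_nonneg s
      have ht2 := abs_nonneg t
      have hlow1 : a / 2 * p + 1 ≤ y p s := by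
        have := (abs_le.1 hns).1
        linarith
      have hlow2 : a / 2 * p + 1 ≤ a * p + s := by linarith
      have hlow3 : a / 2 * p + 1 ≤ a * p + s + (t - s) := by linarith
      have c1 := hc (y p t) (a * p + s + (t - s)) (by linarith) hlow3 (by
        have e : a * p + s + (t - s) = a * p + t := by ring
        rw [e]; exact hnt)
      have c2 := hc (y p s) (a * p + s) hlow1 hlow2 hns
      have e : Y p - ∫ v in Set.Ioc (a * p + s) (a * p + s + (t - s)), ff p v =
          (Pool.Agent.H305R2.FF p (y p t) - Pool.Agent.H305R2.FF p (a * p + s + (t - s))) -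
          (Pool.Agent.H305R2.FF p (y p s) - Pool.Agent.H305R2.FF p (a * p + s)) := by
        simp only [hY]
        rw [← FF_sub p hst', ← FF_sub p (by linarith : a * p + s ≤ a * p + s + (t - s))]
        ring
      have h3 : 0 ≤ (p : ℝ) / Real.log p := by positivity
      rw [Real.norm_eq_abs, abs_mul, abs_of_nonneg h3, e]
      have h2 := abs_sub (Pool.Agent.H305R2.FF p (y p t) - Pool.Agent.H305R2.FF p (a * p + s + (t - s)))
        (Pool.Agent.H305R2.FF p (y p s) - Pool.Agent.H305R2.FF p (a * p + s))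
      calc _ ≤ (2 * (K * (2 * (1 / p)) * (Real.log p / p))) * (p / Real.log p) := by
            refine mul_le_mul_of_nonneg_right ?_ h3
            linarith
        _ = 4 * K / p := by field_simp; ring
    have := hdiff.add hwin
    rw [zero_add] at this
    refine this.congr fun p => ?_
    ring
  -- sandwich
  have hr1 : Tendsto (fun p : ℕ => (1 + 1 / (p : ℝ))⁻¹) atTop (𝓝 1) := by
    have h1 : Tendsto (fun p : ℕ => 1 + 1 / (p : ℝ)) atTop (𝓝 (1 + 0)) :=
      tendsto_const_nhds.add (tendsto_const_div_atTop_nhds_zero_nat 1)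
    rw [add_zero] at h1
    have := h1.inv₀ one_ne_zero
    rwa [inv_one] at this
  have hr2 : Tendsto (fun p : ℕ => (1 - 1 / (p : ℝ))⁻¹) atTop (𝓝 1) := by
    have h1 : Tendsto (fun p : ℕ => 1 - 1 / (p : ℝ)) atTop (𝓝 (1 - 0)) :=
      tendsto_const_nhds.sub (tendsto_const_div_atTop_nhds_zero_nat 1)
    rw [sub_zero] at h1
    have := h1.inv₀ one_ne_zero
    rwa [inv_one] at this
  have hlo := hYlim.mul hr1
  have hhi := hYlim.mul hr2
  rw [mul_one] at hlo hhi
  refine tendsto_of_tendsto_of_tendsto_of_le_of_le' hlo hhi ?_ ?_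
  · filter_upwards [hlog1, hL, eventually_ge_atTop 3] with p hl hLp hp3
    have hp3' : (3 : ℝ) ≤ p := by exact_mod_cast hp3
    have hp0 : (0 : ℝ) < p := by linarith
    have hc := (hLp.cov hp3 hs hst.le ht (measurable_ff p) (ff_nonneg p) (ff_le_one p)).2
    have hpD : 0 < 1 + 1 / (p : ℝ) := by positivity
    have h3 : 0 ≤ (p : ℝ) / Real.log p := by positivity
    rw [mul_inv_le_iff₀ hpD]
    calc Y p * (p / Real.log p) ≤ ((1 + 1 / p) * ∫ x in Set.Ioc s t, ff p (y p x)) * (p / Real.log p) :=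
          mul_le_mul_of_nonneg_right hc h3
      _ = _ := by ring
  · filter_upwards [hlog1, hL, eventually_ge_atTop 3] with p hl hLp hp3
    have hp3' : (3 : ℝ) ≤ p := by exact_mod_cast hp3
    have hp0 : (0 : ℝ) < p := by linarith
    have h13 := inv_le_third hp3
    have hc := (hLp.cov hp3 hs hst.le ht (measurable_ff p) (ff_nonneg p) (ff_le_one p)).1
    have hpD : 0 < 1 - 1 / (p : ℝ) := by linarith
    have h3 : 0 ≤ (p : ℝ) / Real.log p := by positivity
    rw [le_mul_inv_iff₀ hpD]
    calc _ = ((1 - 1 / p) * ∫ x in Set.Ioc s t, ff p (y p x)) * (p / Real.log p) := by ring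
      _ ≤ Y p * (p / Real.log p) := mul_le_mul_of_nonneg_right hc h3

/-- the mean of the counting function over an interval -/
lemma mean_C1_sh {a a0 a1 : ℝ} (ha : 0 < a) {y y' : ℕ → ℝ → ℝ}
    (hy : ∀ p, Measurable (y p))
    (hL : ∀ᶠ p : ℕ in atTop, Sh a a0 a1 p (y p) (y' p)) {s t : ℝ} (hs : a0 ≤ s) (hst : s < t)
    (ht : t ≤ a1) (hle : t - s ≤ 1) :
    Tendsto (fun n : ℕ => (∫ x in Set.Ioc s t, C1 y x n) / Real.log n) atTop
      (𝓝 (Real.exp Real.eulerMascheroniConstant * (t - s) / a)) := by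
  have h := cesaro _ _ (mean_shift ha hL hs hst ht hle)
  refine h.congr fun n => ?_
  congr 1
  unfold C1
  rw [integral_finsetSum _ fun p _ => int_ff hy p s t]

/-- the upper half: the counting function is frequently not too large -/
lemma upper_null_sh {a a0 a1 : ℝ} (ha : 0 < a) (h01 : a1 - a0 ≤ 1) {y y' : ℕ → ℝ → ℝ}
    (hy : ∀ p, Measurable (y p)) (hL : ∀ᶠ p : ℕ in atTop, Sh a a0 a1 p (y p) (y' p))
    {c : ℝ} (hc : Real.exp Real.eulerMascheroniConstant / a < c) (n0 : ℕ) :
    volume (Set.Ioo a0 a1 ∩ ⋂ n ∈ Set.Ici n0, {t | c * Real.log n ≤ C1 y t n}) = 0 := by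
  set G := Real.exp Real.eulerMascheroniConstant with hG
  have hG0 : 0 < G := Real.exp_pos _
  have hc0 : 0 < c := lt_trans (by positivity) hc
  set B := Set.Ioo a0 a1 ∩ ⋂ n ∈ Set.Ici n0, {t | c * Real.log n ≤ C1 y t n} with hB
  have hBm : MeasurableSet B := by
    refine measurableSet_Ioo.inter (MeasurableSet.biInter (Set.to_countable _) fun n _ => ?_)
    exact measurableSet_le measurable_const (measurable_C1 hy n)
  set κ := (1 - G / a / c) / 2 with hκ
  have hκ0 : 0 < κ := by
    rw [hκ]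
    have : G / a / c < 1 := by rw [div_lt_one hc0]; exact hc
    linarith
  refine null_of_density hBm hκ0 Set.inter_subset_left fun s t hs hst ht => ?_
  have hmean := mean_C1_sh ha hy hL hs.le hst ht.le (by linarith)
  have hlt : G * (t - s) / a < (1 - κ) * (t - s) * c := by
    have h1 : G / a < (1 - κ) * c := by
      have h2 : (1 - κ) * c = (c + G / a) / 2 := by rw [hκ]; field_simp; ring
      rw [h2]; linarith
    have h3 : 0 < t - s := by linarith
    calc G * (t - s) / a = G / a * (t - s) := by ring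
      _ < ((1 - κ) * c) * (t - s) := mul_lt_mul_of_pos_right h1 h3
      _ = _ := by ring
  obtain ⟨n, hn1, hn2, hn3⟩ := ((hmean.eventually_lt_const hlt).and
    ((eventually_ge_atTop n0).and (log_nat_tendsto.eventually_ge_atTop 1))).exists
  have hln : 0 < Real.log n := by linarith
  rw [div_lt_iff₀ hln] at hn1
  have hBI : MeasurableSet (B ∩ Set.Ioc s t) := hBm.inter measurableSet_Ioc
  have hint : IntegrableOn (fun x => C1 y x n) (Set.Ioc s t) := int_sum hy _ s t
  have h1 : volume.real (B ∩ Set.Ioc s t) * (c * Real.log n) ≤ ∫ x in B ∩ Set.Ioc s t, C1 y x n := by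
    rw [← smul_eq_mul, ← setIntegral_const]
    refine setIntegral_mono_on (integrableOn_const
      (ne_top_of_le_ne_top (by simp : volume (Set.Ioc s t) ≠ ⊤) (measure_mono Set.inter_subset_right)))
      (hint.mono_set Set.inter_subset_right) hBI fun x hx => ?_
    have := hx.1.2
    simp only [Set.mem_iInter, Set.mem_ofPred_eq] at this
    exact this n hn2
  have h2 : ∫ x in B ∩ Set.Ioc s t, C1 y x n ≤ ∫ x in Set.Ioc s t, C1 y x n :=
    setIntegral_mono_set hint (Eventually.of_forall fun x => C1_nonneg y x n)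
      Set.inter_subset_right.eventuallyLE
  have h3 : volume.real (B ∩ Set.Ioc s t) * (c * Real.log n) ≤
      ((1 - κ) * (t - s)) * (c * Real.log n) := by
    calc _ ≤ _ := h1.trans (h2.trans hn1.le)
      _ = _ := by ring
  exact le_of_mul_le_mul_right h3 (by positivity)

/-- the lower half: the counting function is frequently large -/
lemma lower_null_sh {a a0 a1 b0 b1 : ℝ} (ha : 0 < a) (hb0 : a0 < b0) (hb1 : b1 < a1)
    (h01 : b1 - b0 ≤ 1)
    {y y' : ℕ → ℝ → ℝ} (hy : ∀ p, Measurable (y p))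
    (hL : ∀ᶠ p : ℕ in atTop, Sh a a0 a1 p (y p) (y' p))
    {c : ℝ} (hc0 : 0 ≤ c) (hc : c < Real.exp Real.eulerMascheroniConstant / a) (n0 : ℕ) :
    volume (Set.Ioo b0 b1 ∩ ⋂ n ∈ Set.Ici n0, {t | C1 y t n ≤ c * Real.log n}) = 0 := by
  set G := Real.exp Real.eulerMascheroniConstant with hG
  have hG0 : 0 < G := Real.exp_pos _
  set B := Set.Ioo b0 b1 ∩ ⋂ n ∈ Set.Ici n0, {t | C1 y t n ≤ c * Real.log n} with hB
  have hBm : MeasurableSet B := by
    refine measurableSet_Ioo.inter (MeasurableSet.biInter (Set.to_countable _) fun n _ => ?_)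
    exact measurableSet_le (measurable_C1 hy n) measurable_const
  obtain ⟨K, hK, hsec⟩ := second_sh ha hb0 hb1 hL
  set Δ := G / a - c with hΔ
  have hΔ0 : 0 < Δ := by rw [hΔ]; linarith
  set κ := (Δ / 2) ^ 2 / K with hκ
  have hκ0 : 0 < κ := by positivity
  refine null_of_density hBm hκ0 Set.inter_subset_left fun s t hs hst ht => ?_
  have hts : 0 < t - s := by linarith
  obtain ⟨P, hP⟩ := hsec s t hs.le hst ht.le
  have hmean := mean_C1_sh ha hy hL (by linarith : a0 ≤ s) hst (by linarith : t ≤ a1) (by linarith)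
  have hlt : (c + 3 / 4 * Δ) * (t - s) < G * (t - s) / a := by
    have h1 : c + 3 / 4 * Δ < G / a := by rw [hΔ]; linarith
    calc (c + 3 / 4 * Δ) * (t - s) < G / a * (t - s) := mul_lt_mul_of_pos_right h1 hts
      _ = _ := by ring
  have hlarge : ∀ᶠ n : ℕ in atTop, 1 + P / (1 / 4 * Δ) ≤ Real.log n :=
    log_nat_tendsto.eventually_ge_atTop _
  obtain ⟨n, hn1, hn2, hn3, hn4, hn5⟩ := ((hmean.eventually_const_lt hlt).and
    ((eventually_ge_atTop n0).and (hlarge.and (hP.and (eventually_ge_atTop (P + 1)))))).exists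
  have hPd : 0 ≤ (P : ℝ) / (1 / 4 * Δ) := by positivity
  have hln : 0 < Real.log n := by linarith
  rw [lt_div_iff₀ hln] at hn1
  set S : ℝ → ℝ := fun x => ∑ p ∈ (Finset.Icc P n).filter Nat.Prime, ff p (y p x) with hS
  have hS0 : ∀ x, 0 ≤ S x := fun x => Finset.sum_nonneg fun p _ => ff_nonneg p _
  have hSC : ∀ x, S x ≤ C1 y x n := by
    intro x
    refine Finset.sum_le_sum_of_subset_of_nonneg ?_ fun p _ _ => ff_nonneg p _
    intro p hp
    rw [Finset.mem_filter, Finset.mem_Icc] at hp ⊢
    exact ⟨⟨hp.2.one_lt.le, hp.1.2⟩, hp.2⟩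
  have hCS : ∀ x, C1 y x n ≤ S x + P := by
    intro x
    unfold C1
    have h1 : ∑ p ∈ (Finset.Icc 1 n).filter Nat.Prime, ff p (y p x) ≤
        S x + ∑ p ∈ Finset.range P, (1 : ℝ) := by
      rw [← Finset.sum_filter_add_sum_filter_not ((Finset.Icc 1 n).filter Nat.Prime) (fun p => P ≤ p)]
      refine add_le_add ?_ ?_
      · refine Finset.sum_le_sum_of_subset_of_nonneg ?_ fun p _ _ => ff_nonneg p _
        intro p hp
        rw [Finset.mem_filter, Finset.mem_filter, Finset.mem_Icc] at hp
        rw [Finset.mem_filter, Finset.mem_Icc]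
        exact ⟨⟨hp.2, hp.1.1.2⟩, hp.1.2⟩
      · refine (Finset.sum_le_sum (g := fun _ => (1 : ℝ)) fun p _ => ff_le_one p _).trans ?_
        refine Finset.sum_le_sum_of_subset_of_nonneg ?_ fun p _ _ => zero_le_one
        intro p hp
        rw [Finset.mem_filter] at hp
        rw [Finset.mem_range]
        omega
    simpa using h1
  have hSint : IntegrableOn S (Set.Ioc s t) := int_sum hy _ s t
  have hCint : IntegrableOn (fun x => C1 y x n) (Set.Ioc s t) := int_sum hy _ s t
  -- lower bound for the integral of S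
  have hSlow : (c + Δ / 2) * (t - s) * Real.log n ≤ ∫ x in Set.Ioc s t, S x := by
    have h1 : ∫ x in Set.Ioc s t, C1 y x n ≤ ∫ x in Set.Ioc s t, (S x + P) := by
      refine setIntegral_mono_on hCint (hSint.add (integrableOn_const (by simp))) measurableSet_Ioc
        fun x _ => hCS x
    rw [integral_add hSint (integrableOn_const (by simp)), setIntegral_const,
      Real.volume_real_Ioc_of_le hst.le, smul_eq_mul] at h1
    have h2 : (P : ℝ) ≤ 1 / 4 * Δ * Real.log n := by
      have h3 : (P : ℝ) / (1 / 4 * Δ) ≤ Real.log n := by linarith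
      rw [div_le_iff₀ (by positivity)] at h3
      linarith
    nlinarith
  -- split
  have hBI : MeasurableSet (B ∩ Set.Ioc s t) := hBm.inter measurableSet_Ioc
  have hsplit : ∫ x in Set.Ioc s t, S x =
      (∫ x in B ∩ Set.Ioc s t, S x) + ∫ x in Set.Ioc s t \ B, S x := by
    have := integral_inter_add_sdiff (μ := volume) (f := S) (s := Set.Ioc s t) hBm hSint
    rw [Set.inter_comm] at this
    exact this.symm
  set m := volume.real (B ∩ Set.Ioc s t) with hm
  have hmle : m ≤ t - s := by
    rw [hm, ← Real.volume_real_Ioc_of_le hst.le]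
    exact measureReal_mono Set.inter_subset_right (by simp)
  have hm0 : 0 ≤ m := measureReal_nonneg
  have hB1 : ∫ x in B ∩ Set.Ioc s t, S x ≤ m * (c * Real.log n) := by
    rw [hm, ← smul_eq_mul, ← setIntegral_const]
    refine setIntegral_mono_on (hSint.mono_set Set.inter_subset_right) (integrableOn_const
      (ne_top_of_le_ne_top (by simp : volume (Set.Ioc s t) ≠ ⊤) (measure_mono Set.inter_subset_right)))
      hBI fun x hx => ?_
    have := hx.1.2
    simp only [Set.mem_iInter, Set.mem_ofPred_eq] at this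
    exact (hSC x).trans (this n hn2)
  have hB2 : Δ / 2 * (t - s) * Real.log n ≤ ∫ x in Set.Ioc s t \ B, S x := by
    have h1 : m * (c * Real.log n) ≤ (t - s) * (c * Real.log n) :=
      mul_le_mul_of_nonneg_right hmle (by positivity)
    nlinarith
  -- Cauchy-Schwarz
  have hm' : volume.real (Set.Ioc s t \ B) = (t - s) - m := by
    have h1 := measureReal_inter_add_sdiff (μ := volume) (s := Set.Ioc s t) hBm (by simp)
    rw [Real.volume_real_Ioc_of_le hst.le, Set.inter_comm] at h1
    linarith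
  have hSm : Measurable S := Finset.measurable_sum _ fun p _ => (measurable_ff p).comp (hy p)
  have hSbd : ∀ x, S x ≤ n + 1 := by
    intro x
    calc S x ≤ ∑ p ∈ (Finset.Icc P n).filter Nat.Prime, (1 : ℝ) :=
          Finset.sum_le_sum fun p _ => ff_le_one p _
      _ = (((Finset.Icc P n).filter Nat.Prime).card : ℝ) := by simp
      _ ≤ n + 1 := by
          have h1 := (Finset.card_filter_le (Finset.Icc P n) Nat.Prime)
          rw [Nat.card_Icc] at h1
          have h2 : ((Finset.Icc P n).filter Nat.Prime).card ≤ n + 1 := by omega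
          exact_mod_cast h2
  have hS2int : IntegrableOn (fun x => S x ^ 2) (Set.Ioc s t) := by
    refine Measure.integrableOn_of_bounded (M := ((n : ℝ) + 1) ^ 2) (by simp)
      (hSm.pow_const 2).aestronglyMeasurable ?_
    exact Eventually.of_forall fun x => by
      rw [Real.norm_eq_abs, abs_of_nonneg (by positivity)]
      exact pow_le_pow_left₀ (hS0 x) (hSbd x) 2
  set E := Set.Ioc s t \ B with hE
  have hEm : MeasurableSet E := measurableSet_Ioc.diff hBm
  have hEfin : volume E ≠ ⊤ :=
    ne_top_of_le_ne_top (by simp : volume (Set.Ioc s t) ≠ ⊤) (measure_mono Set.sdiff_subset)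
  have hEs : ∫ x in E, S x ^ 2 ≤ K * (t - s) * (Real.log n) ^ 2 := by
    refine le_trans ?_ hn4
    exact setIntegral_mono_set hS2int (Eventually.of_forall fun x => sq_nonneg _)
      Set.sdiff_subset.eventuallyLE
  -- quadratic inequality instead of Cauchy-Schwarz
  have hquad : ∀ lam : ℝ, 0 < lam → ∫ x in E, S x ≤
      (lam * (∫ x in E, S x ^ 2) + (1 / lam) * volume.real E) / 2 := by
    intro lam hlam
    have h1 : ∫ x in E, S x ≤ ∫ x in E, (lam / 2 * S x ^ 2 + 1 / (2 * lam)) := by
      refine setIntegral_mono_on (hSint.mono_set Set.sdiff_subset)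
        (((hS2int.mono_set Set.sdiff_subset).const_mul _).add (integrableOn_const hEfin)) hEm
        fun x _ => ?_
      have h2 : 0 ≤ (lam * S x - 1) ^ 2 / (2 * lam) := by positivity
      have h3 : (lam * S x - 1) ^ 2 / (2 * lam) = lam / 2 * S x ^ 2 + 1 / (2 * lam) - S x := by
        field_simp; ring
      linarith
    rw [integral_add ((hS2int.mono_set Set.sdiff_subset).const_mul _) (integrableOn_const hEfin),
      integral_const_mul, setIntegral_const, smul_eq_mul, ← hE] at h1
    refine h1.trans (le_of_eq ?_)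
    field_simp
  -- choose lam
  by_contra hcon
  push Not at hcon
  have hEv : volume.real E < κ * (t - s) := by
    rw [hm']; linarith
  have hE0 : 0 ≤ volume.real E := measureReal_nonneg
  set lam := Δ / (2 * K * Real.log n) with hlam
  have hlam0 : 0 < lam := by positivity
  have hq := hquad lam hlam0
  have h5 : lam * (∫ x in E, S x ^ 2) ≤ Δ / 2 * (t - s) * Real.log n := by
    calc lam * (∫ x in E, S x ^ 2) ≤ lam * (K * (t - s) * (Real.log n) ^ 2) :=
          mul_le_mul_of_nonneg_left hEs hlam0.le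
      _ = _ := by rw [hlam]; field_simp
  have h6 : (1 / lam) * volume.real E < Δ / 2 * (t - s) * Real.log n := by
    calc (1 / lam) * volume.real E < (1 / lam) * (κ * (t - s)) :=
          mul_lt_mul_of_pos_left hEv (by positivity)
      _ = _ := by rw [hlam, hκ]; field_simp
  linarith

/-- **The almost everywhere theorem for shift families.** -/
theorem one_param_sh {a : ℝ} (ha : 0 < a) {y y' : ℕ → ℝ → ℝ} (hy : ∀ p, Measurable (y p))
    (hfam : ∀ a0 a1 : ℝ, a0 < a1 → ∀ᶠ p : ℕ in atTop, Sh a a0 a1 p (y p) (y' p)) :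
    ∀ᵐ t : ℝ,
      (∀ c : ℝ, c < Real.exp Real.eulerMascheroniConstant / a →
        ∃ᶠ n : ℕ in atTop, c * Real.log n < C1 y t n) ∧
      (∀ c : ℝ, Real.exp Real.eulerMascheroniConstant / a < c →
        ∃ᶠ n : ℕ in atTop, C1 y t n < c * Real.log n) := by
  set G := Real.exp Real.eulerMascheroniConstant with hG
  have hG0 : 0 < G := Real.exp_pos _
  have hU : ∀ᵐ t : ℝ, ∀ (m : ℤ) (c : ℚ) (n0 : ℕ), G / a < c →
      ¬ (t ∈ Set.Ioo ((m : ℝ) / 2) ((m : ℝ) / 2 + 1) ∩
        ⋂ n ∈ Set.Ici n0, {t | (c : ℝ) * Real.log n ≤ C1 y t n}) := by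
    simp only [ae_all_iff]
    intro m c n0 hc
    have hL := hfam ((m : ℝ) / 2) ((m : ℝ) / 2 + 1) (by linarith)
    have := upper_null_sh ha (by linarith) hy hL hc n0
    rw [ae_iff]
    refine measure_mono_null (fun t ht => ?_) this
    simp only [Set.mem_ofPred_eq, not_not] at ht
    exact ht
  have hLo : ∀ᵐ t : ℝ, ∀ (m : ℤ) (c : ℚ) (n0 : ℕ), 0 ≤ (c : ℝ) → c < G / a →
      ¬ (t ∈ Set.Ioo ((m : ℝ) / 2) ((m : ℝ) / 2 + 1) ∩
        ⋂ n ∈ Set.Ici n0, {t | C1 y t n ≤ (c : ℝ) * Real.log n}) := by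
    simp only [ae_all_iff]
    intro m c n0 hc0 hc
    have hL := hfam ((m : ℝ) / 2 - 1) ((m : ℝ) / 2 + 2) (by linarith)
    have := lower_null_sh (b0 := (m : ℝ) / 2) (b1 := (m : ℝ) / 2 + 1) ha (by linarith) (by linarith)
      (by linarith) hy hL hc0 hc n0
    rw [ae_iff]
    refine measure_mono_null (fun t ht => ?_) this
    simp only [Set.mem_ofPred_eq, not_not] at ht
    exact ht
  filter_upwards [hU, hLo] with t h1 h2
  -- the interval containing `t`
  obtain ⟨m, hm1, hm2⟩ : ∃ m : ℤ, (m : ℝ) / 2 < t ∧ t < (m : ℝ) / 2 + 1 := by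
    refine ⟨⌈2 * t⌉ - 1, ?_, ?_⟩
    · have := Int.ceil_lt_add_one (2 * t)
      push_cast
      linarith
    · have := Int.le_ceil (2 * t)
      push_cast
      linarith
  constructor
  · intro c hc
    rw [Filter.frequently_iff_forall_eventually_exists_and]
    intro P hP
    obtain ⟨n0, hn0⟩ := eventually_atTop.1 hP
    have hmax : max c 0 < G / a := max_lt hc (by positivity)
    obtain ⟨c', hc1, hc2⟩ := exists_rat_btwn hmax
    have hc'0 : (0 : ℝ) < c' := lt_of_le_of_lt (le_max_right _ _) hc1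
    have hnot := h2 m c' n0 hc'0.le hc2
    simp only [Set.mem_inter_iff, Set.mem_Ioo, Set.mem_iInter, Set.mem_ofPred_eq, Set.mem_Ici,
      not_and, not_forall, not_le] at hnot
    obtain ⟨n, hn, hlt⟩ := hnot ⟨hm1, hm2⟩
    refine ⟨n, lt_of_le_of_lt ?_ hlt, hn0 n hn⟩
    exact mul_le_mul_of_nonneg_right ((le_max_left _ _).trans hc1.le) (Real.log_natCast_nonneg n)
  · intro c hc
    rw [Filter.frequently_iff_forall_eventually_exists_and]
    intro P hP
    obtain ⟨n0, hn0⟩ := eventually_atTop.1 hP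
    obtain ⟨c', hc1, hc2⟩ := exists_rat_btwn hc
    have hnot := h1 m c' n0 hc1
    simp only [Set.mem_inter_iff, Set.mem_Ioo, Set.mem_iInter, Set.mem_ofPred_eq, Set.mem_Ici,
      not_and, not_forall, not_le] at hnot
    obtain ⟨n, hn, hlt⟩ := hnot ⟨hm1, hm2⟩
    refine ⟨n, lt_of_lt_of_le hlt ?_, hn0 n hn⟩
    exact mul_le_mul_of_nonneg_right hc2.le (Real.log_natCast_nonneg n)

end Pool.Agent.H447R2.ML
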