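import Mathlib
import Pool.Agent.H447R2.ML.P9
import Pool.Agent.H447R2.ML.R3
import Pool.Agent.H447R2.ML.Pert

set_option autoImplicit false

/-!
# Truncations `⌊β α ^ p + g p⌋` with a fixed base `α` and almost every amplitude `β`
-/

namespace Pool.Agent.H447R2.ML

open Filter Topology MeasureTheory
open Pool.Agent.H305R2 (roughPart ff measurable_ff ff_nonneg ff_le_one integrableOn_ff NN
  mem_Ioc_log bounds mertens_ratio log_nat_tendsto cesaro)

lemma exp_shift {α : ℝ} (hα : 0 < α) (p : ℕ) (t : ℝ) :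
    Real.exp t * α ^ p = Real.exp (Real.log α * p + t) := by
  rw [Real.exp_add, mul_comm (Real.log α), Real.exp_nat_mul, Real.exp_log hα, mul_comm]

/-- the perturbation is small -/
lemma pert_small {α κ C : ℝ} (hα : 0 < α) (hκ0 : 0 ≤ κ) (hκ : κ < α) {g : ℕ → ℝ}
    (hg : ∀ p, |g p| ≤ C * κ ^ p) (a0 : ℝ) :
    ∀ᶠ p : ℕ in atTop, 2 ≤ p ∧ |g p| ≤ 1 / (2 * p) * Real.exp (Real.log α * p + a0) := by
  have hr : κ / α < 1 := (div_lt_one hα).2 hκ
  have h1 := (tendsto_self_mul_const_pow_of_lt_one (div_nonneg hκ0 hα.le) hr).const_mul (2 * C)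
  rw [mul_zero] at h1
  have h2 := h1.eventually_lt_const (Real.exp_pos a0)
  filter_upwards [h2, eventually_ge_atTop 2] with p hp hp2
  refine ⟨hp2, (hg p).trans ?_⟩
  have hp0 : (0 : ℝ) < p := by
    have : (2 : ℝ) ≤ p := by exact_mod_cast hp2
    linarith
  rw [← exp_shift hα]
  have hαp : 0 < α ^ p := pow_pos hα p
  rw [div_pow] at hp
  have h3 : 2 * C * (p * (κ ^ p / α ^ p)) * α ^ p < Real.exp a0 * α ^ p :=
    mul_lt_mul_of_pos_right hp hαp
  have h4 : 2 * C * (p * (κ ^ p / α ^ p)) * α ^ p = 2 * p * (C * κ ^ p) := by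
    field_simp
  rw [h4] at h3
  rw [one_div, ← div_eq_inv_mul, le_div_iff₀ (by positivity)]
  linarith

lemma sh_of {α κ C : ℝ} (hα : 0 < α) (hκ0 : 0 ≤ κ) (hκ : κ < α) {g : ℕ → ℝ}
    (hg : ∀ p, |g p| ≤ C * κ ^ p) (a0 a1 : ℝ) :
    ∀ᶠ p : ℕ in atTop, Sh (Real.log α) a0 a1 p
      (fun t => Real.log (Real.exp t * α ^ p + g p))
      (fun t => Real.exp (Real.log α * p + t) / (Real.exp (Real.log α * p + t) + g p)) := by
  filter_upwards [pert_small hα hκ0 hκ hg a0] with p hp
  obtain ⟨hp2, hs⟩ := hp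
  have hp2' : (2 : ℝ) ≤ p := by exact_mod_cast hp2
  have hε : 1 / (2 * (p : ℝ)) ≤ 1 / 4 :=
    one_div_le_one_div_of_le (by norm_num) (by linarith)
  have e2 : 2 * (1 / (2 * (p : ℝ))) = 1 / p := by field_simp
  refine ⟨fun t ht => ?_, fun t ht => ?_, fun t ht => ?_⟩
  · have := shift hε hs (show Real.log α * p + a0 ≤ Real.log α * p + t by linarith [ht.1])
    rw [e2] at this
    rw [exp_shift hα]
    exact this
  · have hpos : Real.exp (Real.log α * p + t) + g p ≠ 0 := by
      have h1 : Real.exp (Real.log α * p + a0) ≤ Real.exp (Real.log α * p + t) :=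
        Real.exp_le_exp.2 (by linarith [ht.1])
      have h2 := (abs_le.1 hs).1
      have h3 := Real.exp_pos (Real.log α * p + a0)
      have : 0 < Real.exp (Real.log α * p + t) + g p := by nlinarith
      exact this.ne'
    have h3 : HasDerivAt (fun t : ℝ => Real.exp (Real.log α * p + t) + g p)
        (Real.exp (Real.log α * p + t) * 1) t :=
      (((hasDerivAt_id t).const_add (Real.log α * p)).exp).add_const _
    have h4 := h3.log hpos
    rw [mul_one] at h4
    refine h4.congr_of_eventuallyEq (Eventually.of_forall fun u => ?_)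
    beta_reduce
    rw [exp_shift hα]
  · have := weight hε hs (show Real.log α * p + a0 ≤ Real.log α * p + t by linarith [ht.1])
    rw [e2] at this
    exact this

/-- **Fixed base, almost every amplitude.** -/
theorem shift_val {α κ C : ℝ} (hα : 1 < α) (hκ0 : 0 ≤ κ) (hκ : κ < α) {g : ℕ → ℝ}
    (hg : ∀ p, |g p| ≤ C * κ ^ p) :
    ∀ᵐ β : ℝ, 0 < β →
      (∀ c : ℝ, c < Real.exp Real.eulerMascheroniConstant / Real.log α →
        ∃ᶠ n : ℕ in atTop, c * Real.log n < cv (fun p x => x * α ^ p + g p) β n) ∧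
      (∀ c : ℝ, Real.exp Real.eulerMascheroniConstant / Real.log α < c →
        ∃ᶠ n : ℕ in atTop, (cv (fun p x => x * α ^ p + g p) β n : ℝ) < c * Real.log n) := by
  have hα0 : 0 < α := by linarith
  set y : ℕ → ℝ → ℝ := fun p t => Real.log (Real.exp t * α ^ p + g p) with hy
  have hym : ∀ p, Measurable (y p) := fun p =>
    Real.measurable_log.comp ((Real.measurable_exp.mul_const _).add_const _)
  have h1 := one_param_sh (Real.log_pos hα) hym fun a0 a1 _ => sh_of hα0 hκ0 hκ hg a0 a1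
  have h2 : ∀ᵐ t : ℝ, ∀ p m : ℕ, Real.exp t * α ^ p + g p ≠ m := by
    have hnull : volume (⋃ p : ℕ, ⋃ m : ℕ, {t : ℝ | Real.exp t * α ^ p + g p = m}) = 0 := by
      refine Set.Countable.measure_zero ?_ volume
      refine Set.countable_iUnion fun p => Set.countable_iUnion fun m => ?_
      refine Set.Subsingleton.countable ?_
      intro s hs t ht
      simp only [Set.mem_ofPred_eq] at hs ht
      have h3 : Real.exp s * α ^ p = Real.exp t * α ^ p := by linarith
      exact Real.exp_injective (mul_right_cancel₀ (pow_pos hα0 p).ne' h3)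
    have hae : ∀ᵐ t : ℝ, t ∉ ⋃ p : ℕ, ⋃ m : ℕ, {t : ℝ | Real.exp t * α ^ p + g p = m} := by
      rw [ae_iff]
      refine measure_mono_null (fun t ht => ?_) hnull
      simpa only [Set.mem_ofPred_eq, not_not] using ht
    filter_upwards [hae] with t ht p m hm
    refine ht ?_
    simp only [Set.mem_iUnion]
    exact ⟨p, m, hm⟩
  have h3 : ∀ᵐ t : ℝ,
      (∀ c : ℝ, c < Real.exp Real.eulerMascheroniConstant / Real.log α →
        ∃ᶠ n : ℕ in atTop, c * Real.log n < cv (fun p x => x * α ^ p + g p) (Real.exp t) n) ∧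
      (∀ c : ℝ, Real.exp Real.eulerMascheroniConstant / Real.log α < c →
        ∃ᶠ n : ℕ in atTop,
          (cv (fun p x => x * α ^ p + g p) (Real.exp t) n : ℝ) < c * Real.log n) := by
    filter_upwards [h1, h2] with t ht1 ht2
    obtain ⟨k1, k2⟩ := ht1
    obtain ⟨P, hP⟩ := eventually_atTop.1 (pert_small hα0 hκ0 hκ hg t)
    have hcomp : ∀ p, P ≤ p → p.Prime → ff p (y p t) =
        if (roughPart p ⌊(fun p x => x * α ^ p + g p) p (Real.exp t)⌋₊).Prime then 1 else 0 := by
      intro p hp hpp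
      obtain ⟨hp2, hs⟩ := hP p hp
      refine ff_eq_floor ?_ (ht2 p)
      rw [exp_shift hα0]
      have h4 := (abs_le.1 hs).1
      have h5 := Real.exp_pos (Real.log α * p + t)
      have hp2' : (2 : ℝ) ≤ p := by exact_mod_cast hp2
      have hε : 1 / (2 * (p : ℝ)) ≤ 1 / 4 :=
        one_div_le_one_div_of_le (by norm_num) (by linarith)
      nlinarith
    exact transfer (F := C1 y t)
      (H := fun n => (cv (fun p x => x * α ^ p + g p) (Real.exp t) n : ℝ)) (P := P)
      (fun n => (compare_counts _ (Real.exp t) y t hcomp n).1)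
      (fun n => (compare_counts _ (Real.exp t) y t hcomp n).2) k1 k2
  exact ae_exp1 h3

end Pool.Agent.H447R2.ML
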