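import Mathlib
import Pool.Agent.H447R2.ML.R4

set_option autoImplicit false

/-!
# The largest integers below `β α ^ p + g p`: mean values and the almost everywhere theorem
-/

namespace Pool.Agent.H447R2.ML

open Filter Topology MeasureTheory
open Pool.Agent.H305R2 (roughPart ff measurable_ff ff_nonneg ff_le_one integrableOn_ff NN
  mem_Ioc_log bounds mertens_ratio log_nat_tendsto cesaro)

/-- number of primes `p ≤ n` such that the `p`-rough part of `⌈val p x⌉ - 1` is prime -/
noncomputable def cc (val : ℕ → ℝ → ℝ) (x : ℝ) (n : ℕ) : ℕ :=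
  ((Finset.range (n + 1)).filter (fun p => p.Prime ∧ (roughPart p (⌈val p x⌉₊ - 1)).Prime)).card

lemma ff_eq_ceil {p : ℕ} {v : ℝ} (hv : 0 < v) :
    ff p (Real.log v) = if (roughPart p (⌈v⌉₊ - 1)).Prime then 1 else 0 := by
  unfold ff NN
  rw [Real.exp_log hv]

/-- comparison of the two counting functions -/
lemma compare_counts' (val : ℕ → ℝ → ℝ) (x : ℝ) (y : ℕ → ℝ → ℝ) (t : ℝ) {P : ℕ}
    (h : ∀ p, P ≤ p → p.Prime →
      ff p (y p t) = if (roughPart p (⌈val p x⌉₊ - 1)).Prime then 1 else 0)
    (n : ℕ) : C1 y t n ≤ cc val x n + P ∧ (cc val x n : ℝ) ≤ C1 y t n + P := by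
  have e : (cc val x n : ℝ) = ∑ p ∈ (Finset.Icc 1 n).filter Nat.Prime,
      if (roughPart p (⌈val p x⌉₊ - 1)).Prime then (1 : ℝ) else 0 := by
    unfold cc
    rw [← Finset.sum_filter, Finset.sum_const, nsmul_eq_mul, mul_one, Finset.filter_filter]
    congr 2
    ext p
    simp only [Finset.mem_filter, Finset.mem_range, Finset.mem_Icc]
    constructor
    · rintro ⟨h1, h2, h3⟩
      exact ⟨⟨h2.one_lt.le, by omega⟩, h2, h3⟩
    · rintro ⟨h1, h2, h3⟩
      exact ⟨by omega, h2, h3⟩
  have key : ∀ (f g : ℕ → ℝ), (∀ p, f p ≤ 1) → (∀ p, 0 ≤ g p) →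
      (∀ p, P ≤ p → p.Prime → f p = g p) →
      ∑ p ∈ (Finset.Icc 1 n).filter Nat.Prime, f p ≤
        ∑ p ∈ (Finset.Icc 1 n).filter Nat.Prime, g p + P := by
    intro f g hf hg hfg
    have h1 : ∀ p ∈ (Finset.Icc 1 n).filter Nat.Prime, f p ≤ g p + if p < P then 1 else 0 := by
      intro p hp
      rw [Finset.mem_filter] at hp
      split_ifs with h2
      · have := hf p; have := hg p; linarith
      · rw [add_zero]; exact (hfg p (not_lt.1 h2) hp.2).le
    refine (Finset.sum_le_sum h1).trans ?_
    rw [Finset.sum_add_distrib]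
    refine add_le_add le_rfl ?_
    rw [← Finset.sum_filter, Finset.sum_const, nsmul_eq_mul, mul_one]
    have h2 : ((Finset.Icc 1 n).filter Nat.Prime).filter (fun p => p < P) ⊆ Finset.range P := by
      intro p hp
      rw [Finset.mem_filter] at hp
      exact Finset.mem_range.2 hp.2
    have h3 := Finset.card_le_card h2
    rw [Finset.card_range] at h3
    exact_mod_cast h3
  rw [e]
  unfold C1
  constructor
  · refine key _ _ (fun p => ff_le_one p _) (fun p => ?_) h
    split_ifs <;> norm_num
  · refine key _ _ (fun p => ?_) (fun p => ff_nonneg p _) fun p h1 h2 => (h p h1 h2).symm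
    split_ifs <;> norm_num

lemma int_C1 {y : ℕ → ℝ → ℝ} (hy : ∀ p, Measurable (y p)) (n : ℕ) (s t : ℝ) :
    IntegrableOn (fun x => C1 y x n) (Set.Ioc s t) := int_sum hy _ s t

/-- the mean over an arbitrary interval -/
lemma mean_C1_any {a : ℝ} (ha : 0 < a) {y y' : ℕ → ℝ → ℝ}
    (hy : ∀ p, Measurable (y p))
    (hfam : ∀ a0 a1 : ℝ, ∀ᶠ p : ℕ in atTop, Sh a a0 a1 p (y p) (y' p)) :
    ∀ (N : ℕ) (s t : ℝ), s < t → t - s ≤ N →
    Tendsto (fun n : ℕ => (∫ x in Set.Ioc s t, C1 y x n) / Real.log n) atTop
      (𝓝 (Real.exp Real.eulerMascheroniConstant * (t - s) / a)) := by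
  intro N
  induction N with
  | zero =>
    intro s t hst h
    simp at h
    linarith
  | succ N ih =>
    intro s t hst h
    by_cases h1 : t - s ≤ 1
    · exact mean_C1_sh ha hy (hfam s t) le_rfl hst le_rfl h1
    · push Not at h1
      push_cast at h
      have k1 := ih s (t - 1) (by linarith) (by linarith)
      have k2 := mean_C1_sh ha hy (hfam (t - 1) t) (s := t - 1) (t := t) le_rfl (by linarith) le_rfl
        (by linarith)
      have k3 := k1.add k2
      have e : Real.exp Real.eulerMascheroniConstant * (t - 1 - s) / a +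
          Real.exp Real.eulerMascheroniConstant * (t - (t - 1)) / a =
          Real.exp Real.eulerMascheroniConstant * (t - s) / a := by ring
      rw [e] at k3
      refine k3.congr fun n => ?_
      rw [← add_div]
      congr 1
      have hu : Set.Ioc s t = Set.Ioc s (t - 1) ∪ Set.Ioc (t - 1) t :=
        (Set.Ioc_union_Ioc_eq_Ioc (by linarith) (by linarith)).symm
      rw [hu, setIntegral_union (Set.Ioc_disjoint_Ioc_of_le le_rfl) measurableSet_Ioc
        (int_C1 hy _ _ _) (int_C1 hy _ _ _)]

/-- **Fixed base: mean values and almost every amplitude.** -/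
theorem shift_ceil {α κ C : ℝ} (hα : 1 < α) (hκ0 : 0 ≤ κ) (hκ : κ < α) {g : ℕ → ℝ}
    (hg : ∀ p, |g p| ≤ C * κ ^ p) :
    (∀ s t : ℝ, s < t → Tendsto (fun n : ℕ =>
        (∫ u in s..t, (cc (fun p x => x * α ^ p + g p) (Real.exp u) n : ℝ)) /
          ((t - s) * Real.log n)) atTop
        (𝓝 (Real.exp Real.eulerMascheroniConstant / Real.log α))) ∧
    (∀ᵐ β : ℝ, 0 < β →
      (∀ c : ℝ, c < Real.exp Real.eulerMascheroniConstant / Real.log α →
        ∃ᶠ n : ℕ in atTop, c * Real.log n < cc (fun p x => x * α ^ p + g p) β n) ∧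
      (∀ c : ℝ, Real.exp Real.eulerMascheroniConstant / Real.log α < c →
        ∃ᶠ n : ℕ in atTop, (cc (fun p x => x * α ^ p + g p) β n : ℝ) < c * Real.log n)) := by
  have hα0 : 0 < α := by linarith
  set y : ℕ → ℝ → ℝ := fun p t => Real.log (Real.exp t * α ^ p + g p) with hy
  have hym : ∀ p, Measurable (y p) := fun p =>
    Real.measurable_log.comp ((Real.measurable_exp.mul_const _).add_const _)
  have hcomp : ∀ s : ℝ, ∃ P : ℕ, ∀ t : ℝ, s ≤ t → ∀ p, P ≤ p → p.Prime → ff p (y p t) =
      if (roughPart p (⌈(fun p x => x * α ^ p + g p) p (Real.exp t)⌉₊ - 1)).Prime then 1 else 0 := by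
    intro s
    obtain ⟨P, hP⟩ := eventually_atTop.1 (pert_small hα0 hκ0 hκ hg s)
    refine ⟨P, fun t hst p hp hpp => ?_⟩
    obtain ⟨hp2, hs⟩ := hP p hp
    refine ff_eq_ceil ?_
    rw [exp_shift hα0]
    have h4 := (abs_le.1 hs).1
    have h5 : Real.exp (Real.log α * p + s) ≤ Real.exp (Real.log α * p + t) :=
      Real.exp_le_exp.2 (by linarith)
    have h6 := Real.exp_pos (Real.log α * p + s)
    have hp2' : (2 : ℝ) ≤ p := by exact_mod_cast hp2
    have hε : 1 / (2 * (p : ℝ)) ≤ 1 / 4 :=
      one_div_le_one_div_of_le (by norm_num) (by linarith)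
    nlinarith
  constructor
  · intro s t hst
    obtain ⟨P, hP⟩ := hcomp s
    obtain ⟨N, hN⟩ := exists_nat_ge (t - s)
    have h1 := mean_C1_any (Real.log_pos hα) hym (fun a0 a1 => sh_of hα0 hκ0 hκ hg a0 a1) N s t hst hN
    have hts : 0 < t - s := by linarith
    have h2 : Tendsto (fun n : ℕ => (∫ x in Set.Ioc s t, C1 y x n) / ((t - s) * Real.log n)) atTop
        (𝓝 (Real.exp Real.eulerMascheroniConstant / Real.log α)) := by
      have h3 := h1.div_const (t - s)
      have e : Real.exp Real.eulerMascheroniConstant * (t - s) / Real.log α / (t - s) =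
          Real.exp Real.eulerMascheroniConstant / Real.log α := by field_simp
      rw [e] at h3
      refine h3.congr fun n => ?_
      rw [div_div, mul_comm (Real.log (n : ℝ))]
    have h4 : Tendsto (fun n : ℕ => (P : ℝ) / Real.log n) atTop (𝓝 0) :=
      log_nat_tendsto.const_div_atTop _
    -- measurability of the counting function
    have hcm : ∀ n : ℕ, IntegrableOn (fun u => (cc (fun p x => x * α ^ p + g p) (Real.exp u) n : ℝ))
        (Set.Ioc s t) := by
      intro n
      have e : ∀ u, (cc (fun p x => x * α ^ p + g p) (Real.exp u) n : ℝ) =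
          ∑ p ∈ (Finset.range (n + 1)).filter Nat.Prime,
          if (roughPart p (⌈Real.exp u * α ^ p + g p⌉₊ - 1)).Prime then (1 : ℝ) else 0 := by
        intro u
        unfold cc
        rw [← Finset.sum_filter, Finset.sum_const, nsmul_eq_mul, mul_one, Finset.filter_filter]
      simp only [e]
      refine integrable_finsetSum _ fun p _ => ?_
      refine Measure.integrableOn_of_bounded (M := 1) (by simp) ?_ ?_
      · have m1 : Measurable fun u : ℝ => ⌈Real.exp u * α ^ p + g p⌉₊ :=
          Nat.measurable_ceil.comp ((Real.measurable_exp.mul_const _).add_const _)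
        have m2 : Measurable fun m : ℕ => if (roughPart p (m - 1)).Prime then (1 : ℝ) else 0 :=
          measurable_from_top
        exact (m2.comp m1).aestronglyMeasurable
      · exact Eventually.of_forall fun x => by
          split_ifs <;> norm_num
    have h5 : ∀ n : ℕ, |(∫ u in Set.Ioc s t, (cc (fun p x => x * α ^ p + g p) (Real.exp u) n : ℝ)) -
        ∫ x in Set.Ioc s t, C1 y x n| ≤ (t - s) * P := by
      intro n
      rw [← integral_sub (hcm n) (int_C1 hym _ _ _), ← Real.norm_eq_abs]
      have h6 := norm_setIntegral_le_of_norm_le_const (μ := volume) (s := Set.Ioc s t)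
        (f := fun u => (cc (fun p x => x * α ^ p + g p) (Real.exp u) n : ℝ) - C1 y u n) (C := P)
        (by simp) (fun u hu => by
          have h7 := compare_counts' (fun p x => x * α ^ p + g p) (Real.exp u) y u (hP u hu.1.le) n
          rw [Real.norm_eq_abs, abs_le]
          constructor <;> linarith [h7.1, h7.2])
      rw [Real.volume_real_Ioc_of_le hst.le] at h6
      linarith
    have h6 : Tendsto (fun n : ℕ =>
        ((∫ u in Set.Ioc s t, (cc (fun p x => x * α ^ p + g p) (Real.exp u) n : ℝ)) -
        ∫ x in Set.Ioc s t, C1 y x n) / ((t - s) * Real.log n)) atTop (𝓝 0) := by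
      refine squeeze_zero_norm' ?_ h4
      filter_upwards [log_nat_tendsto.eventually_ge_atTop 1] with n hn
      have hl : 0 < Real.log n := by linarith
      rw [Real.norm_eq_abs, abs_div, abs_of_pos (mul_pos hts hl), div_le_div_iff₀ (mul_pos hts hl) hl]
      calc _ ≤ ((t - s) * P) * Real.log n := mul_le_mul_of_nonneg_right (h5 n) hl.le
        _ = _ := by ring
    have h7 := h6.add h2
    rw [zero_add] at h7
    refine h7.congr fun n => ?_
    rw [intervalIntegral.integral_of_le hst.le, ← add_div, sub_add_cancel]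
  · have h1 := one_param_sh (Real.log_pos hα) hym fun a0 a1 _ => sh_of hα0 hκ0 hκ hg a0 a1
    have h3 : ∀ᵐ t : ℝ,
        (∀ c : ℝ, c < Real.exp Real.eulerMascheroniConstant / Real.log α →
          ∃ᶠ n : ℕ in atTop, c * Real.log n < cc (fun p x => x * α ^ p + g p) (Real.exp t) n) ∧
        (∀ c : ℝ, Real.exp Real.eulerMascheroniConstant / Real.log α < c →
          ∃ᶠ n : ℕ in atTop,
            (cc (fun p x => x * α ^ p + g p) (Real.exp t) n : ℝ) < c * Real.log n) := by
      filter_upwards [h1] with t ht1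
      obtain ⟨k1, k2⟩ := ht1
      obtain ⟨P, hP⟩ := hcomp t
      have hcomp := hP t le_rfl
      exact transfer (F := C1 y t)
        (H := fun n => (cc (fun p x => x * α ^ p + g p) (Real.exp t) n : ℝ)) (P := P)
        (fun n => (compare_counts' _ (Real.exp t) y t hcomp n).1)
        (fun n => (compare_counts' _ (Real.exp t) y t hcomp n).2) k1 k2
    exact ae_exp1 h3

end Pool.Agent.H447R2.ML
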