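import Mathlib
import Pool.Agent.H447R2.ML.R5

set_option autoImplicit false

/-!
# Integer parts of `β α ^ p + g p`: mean values and the almost everywhere theorem
-/

namespace Pool.Agent.H447R2.ML

open Filter Topology MeasureTheory
open Pool.Agent.H305R2 (roughPart ff measurable_ff ff_nonneg ff_le_one integrableOn_ff NN
  mem_Ioc_log bounds mertens_ratio log_nat_tendsto cesaro)

/-- **Fixed base: mean values and almost every amplitude.** -/
theorem shift_floor {α κ C : ℝ} (hα : 1 < α) (hκ0 : 0 ≤ κ) (hκ : κ < α) {g : ℕ → ℝ}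
    (hg : ∀ p, |g p| ≤ C * κ ^ p) :
    (∀ s t : ℝ, s < t → Tendsto (fun n : ℕ =>
        (∫ u in s..t, (cv (fun p x => x * α ^ p + g p) (Real.exp u) n : ℝ)) /
          ((t - s) * Real.log n)) atTop
        (𝓝 (Real.exp Real.eulerMascheroniConstant / Real.log α))) ∧
    (∀ᵐ β : ℝ, 0 < β →
      (∀ c : ℝ, c < Real.exp Real.eulerMascheroniConstant / Real.log α →
        ∃ᶠ n : ℕ in atTop, c * Real.log n < cv (fun p x => x * α ^ p + g p) β n) ∧
      (∀ c : ℝ, Real.exp Real.eulerMascheroniConstant / Real.log α < c →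
        ∃ᶠ n : ℕ in atTop, (cv (fun p x => x * α ^ p + g p) β n : ℝ) < c * Real.log n)) := by
  have hα0 : 0 < α := by linarith
  refine ⟨?_, shift_val hα hκ0 hκ hg⟩
  have h0 := (shift_ceil hα hκ0 hκ hg).1
  have h2 : ∀ᵐ t : ℝ, ∀ p m : ℕ, Real.exp t * α ^ p + g p ≠ m := by
    have hnull : volume (⋃ p : ℕ, ⋃ m : ℕ, {t : ℝ | Real.exp t * α ^ p + g p = m}) = 0 := by
      refine Set.Countable.measure_zero ?_ volume
      refine Set.countable_iUnion fun p => Set.countable_iUnion fun m => ?_
      refine Set.Subsingleton.countable ?_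
      intro s hs t ht
      simp only [Set.mem_ofPred_eq] at hs ht
      have h3 : Real.exp s * α ^ p = Real.exp t * α ^ p := by linarith
      exact Real.exp_injective (mul_right_cancel₀ (pow_pos hα0 p).ne' h3)
    have hae : ∀ᵐ t : ℝ, t ∉ ⋃ p : ℕ, ⋃ m : ℕ, {t : ℝ | Real.exp t * α ^ p + g p = m} := by
      rw [ae_iff]
      refine measure_mono_null (fun t ht => ?_) hnull
      simpa only [Set.mem_ofPred_eq, not_not] using ht
    filter_upwards [hae] with t ht p m hm
    refine ht ?_
    simp only [Set.mem_iUnion]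
    exact ⟨p, m, hm⟩
  have h3 : ∀ᵐ t : ℝ, ∀ n : ℕ, cv (fun p x => x * α ^ p + g p) (Real.exp t) n =
      cc (fun p x => x * α ^ p + g p) (Real.exp t) n := by
    filter_upwards [h2] with t ht n
    unfold cv cc
    congr 1
    refine Finset.filter_congr fun p _ => ?_
    have e : ⌊Real.exp t * α ^ p + g p⌋₊ = ⌈Real.exp t * α ^ p + g p⌉₊ - 1 := by
      rcases lt_or_ge 0 (Real.exp t * α ^ p + g p) with h | h
      · have h4 : ⌈Real.exp t * α ^ p + g p⌉₊ = ⌊Real.exp t * α ^ p + g p⌋₊ + 1 := by
          rw [Nat.ceil_eq_iff (Nat.succ_ne_zero _)]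
          constructor
          · rw [Nat.succ_sub_one]
            exact lt_of_le_of_ne (Nat.floor_le h.le) fun h5 => ht p _ h5.symm
          · push_cast
            exact (Nat.lt_floor_add_one _).le
        rw [h4, Nat.add_sub_cancel]
      · rw [Nat.floor_of_nonpos h, Nat.ceil_eq_zero.2 h]
    simp only [e]
  intro s t hst
  refine (h0 s t hst).congr fun n => ?_
  congr 1
  rw [intervalIntegral.integral_of_le hst.le, intervalIntegral.integral_of_le hst.le]
  refine setIntegral_congr_ae measurableSet_Ioc ?_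
  filter_upwards [h3] with u hu _
  rw [hu n]

end Pool.Agent.H447R2.ML
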